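import Pool.Agent.H13.PZ.Sp

/-!
# Boundary: counting

Let `c v` be the number of `i ∈ J` with `v ∈ V i`, and `X = J.biUnion V`. Then
`∑ i ∈ J, (V i).card = ∑ v ∈ X, c v` (double counting), `c v ≥ 1` on `X`, and `c v = 1` on `X`
exactly on the boundary; so `∑ v ∈ X, c v ≥ 2 |X| - |bdry|`.
If `J = J₁ ∪ J₂` (disjoint) and every `V i`, `i ∈ J₁`, is disjoint from every `V j`, `j ∈ J₂`, then
a point `v` of the union of the first kind has `c_J v = c_{J₁} v`, `c_{J₂} v = 0` and conversely;
so `bdry J` is the disjoint union of `bdry J₁` and `bdry J₂`.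
-/

namespace Pool.Agent.H13.PZ

open Finset

theorem bdry_subset {n : ℕ} {ι : Type} [DecidableEq ι] (V : ι → Finset (Fin n))
    (J : Finset ι) : bdry V J ⊆ J.biUnion V := by
  unfold bdry
  intro v hv
  simp only [Finset.mem_filter] at hv
  have h1 : (J.filter fun i => v ∈ V i).Nonempty := by
    rw [← Finset.card_pos]; omega
  obtain ⟨i, hi⟩ := h1
  rw [Finset.mem_filter] at hi
  exact Finset.mem_biUnion.2 ⟨i, hi.1, hi.2⟩

theorem two_mul_card_le {n : ℕ} {ι : Type} [DecidableEq ι] (V : ι → Finset (Fin n))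
    (J : Finset ι) :
    2 * (J.biUnion V).card ≤ (bdry V J).card + ∑ i ∈ J, (V i).card := by
  have h1 : ∑ i ∈ J, (V i).card = ∑ v ∈ J.biUnion V, (J.filter fun i => v ∈ V i).card := by
    have h2 : ∀ i ∈ J, (V i).card = ∑ v ∈ J.biUnion V, if v ∈ V i then 1 else 0 := by
      intro i hi
      rw [← Finset.card_filter]
      congr 1
      ext v
      rw [Finset.mem_filter, Finset.mem_biUnion]
      constructor
      · intro h; exact ⟨⟨i, hi, h⟩, h⟩
      · intro h; exact h.2
    rw [Finset.sum_congr rfl h2, Finset.sum_comm]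
    refine Finset.sum_congr rfl fun v _ => ?_
    rw [← Finset.card_filter]
  have h3 : (bdry V J).card = ∑ v ∈ J.biUnion V, if v ∈ bdry V J then 1 else 0 := by
    rw [← Finset.card_filter]
    congr 1
    ext v
    rw [Finset.mem_filter]
    exact ⟨fun h => ⟨bdry_subset V J h, h⟩, fun h => h.2⟩
  rw [h1, h3, ← Finset.sum_add_distrib, mul_comm, ← smul_eq_mul, ← Finset.sum_const]
  refine Finset.sum_le_sum fun v hv => ?_
  have h4 : 0 < (J.filter fun i => v ∈ V i).card := by
    rw [Finset.card_pos]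
    obtain ⟨i, hi, hvi⟩ := Finset.mem_biUnion.1 hv
    exact ⟨i, Finset.mem_filter.2 ⟨hi, hvi⟩⟩
  by_cases h5 : (J.filter fun i => v ∈ V i).card = 1
  · have : v ∈ bdry V J := by unfold bdry; exact Finset.mem_filter.2 ⟨Finset.mem_univ _, h5⟩
    rw [if_pos this, h5]
  · omega

theorem bdry_add {n : ℕ} {ι : Type} [DecidableEq ι] (V : ι → Finset (Fin n))
    (J₁ J₂ : Finset ι) (hd : Disjoint J₁ J₂)
    (h : ∀ i ∈ J₁, ∀ j ∈ J₂, Disjoint (V i) (V j)) :
    (bdry V (J₁ ∪ J₂)).card = (bdry V J₁).card + (bdry V J₂).card := by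
  have hkey : ∀ v, ((J₁ ∪ J₂).filter fun i => v ∈ V i).card =
      (J₁.filter fun i => v ∈ V i).card + (J₂.filter fun i => v ∈ V i).card := by
    intro v
    rw [Finset.filter_union, Finset.card_union_of_disjoint]
    exact Finset.disjoint_filter_filter hd
  have hor : ∀ v, (J₁.filter fun i => v ∈ V i).card = 0 ∨
      (J₂.filter fun i => v ∈ V i).card = 0 := by
    intro v
    by_contra hc
    push Not at hc
    obtain ⟨i, hi⟩ := Finset.card_pos.1 (Nat.pos_of_ne_zero hc.1)
    obtain ⟨j, hj⟩ := Finset.card_pos.1 (Nat.pos_of_ne_zero hc.2)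
    rw [Finset.mem_filter] at hi hj
    exact (Finset.disjoint_left.1 (h i hi.1 j hj.1)) hi.2 hj.2
  rw [← Finset.card_union_of_disjoint]
  · congr 1
    ext v
    unfold bdry
    simp only [Finset.mem_union, Finset.mem_filter, Finset.mem_univ, true_and]
    have h1 := hkey v
    have h2 := hor v
    constructor
    · intro h3
      rw [h1] at h3
      omega
    · intro h3
      rw [h1]
      omega
  · rw [Finset.disjoint_left]
    intro v hv1 hv2
    unfold bdry at hv1 hv2
    simp only [Finset.mem_filter, Finset.mem_univ, true_and] at hv1 hv2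
    have h2 := hor v
    omega

end Pool.Agent.H13.PZ
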