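import Pool.Agent.H13.PZ.Bda

/-!
# Boundary of connected subsystems

`J ⊆ I` is nonempty and connected: it has no nonempty proper subset `J₁` such that all `V i`,
`i ∈ J₁`, are disjoint from all `V j`, `j ∈ J \ J₁`. Let `X = J.biUnion V`, `x = |X|`, `s = |J|`,
`e = ∑ i ∈ J, |V i| = ∑ i ∈ J, |V i ∩ X|`, `b = |bdry V J|`. Then `x ≤ k s`, `s + x ≤ (k + 1) s ≤ N₀`
and `2 x ≤ b + e` (`two_mul_card_le`), `2 s ≤ e`.

Case `s + x ≤ 16 L k`: by `forest` (`X ⊆ K`) `e + 1 ≤ s + x`, so
`b ≥ 2 x - e ≥ 2 (e + 1 - s) - e = e + 2 - 2 s ≥ 2`, and `s ≤ 16 L k ≤ 8 L k b`.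

Case `s + x > 16 L k`: let `B = {i ∈ J | 3 ≤ |V i|}`, `t = |B|`.
(A) For `v ∈ X` let `J₁ = {i ∈ J | some u ∈ V i is reachable from v in G}`; it is nonempty. If no
`i ∈ J₁` lies in `B` then all `V i`, `i ∈ J₁`, have two elements, which are adjacent, so all
elements of `V i` are reachable from `v`; no element of `V j`, `j ∈ J \ J₁`, is reachable; so all
these `V i` and `V j` are disjoint, and by connectedness `J₁ = J`.
(B) `t ≥ 1`: otherwise by (A), for one `v ∈ X`, all elements of `X` are reachable from `v`, so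
`x ≤ L` (`small`, `X ⊆ K`). By `sparse`, `2 q s ≤ (q + 1) (s + x)`, so `(q - 1) s ≤ (q + 1) x` and
`s ≤ 2 x` because `q ≥ 3`. So `s + x ≤ 3 L ≤ 16 L k`, a contradiction.
(C) `x ≤ L k t`: by (A) and `t ≥ 1` every `v ∈ X` is reachable from some `u ∈ V i`, `i ∈ B` (if
`J₁ ∩ B = ∅` then `J₁ = J ⊇ B`, impossible as `B` is nonempty; reachability is symmetric), so `X` is
covered by the at most `k t` sets `Q` (of at most `L` elements) of the elements of `V i`, `i ∈ B`.
(D) Put `s₂ = |J \ B|`. `sparse` for `J \ B`: `2 q s₂ ≤ (q + 1) (s₂ + x)` so `s₂ ≤ 2 x`, and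
`s = t + s₂ ≤ t + 2 L k t ≤ 3 L k t`.
(E) `e ≥ 2 s + t`. `sparse`: `q e ≤ (q + 1) (s + x)`. With `2 x ≤ b + e`:
`(q + 1) b ≥ 2 (q + 1) x - (q + 1) e ≥ 2 q e - 2 (q + 1) s - (q + 1) e = (q - 1) e - 2 (q + 1) s
≥ (q - 1) (2 s + t) - 2 (q + 1) s = (q - 1) t - 4 s ≥ (q - 1 - 12 L k) t`.
If `2 b ≤ t - 1` then `(q + 1) (t - 1) ≥ 2 (q - 1 - 12 L k) t`, so `(24 L k + 3 - q) t ≥ q + 1`,
impossible since `q ≥ 28 L k ≥ 24 L k + 4`. So `t ≤ 2 b`.
(F) `s ≤ 3 L k t ≤ 6 L k b ≤ 8 L k b`. `16 L k < s + x ≤ 4 L k t` so `t ≥ 5`, `b ≥ 3 ≥ 2`.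
-/

namespace Pool.Agent.H13.PZ

open Finset

theorem bdry_connected {n : ℕ} {ι : Type} [DecidableEq ι] {V : ι → Finset (Fin n)}
    {I : Finset ι} {G : SimpleGraph (Fin n)} {K : Finset (Fin n)} {k L q N₀ : ℕ}
    (h : SpSys V I G K k L q N₀) (hk : 1 ≤ k) (hL : 1 ≤ L) (hq : 28 * L * k ≤ q)
    (J : Finset ι) (hJ : J ⊆ I) (hne : J.Nonempty) (hN : (k + 1) * J.card ≤ N₀)
    (hconn : ∀ J₁ ⊆ J, J₁.Nonempty → J₁ ≠ J →
      ∃ i ∈ J₁, ∃ j ∈ J \ J₁, ¬ Disjoint (V i) (V j)) :
    2 ≤ (bdry V J).card ∧ J.card ≤ 8 * L * k * (bdry V J).card := by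
  classical
  have h2x := two_mul_card_le V J
  have hXK : J.biUnion V ⊆ K := by
    intro v hv
    obtain ⟨i, hi, hvi⟩ := Finset.mem_biUnion.1 hv
    exact h.sub i (hJ hi) hvi
  have hVX : ∀ i ∈ J, V i ∩ J.biUnion V = V i := by
    intro i hi
    exact Finset.inter_eq_left.2 (fun v hv => Finset.mem_biUnion.2 ⟨i, hi, hv⟩)
  have hxle : (J.biUnion V).card ≤ J.card * k :=
    Finset.card_biUnion_le_card_mul _ _ _ (fun i hi => h.le_k i (hJ hi))
  have hsum : ∀ J' ⊆ J, ∑ i ∈ J', (V i ∩ J.biUnion V).card = ∑ i ∈ J', (V i).card := by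
    intro J' hJ'
    exact Finset.sum_congr rfl (fun i hi => by rw [hVX i (hJ' hi)])
  have h2e : ∀ J' ⊆ J, 2 * J'.card ≤ ∑ i ∈ J', (V i).card := by
    intro J' hJ'
    have := Finset.card_nsmul_le_sum J' (fun i => (V i).card) 2
      (fun i hi => h.two_le i (hJ (hJ' hi)))
    simpa [mul_comm] using this
  have hspos : 0 < J.card := Finset.card_pos.2 hne
  have hsN : J.card + (J.biUnion V).card ≤ N₀ := by
    refine le_trans ?_ hN
    have h5 : (k + 1) * J.card = J.card * k + J.card := by ring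
    omega
  have hLk : 1 ≤ L * k := Nat.mul_pos hL hk
  have hq28 : 28 * (L * k) ≤ q := by
    have e1 : 28 * L * k = 28 * (L * k) := by ring
    omega
  -- sparse consequence: `|J'| ≤ 2 x`
  have hsp2 : ∀ J' ⊆ J, J'.card ≤ 2 * (J.biUnion V).card := by
    intro J' hJ'
    have h1 := h.sparse J' (hJ'.trans hJ) (J.biUnion V)
      ((Nat.add_le_add_right (Finset.card_le_card hJ') _).trans hsN)
    rw [hsum J' hJ'] at h1
    have h2 := h2e J' hJ'
    have h3 : q * (2 * J'.card) ≤ (q + 1) * (J'.card + (J.biUnion V).card) :=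
      (Nat.mul_le_mul_left q h2).trans h1
    obtain ⟨q', hq'⟩ : ∃ q', q = q' + 3 := ⟨q - 3, by omega⟩
    subst hq'
    by_contra hcon
    push Not at hcon
    have h4 : (q' + 3 + 1) * (2 * (J.biUnion V).card + 1) ≤ (q' + 3 + 1) * J'.card :=
      Nat.mul_le_mul_left _ hcon
    have h5 : 0 ≤ q' * J'.card := Nat.zero_le _
    linarith
  set X := J.biUnion V with hX
  set b := (bdry V J).card with hb
  have hL8 : 8 * L * k = 8 * (L * k) := by ring
  rw [hL8]
  by_cases hcase : J.card + X.card ≤ 16 * L * k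
  · have h1 := h.forest J hJ X hXK (by omega) hcase
    rw [hsum J (Finset.Subset.refl _)] at h1
    have h2 := h2e J (Finset.Subset.refl _)
    have hb2 : 2 ≤ b := by omega
    refine ⟨hb2, ?_⟩
    have h3 : 16 * L * k = 8 * (L * k) * 2 := by ring
    have h4 : 8 * (L * k) * 2 ≤ 8 * (L * k) * b := Nat.mul_le_mul_left _ hb2
    omega
  · push Not at hcase
    have h16 : 16 * L * k = 16 * (L * k) := by ring
    rw [h16] at hcase
    -- the reachable members
    have hA : ∀ v ∈ X, (∀ i ∈ J, (∃ u ∈ V i, G.Reachable v u) → (V i).card < 3) →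
        ∀ i ∈ J, ∃ u ∈ V i, G.Reachable v u := by
      intro v hv hlt
      obtain ⟨i0, hi0, hvi0⟩ := Finset.mem_biUnion.1 hv
      by_contra hcon
      push Not at hcon
      obtain ⟨j0, hj0, hj0'⟩ := hcon
      obtain ⟨i, hi, j, hj, hij⟩ := hconn (J.filter (fun i => ∃ u ∈ V i, G.Reachable v u))
        (Finset.filter_subset _ _)
        ⟨i0, Finset.mem_filter.2 ⟨hi0, v, hvi0, SimpleGraph.Reachable.refl _⟩⟩
        (by
          intro heq
          have : j0 ∈ J.filter (fun i => ∃ u ∈ V i, G.Reachable v u) := by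
            rw [heq]; exact hj0
          obtain ⟨_, u, hu, hr⟩ := Finset.mem_filter.1 this
          exact hj0' u hu hr)
      obtain ⟨hiJ, u, hu, hr⟩ := Finset.mem_filter.1 hi
      obtain ⟨hjJ, hj2⟩ := Finset.mem_sdiff.1 hj
      obtain ⟨w, hwi, hwj⟩ := Finset.not_disjoint_iff.1 hij
      have hc2 : (V i).card = 2 := by
        have := hlt i hiJ ⟨u, hu, hr⟩
        have := h.two_le i (hJ hiJ)
        omega
      have hrw : G.Reachable v w := by
        by_cases huw : u = w
        · rw [← huw]; exact hr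
        · exact hr.trans (h.adj i (hJ hiJ) hc2 u hu w hwi huw).reachable
      exact hj2 (Finset.mem_filter.2 ⟨hjJ, w, hwj, hrw⟩)
    set B := J.filter (fun i => 3 ≤ (V i).card) with hB
    have hBJ : B ⊆ J := Finset.filter_subset _ _
    have hBne : B.Nonempty := by
      by_contra hBe
      rw [Finset.not_nonempty_iff_eq_empty] at hBe
      have hall : ∀ i ∈ J, (V i).card < 3 := by
        intro i hi
        by_contra hcon
        push Not at hcon
        have : i ∈ B := Finset.mem_filter.2 ⟨hi, hcon⟩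
        rw [hBe] at this
        exact absurd this (Finset.notMem_empty _)
      obtain ⟨i0, hi0⟩ := hne
      have hV0 : (V i0).Nonempty := Finset.card_pos.1 (by have := h.two_le i0 (hJ hi0); omega)
      obtain ⟨v, hv⟩ := hV0
      have hvX : v ∈ X := Finset.mem_biUnion.2 ⟨i0, hi0, hv⟩
      have hr := hA v hvX (fun i hi _ => hall i hi)
      obtain ⟨Q, hQL, hQ⟩ := h.small v (hXK hvX)
      have hXQ : X ⊆ Q := by
        intro w hw
        obtain ⟨j, hj, hwj⟩ := Finset.mem_biUnion.1 hw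
        obtain ⟨u, hu, hru⟩ := hr j hj
        have hc2 : (V j).card = 2 := by
          have := hall j hj
          have := h.two_le j (hJ hj)
          omega
        apply hQ
        by_cases huw : u = w
        · rw [← huw]; exact hru
        · exact hru.trans (h.adj j (hJ hj) hc2 u hu w hwj huw).reachable
      have hxL : X.card ≤ L := (Finset.card_le_card hXQ).trans hQL
      have hs2 := hsp2 J (Finset.Subset.refl _)
      have : L ≤ L * k := Nat.le_mul_of_pos_right L hk
      omega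
    -- (C)
    have hreach : ∀ v ∈ X, ∃ i ∈ B, ∃ u ∈ V i, G.Reachable v u := by
      intro v hv
      by_contra hcon
      push Not at hcon
      have hr := hA v hv (by
        rintro i hi ⟨u, hu, hru⟩
        by_contra h3
        push Not at h3
        exact hcon i (Finset.mem_filter.2 ⟨hi, h3⟩) u hu hru)
      obtain ⟨i, hi⟩ := hBne
      obtain ⟨u, hu, hru⟩ := hr i (hBJ hi)
      exact hcon i hi u hu hru
    choose! Q hQL hQ using h.small
    have hXsub : X ⊆ B.biUnion (fun i => (V i).biUnion Q) := by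
      intro v hv
      obtain ⟨i, hi, u, hu, hru⟩ := hreach v hv
      refine Finset.mem_biUnion.2 ⟨i, hi, Finset.mem_biUnion.2 ⟨u, hu, ?_⟩⟩
      exact hQ u (h.sub i (hJ (hBJ hi)) hu) v hru.symm
    have hxt : X.card ≤ B.card * (k * L) := by
      refine (Finset.card_le_card hXsub).trans ?_
      refine Finset.card_biUnion_le_card_mul _ _ _ (fun i hi => ?_)
      refine (Finset.card_biUnion_le_card_mul _ _ L (fun u hu => hQL u (h.sub i (hJ (hBJ hi)) hu))).trans ?_
      exact Nat.mul_le_mul_right L (h.le_k i (hJ (hBJ hi)))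
    -- (D)
    have hs2 := hsp2 (J \ B) Finset.sdiff_subset
    have hst : (J \ B).card + B.card = J.card := Finset.card_sdiff_add_card_eq_card hBJ
    -- (E)
    have hE : 2 * J.card + B.card ≤ ∑ i ∈ J, (V i).card := by
      have e1 : ∑ i ∈ J \ B, (V i).card + ∑ i ∈ B, (V i).card = ∑ i ∈ J, (V i).card :=
        Finset.sum_sdiff hBJ
      have e2 := h2e (J \ B) Finset.sdiff_subset
      have e3 : 3 * B.card ≤ ∑ i ∈ B, (V i).card := by
        have := Finset.card_nsmul_le_sum B (fun i => (V i).card) 3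
          (fun i hi => (Finset.mem_filter.1 hi).2)
        simpa [mul_comm] using this
      omega
    have hS := h.sparse J hJ X hsN
    rw [hsum J (Finset.Subset.refl _)] at hS
    set e := ∑ i ∈ J, (V i).card with he
    set s := J.card with hs
    set x := X.card with hx
    set t := B.card with ht
    set s₂ := (J \ B).card with hs₂
    obtain ⟨m, hm⟩ : ∃ m, m = L * k := ⟨_, rfl⟩
    have hkL : k * L = m := by rw [hm]; ring
    rw [hkL] at hxt
    rw [← hm] at hLk hq28 hcase ⊢
    have htpos : 0 < t := Finset.card_pos.2 hBne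
    have hs3 : s ≤ 3 * m * t := by
      have h5 : t * 1 ≤ t * m := Nat.mul_le_mul_left _ hLk
      have h6 : 3 * m * t = t * m + t * m + t * m := by ring
      rw [h6]
      omega
    have ht2 : t ≤ 2 * b := by
      by_contra hcon
      push Not at hcon
      have hcon' : 2 * b + 1 ≤ t := hcon
      have z1 : 2 * (x : ℤ) ≤ b + e := by exact_mod_cast h2x
      have z2 : (q : ℤ) * e ≤ (q + 1) * (s + x) := by exact_mod_cast hS
      have z3 : 2 * (s : ℤ) + t ≤ e := by exact_mod_cast hE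
      have z4 : (s : ℤ) ≤ 3 * m * t := by exact_mod_cast hs3
      have z5 : 28 * (m : ℤ) ≤ q := by exact_mod_cast hq28
      have z6 : (1 : ℤ) ≤ m := by exact_mod_cast hLk
      have z7 : (1 : ℤ) ≤ t := by exact_mod_cast htpos
      have z8 : 2 * (b : ℤ) + 1 ≤ t := by exact_mod_cast hcon'
      clear_value e s x t b
      clear h2x hS hE hs3 hq28 hcon hcon' hxt hs2 hst hsN hcase
      have w1 : ((q : ℤ) + 1) * (2 * x) ≤ (q + 1) * (b + e) :=
        mul_le_mul_of_nonneg_left z1 (by linarith)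
      have w2 : ((q : ℤ) - 1) * (2 * s + t) ≤ (q - 1) * e :=
        mul_le_mul_of_nonneg_left z3 (by linarith)
      have w3 : ((q : ℤ) + 1) * (2 * b + 1) ≤ (q + 1) * t :=
        mul_le_mul_of_nonneg_left z8 (by linarith)
      have w4 : ((q : ℤ) - 1) * t - 4 * s ≤ (q + 1) * b := by linarith
      have w5 : ((24 : ℤ) * m + 3 - q) * t ≤ (-1) * t :=
        mul_le_mul_of_nonneg_right (by linarith) (by linarith)
      have w6 : 2 * (((q : ℤ) - 1) * t - 12 * m * t) ≤ (q + 1) * t - (q + 1) := by linarith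
      linarith
    constructor
    · by_contra hcon
      push Not at hcon
      have h5 : m * t ≤ m * 2 := Nat.mul_le_mul_left _ (by omega)
      have h6 : 3 * m * t = m * t + m * t + m * t := by ring
      have h7 : t * m = m * t := by ring
      rw [h6] at hs3
      rw [h7] at hxt
      omega
    · have h5 : m * t ≤ m * (2 * b) := Nat.mul_le_mul_left _ ht2
      have h6 : 3 * m * t = m * t + m * t + m * t := by ring
      have h7 : m * (2 * b) = m * b + m * b := by ring
      have h8 : 8 * m * b = 8 * (m * b) := by ring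
      rw [h6] at hs3
      rw [h7] at h5
      rw [h8]
      omega

end Pool.Agent.H13.PZ
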