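import Pool.Agent.H13.PZ.Bdc

/-!
# Boundary of all small subsystems

Strong induction on `|J|`. If `J` is connected in the sense of `bdry_connected`, use it. Otherwise
there is a nonempty proper `J₁ ⊆ J` with all `V i`, `i ∈ J₁`, disjoint from all `V j`,
`j ∈ J \ J₁`; use the induction hypothesis for `J₁` and `J \ J₁` and `bdry_add`.
-/

namespace Pool.Agent.H13.PZ

open Finset

theorem bdry_le {n : ℕ} {ι : Type} [DecidableEq ι] {V : ι → Finset (Fin n)}
    {I : Finset ι} {G : SimpleGraph (Fin n)} {K : Finset (Fin n)} {k L q N₀ : ℕ}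
    (h : SpSys V I G K k L q N₀) (hk : 1 ≤ k) (hL : 1 ≤ L) (hq : 28 * L * k ≤ q)
    (J : Finset ι) (hJ : J ⊆ I) (hne : J.Nonempty) (hN : (k + 1) * J.card ≤ N₀) :
    2 ≤ (bdry V J).card ∧ J.card ≤ 8 * L * k * (bdry V J).card := by
  suffices H : ∀ m : ℕ, ∀ J : Finset ι, J.card = m → J ⊆ I → J.Nonempty → (k + 1) * J.card ≤ N₀ →
      2 ≤ (bdry V J).card ∧ J.card ≤ 8 * L * k * (bdry V J).card from H J.card J rfl hJ hne hN
  intro m
  induction m using Nat.strong_induction_on with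
  | _ m ih =>
    intro J hJm hJ hne hN
    by_cases hconn : ∀ J₁ ⊆ J, J₁.Nonempty → J₁ ≠ J →
        ∃ i ∈ J₁, ∃ j ∈ J \ J₁, ¬ Disjoint (V i) (V j)
    · exact bdry_connected h hk hL hq J hJ hne hN hconn
    · push Not at hconn
      obtain ⟨J₁, h1, h1n, h1J, hdis⟩ := hconn
      have hss : J₁ ⊂ J := Finset.ssubset_iff_subset_ne.mpr ⟨h1, h1J⟩
      have hc1 : J₁.card < J.card := Finset.card_lt_card hss
      have h2n : (J \ J₁).Nonempty := Finset.sdiff_nonempty.mpr hss.2
      have hcs : (J \ J₁).card + J₁.card = J.card := Finset.card_sdiff_add_card_eq_card h1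
      have hc1p : 0 < J₁.card := h1n.card_pos
      have hc2 : (J \ J₁).card < J.card := by omega
      have hN1 : (k + 1) * J₁.card ≤ N₀ :=
        le_trans (Nat.mul_le_mul_left _ hc1.le) hN
      have hN2 : (k + 1) * (J \ J₁).card ≤ N₀ :=
        le_trans (Nat.mul_le_mul_left _ hc2.le) hN
      obtain ⟨a1, a2⟩ := ih J₁.card (by omega) J₁ rfl (h1.trans hJ) h1n hN1
      obtain ⟨b1, b2⟩ := ih (J \ J₁).card (by omega) (J \ J₁) rfl
        (Finset.sdiff_subset.trans hJ) h2n hN2
      have hu : J₁ ∪ (J \ J₁) = J := Finset.union_sdiff_of_subset h1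
      have hadd := bdry_add V J₁ (J \ J₁) Finset.disjoint_sdiff hdis
      rw [hu] at hadd
      refine ⟨by omega, ?_⟩
      rw [hadd, Nat.mul_add]
      omega

end Pool.Agent.H13.PZ
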