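import Mathlib

/-!
# Edges of a connected graph that meet a set

`Q` is the component of `v` in `G`, `A ⊆ Q`. Choose the root `r`: an element of `Q \ A` if `A ≠ Q`,
and any element of `Q` (for example `v`) if `A = Q`. For `u ∈ Q`, `u ≠ r`, there is a neighbour
`p u` of `u` with `G.dist r (p u) < G.dist r u` (second last vertex of a shortest walk from `r` to
`u`; all elements of `Q` are reachable from `r`). The pairs `s(u, p u)`, `u ∈ A`, `u ≠ r`, are
distinct: if `s(u, p u) = s(u', p u')` with `u ≠ u'` then `u = p u'` and `u' = p u`, so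
`dist r u = dist r (p u') < dist r u' = dist r (p u) < dist r u`.
-/

namespace Pool.Agent.H13.PZ

open Finset

/-- a vertex reachable from `r` and different from it has a neighbour closer to `r` -/
theorem exists_closer {n : ℕ} (G : SimpleGraph (Fin n)) (r u : Fin n) (h : G.Reachable r u)
    (hne : u ≠ r) : ∃ v, G.Adj u v ∧ G.dist r v < G.dist r u := by
  obtain ⟨p, hp⟩ := h.exists_walk_length_eq_dist
  have hlen : p.length ≠ 0 := by
    intro h0
    exact hne (SimpleGraph.Walk.eq_of_length_eq_zero h0).symm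
  have hq : ¬ p.Nil := fun h0 => hlen (SimpleGraph.Walk.nil_iff_length_eq.1 h0)
  refine ⟨p.penultimate, (p.adj_penultimate hq).symm, ?_⟩
  have h1 : G.dist r p.penultimate ≤ p.dropLast.length := SimpleGraph.dist_le _
  have h2 : p.dropLast.length + 1 = p.length := p.length_dropLast_add_one hq
  omega

theorem exists_parent {n : ℕ} (G : SimpleGraph (Fin n)) (v : Fin n) (Q A : Finset (Fin n))
    (hQ : ∀ u, u ∈ Q ↔ G.Reachable v u) (hA : A ⊆ Q) :
    ∃ (r : Fin n) (p : Fin n → Fin n), r ∈ Q ∧ (A ≠ Q → r ∉ A) ∧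
      (∀ u ∈ A, u ≠ r → G.Adj u (p u)) ∧
      (∀ u ∈ A, u ≠ r → ∀ u' ∈ A, u' ≠ r → s(u, p u) = s(u', p u') → u = u') := by
  classical
  have hr : ∃ r ∈ Q, (A ≠ Q → r ∉ A) := by
    by_cases h : A = Q
    · exact ⟨v, (hQ v).2 (SimpleGraph.Reachable.refl v), fun h' => absurd h h'⟩
    · obtain ⟨r, hr1, hr2⟩ := Finset.exists_of_ssubset (Finset.ssubset_iff_subset_ne.2 ⟨hA, h⟩)
      exact ⟨r, hr1, fun _ => hr2⟩
  obtain ⟨r, hrQ, hrA⟩ := hr
  have hreach : ∀ u ∈ A, G.Reachable r u := fun u hu =>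
    ((hQ r).1 hrQ).symm.trans ((hQ u).1 (hA hu))
  have hp : ∀ u : Fin n, ∃ w : Fin n, u ∈ A → u ≠ r → G.Adj u w ∧ G.dist r w < G.dist r u := by
    intro u
    by_cases h1 : u ∈ A ∧ u ≠ r
    · obtain ⟨w, hw1, hw2⟩ := exists_closer G r u (hreach u h1.1) h1.2
      exact ⟨w, fun _ _ => ⟨hw1, hw2⟩⟩
    · exact ⟨u, fun h2 h3 => absurd ⟨h2, h3⟩ h1⟩
  choose p hp using hp
  refine ⟨r, p, hrQ, hrA, fun u hu hne => (hp u hu hne).1, ?_⟩
  intro u hu hur u' hu' hur' heq
  rw [Sym2.eq_iff] at heq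
  rcases heq with ⟨h1, _⟩ | ⟨h1, h2⟩
  · exact h1
  · exfalso
    have e1 := (hp u hu hur).2
    have e2 := (hp u' hu' hur').2
    rw [h2] at e1
    rw [← h1] at e2
    omega

end Pool.Agent.H13.PZ
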