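import Pool.Agent.H13.PZ.Gd
import Pool.Agent.H13.PZ.Edg

/-!
# Charging lemma

For `A ⊆ U \ core U`: `L |A| ≤ (L + 1) * #{rows that meet A and are disjoint from the core of U}`.

Write `c = core rows L U`. Claim, for all `W` with `c ⊆ W ⊆ U` (induction on the card of `W`):
`L |A ∩ W| ≤ (L + 1) * #{ρ ∈ rows | ρ meets A ∩ W and is disjoint from c}`. For `W = U` this is
the lemma. If `W = c` then `A ∩ W = ∅`. If `W ≠ c` use `not_good`.
* Case 1: `ρ₀ ∩ W = {v}`. Then `v ∉ c` (`ρ₀ ∩ c ⊆ {v}` has not card `1`, so it is empty; in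
  particular `ρ₀` is disjoint from `c`). Put `W' = W.erase v`. `ρ₀` does not meet `W'`. If `v ∉ A`
  then `A ∩ W = A ∩ W'`. If `v ∈ A` then `|A ∩ W| = |A ∩ W'| + 1` and the rows counted for `W`
  contain those counted for `W'` and `ρ₀`, which is not counted for `W'`. Use
  `L + (L + 1) N ≤ (L + 1) (N + 1)`.
* Case 2: `Q` is the component of `v ∈ W` in the pair graph of `W`, `|Q| ≥ L + 1`. `Q ⊆ W` (an edge
  of the pair graph of `W` has both ends in `W`). `Q` is disjoint from `c`: if some `u ∈ Q ∩ c`,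
  then for every edge `ρ ∩ W = {u, u'}` we have `ρ ∩ c ⊆ {u, u'}`, it contains `u` and has not card
  `1`, so `ρ ∩ c = {u, u'}`, i.e. `u' ∈ c` and `u`, `u'` are adjacent in the pair graph of `c`; by
  induction on walks all of `Q` is reachable from `u` in the pair graph of `c`, against the
  smallness of `c` (`core_good`). Put `W' = W \ Q`. Every row `ρ` with `ρ ∩ W = {u, u'} ⊆ Q` is
  disjoint from `c` and from `W'`. Apply `exists_parent` to `A ∩ Q`: every `u ∈ (A ∩ Q).erase r`
  gives a row `ρ_u` with `ρ_u ∩ W = {u, p u}`; these rows are distinct, meet `A ∩ W`, are disjoint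
  from `c` and are not counted for `W'`. So the count for `W` is at least the count for `W'` plus
  `|(A ∩ Q).erase r|`. If `A ∩ Q ≠ Q` this is `|A ∩ Q|`; otherwise it is `|Q| - 1` and
  `(L + 1) (|Q| - 1) ≥ L |Q|` because `|Q| ≥ L + 1`.
-/

namespace Pool.Agent.H13.PZ

open Finset

private theorem chg_step {n : ℕ} {rows : Finset (Finset (Fin n))} {L : ℕ} {U W : Finset (Fin n)}
    (hcW : core rows L U ⊆ W) {a b : Fin n} (ha : a ∈ core rows L U)
    (hab : (pairGraph rows W).Adj a b) :
    b ∈ core rows L U ∧ (pairGraph rows (core rows L U)).Adj a b := by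
  rw [pairGraph_adj] at hab
  obtain ⟨hne, ρ, hρ, hρW⟩ := hab
  have h1 : ρ ∩ core rows L U ⊆ {a, b} := by
    rw [← hρW]; exact inter_subset_inter_left hcW
  have haρ : a ∈ ρ := by
    have : a ∈ ρ ∩ W := by rw [hρW]; simp
    exact (mem_inter.1 this).1
  have hb : b ∈ core rows L U := by
    by_contra hb
    have h2 : ρ ∩ core rows L U = {a} := by
      ext x
      simp only [mem_singleton]
      constructor
      · intro hx
        have := h1 hx
        simp only [mem_insert, mem_singleton] at this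
        rcases this with h | h
        · exact h
        · subst h; exact absurd (mem_inter.1 hx).2 hb
      · rintro rfl; exact mem_inter.2 ⟨haρ, ha⟩
    exact (core_good rows L U).ne_one ρ hρ (by rw [h2]; simp)
  refine ⟨hb, pairGraph_adj.2 ⟨hne, ρ, hρ, ?_⟩⟩
  apply Subset.antisymm h1
  intro x hx
  simp only [mem_insert, mem_singleton] at hx
  have hbρ : b ∈ ρ := by
    have : b ∈ ρ ∩ W := by rw [hρW]; simp
    exact (mem_inter.1 this).1
  rcases hx with rfl | rfl
  · exact mem_inter.2 ⟨haρ, ha⟩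
  · exact mem_inter.2 ⟨hbρ, hb⟩

private theorem chg_reach {n : ℕ} {rows : Finset (Finset (Fin n))} {L : ℕ} {U W : Finset (Fin n)}
    (hcW : core rows L U ⊆ W) {a b : Fin n} (p : (pairGraph rows W).Walk a b)
    (ha : a ∈ core rows L U) :
    (pairGraph rows (core rows L U)).Reachable a b := by
  induction p with
  | nil => exact SimpleGraph.Reachable.refl _
  | cons h p ih =>
    obtain ⟨hb, hadj⟩ := chg_step hcW ha h
    exact hadj.reachable.trans (ih hb)

private theorem chg_mem {n : ℕ} {rows : Finset (Finset (Fin n))} {W : Finset (Fin n)}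
    {a b : Fin n} (p : (pairGraph rows W).Walk a b) (ha : a ∈ W) : b ∈ W := by
  induction p with
  | nil => exact ha
  | cons h p ih =>
    rw [pairGraph_adj] at h
    obtain ⟨hne, ρ, hρ, hρW⟩ := h
    apply ih
    refine (mem_inter.1 (?_ : _ ∈ ρ ∩ W)).2
    rw [hρW]; exact mem_insert_of_mem (mem_singleton_self _)

private theorem chg_main {n : ℕ} {rows : Finset (Finset (Fin n))} {L : ℕ} {U A : Finset (Fin n)} :
    ∀ (k : ℕ) (W : Finset (Fin n)), W.card = k → core rows L U ⊆ W → W ⊆ U →
    (∀ x ∈ A, x ∉ core rows L U) →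
    L * (A ∩ W).card ≤ (L + 1) *
      (rows.filter fun ρ => (ρ ∩ (A ∩ W)).Nonempty ∧ ρ ∩ core rows L U = ∅).card := by
  intro k
  induction k using Nat.strong_induction_on with
  | _ k ih =>
  intro W hWk hcW hWU hA
  by_cases hW : W = core rows L U
  · have : A ∩ W = ∅ := by
      rw [hW]
      ext x
      simp only [mem_inter, notMem_empty, iff_false, not_and]
      exact fun hx => hA x hx
    rw [this]; simp
  rcases not_good hcW hWU hW with ⟨ρ₀, hρ₀, h1⟩ | ⟨v, hvW, Q, hQ, hLQ⟩
  · obtain ⟨v, hv⟩ := card_eq_one.1 h1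
    have hvm : v ∈ ρ₀ ∩ W := by rw [hv]; simp
    have hdis : ρ₀ ∩ core rows L U = ∅ := by
      by_contra hne
      have hsub : ρ₀ ∩ core rows L U ⊆ {v} := by
        rw [← hv]; exact inter_subset_inter_left hcW
      rcases subset_singleton_iff.1 hsub with h | h
      · exact hne h
      · exact (core_good rows L U).ne_one ρ₀ hρ₀ (by rw [h]; simp)
    have hvc : v ∉ core rows L U := by
      intro hvc
      have : v ∈ ρ₀ ∩ core rows L U := mem_inter.2 ⟨(mem_inter.1 hvm).1, hvc⟩
      rw [hdis] at this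
      simp at this
    have hvW := (mem_inter.1 hvm).2
    have hcW' : core rows L U ⊆ W.erase v := fun x hx =>
      mem_erase.2 ⟨fun h => hvc (h ▸ hx), hcW hx⟩
    have hI := ih (W.erase v).card (by rw [← hWk]; exact card_erase_lt_of_mem hvW) (W.erase v) rfl
      hcW' ((erase_subset _ _).trans hWU) hA
    by_cases hvA : v ∈ A
    · have hins : A ∩ W = insert v (A ∩ W.erase v) := by
        ext x
        simp only [mem_inter, mem_insert, mem_erase]
        constructor
        · rintro ⟨ha, hb⟩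
          by_cases hxv : x = v
          · exact Or.inl hxv
          · exact Or.inr ⟨ha, hxv, hb⟩
        · rintro (rfl | ⟨ha, _, hb⟩)
          · exact ⟨hvA, hvW⟩
          · exact ⟨ha, hb⟩
      have hcard : (A ∩ W).card = (A ∩ W.erase v).card + 1 := by
        rw [hins, card_insert_of_notMem]
        simp
      set F' := rows.filter fun ρ => (ρ ∩ (A ∩ W.erase v)).Nonempty ∧ ρ ∩ core rows L U = ∅ with hF'
      have hnot : ρ₀ ∉ F' := by
        rw [hF', mem_filter]
        rintro ⟨_, ⟨x, hx⟩, _⟩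
        simp only [mem_inter, mem_erase] at hx
        have : x ∈ ρ₀ ∩ W := mem_inter.2 ⟨hx.1, hx.2.2.2⟩
        rw [hv, mem_singleton] at this
        exact hx.2.2.1 this
      have hsub : insert ρ₀ F' ⊆
          rows.filter fun ρ => (ρ ∩ (A ∩ W)).Nonempty ∧ ρ ∩ core rows L U = ∅ := by
        intro ρ hρ
        rw [mem_insert] at hρ
        rw [mem_filter]
        rcases hρ with rfl | hρ
        · exact ⟨hρ₀, ⟨v, mem_inter.2 ⟨(mem_inter.1 hvm).1, mem_inter.2 ⟨hvA, hvW⟩⟩⟩, hdis⟩
        · rw [hF', mem_filter] at hρ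
          refine ⟨hρ.1, ?_, hρ.2.2⟩
          obtain ⟨x, hx⟩ := hρ.2.1
          simp only [mem_inter, mem_erase] at hx
          exact ⟨x, mem_inter.2 ⟨hx.1, mem_inter.2 ⟨hx.2.1, hx.2.2.2⟩⟩⟩
      have hle := card_le_card hsub
      rw [card_insert_of_notMem hnot] at hle
      rw [hcard]
      calc L * ((A ∩ W.erase v).card + 1) = L * (A ∩ W.erase v).card + L := by ring
        _ ≤ (L + 1) * F'.card + (L + 1) := by omega
        _ = (L + 1) * (F'.card + 1) := by ring
        _ ≤ _ := Nat.mul_le_mul_left _ hle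
    · have heq : A ∩ W = A ∩ W.erase v := by
        ext x
        simp only [mem_inter, mem_erase]
        constructor
        · rintro ⟨ha, hb⟩
          exact ⟨ha, fun h => hvA (h ▸ ha), hb⟩
        · rintro ⟨ha, _, hb⟩
          exact ⟨ha, hb⟩
      rw [heq]
      exact hI
  · have hQW : Q ⊆ W := by
      intro u hu
      obtain ⟨p⟩ := (hQ u).1 hu
      exact chg_mem p hvW
    have hvQ : v ∈ Q := (hQ v).2 (SimpleGraph.Reachable.refl _)
    have hQc : ∀ u ∈ Q, u ∉ core rows L U := by
      intro u huQ huc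
      obtain ⟨Q', hQ'L, hQ'⟩ := (core_good rows L U).small u huc
      have : Q ⊆ Q' := by
        intro w hw
        apply hQ'
        have hr : (pairGraph rows W).Reachable u w := ((hQ u).1 huQ).symm.trans ((hQ w).1 hw)
        obtain ⟨p⟩ := hr
        exact chg_reach hcW p huc
      have := card_le_card this
      omega
    have hcW' : core rows L U ⊆ W \ Q := fun x hx =>
      mem_sdiff.2 ⟨hcW hx, fun h => hQc x h hx⟩
    have hlt : (W \ Q).card < k := by
      rw [← hWk]
      apply card_lt_card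
      refine ⟨sdiff_subset, fun h => ?_⟩
      exact (mem_sdiff.1 (h hvW)).2 hvQ
    have hI := ih (W \ Q).card hlt (W \ Q) rfl hcW' (sdiff_subset.trans hWU) hA
    obtain ⟨r, p, hrQ, hrA, hadj, hinj⟩ :=
      exists_parent (pairGraph rows W) v Q (A ∩ Q) hQ inter_subset_right
    have hex : ∀ u, ∃ ρ : Finset (Fin n), u ∈ A ∩ Q → u ≠ r → ρ ∈ rows ∧ ρ ∩ W = {u, p u} := by
      intro u
      by_cases hu : u ∈ A ∩ Q ∧ u ≠ r
      · obtain ⟨_, ρ, hρ, hρW⟩ := pairGraph_adj.1 (hadj u hu.1 hu.2)
        exact ⟨ρ, fun _ _ => ⟨hρ, hρW⟩⟩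
      · exact ⟨∅, fun h1 h2 => absurd ⟨h1, h2⟩ hu⟩
    choose R hR using hex
    set T := (A ∩ Q).erase r with hT
    have hRT : ∀ u ∈ T, R u ∈ rows ∧ R u ∩ W = {u, p u} := fun u hu =>
      hR u (mem_erase.1 hu).2 (mem_erase.1 hu).1
    have hinjR : Set.InjOn R T := by
      intro u hu u' hu' h
      have h1 := hRT u hu
      have h2 := hRT u' hu'
      have h3 : ({u, p u} : Finset (Fin n)) = {u', p u'} := by
        rw [← h1.2, ← h2.2, h]
      refine hinj u (mem_erase.1 hu).2 (mem_erase.1 hu).1 u' (mem_erase.1 hu').2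
        (mem_erase.1 hu').1 ?_
      rw [Sym2.eq_iff]
      have h4 : (({u, p u} : Finset (Fin n)) : Set (Fin n)) = (({u', p u'} : Finset (Fin n)) :
        Set (Fin n)) := by rw [h3]
      push_cast at h4
      exact Set.pair_eq_pair_iff.1 h4
    set F' := rows.filter fun ρ => (ρ ∩ (A ∩ (W \ Q))).Nonempty ∧ ρ ∩ core rows L U = ∅ with hF'
    have hpQ : ∀ u ∈ T, p u ∈ Q := by
      intro u hu
      have hu2 := (mem_erase.1 hu).2
      rw [hQ]
      exact ((hQ u).1 (mem_inter.1 hu2).2).trans (hadj u hu2 (mem_erase.1 hu).1).reachable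
    have hdisj : Disjoint F' (T.image R) := by
      rw [disjoint_left]
      intro ρ hρ hρ'
      obtain ⟨u, hu, rfl⟩ := mem_image.1 hρ'
      rw [hF', mem_filter] at hρ
      obtain ⟨x, hx⟩ := hρ.2.1
      simp only [mem_inter, mem_sdiff] at hx
      have h1 : x ∈ R u ∩ W := mem_inter.2 ⟨hx.1, hx.2.2.1⟩
      rw [(hRT u hu).2] at h1
      simp only [mem_insert, mem_singleton] at h1
      rcases h1 with rfl | rfl
      · exact hx.2.2.2 (mem_inter.1 (mem_erase.1 hu).2).2
      · exact hx.2.2.2 (hpQ u hu)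
    have hsub : F' ∪ T.image R ⊆
        rows.filter fun ρ => (ρ ∩ (A ∩ W)).Nonempty ∧ ρ ∩ core rows L U = ∅ := by
      intro ρ hρ
      rw [mem_union] at hρ
      rw [mem_filter]
      rcases hρ with hρ | hρ
      · rw [hF', mem_filter] at hρ
        refine ⟨hρ.1, ?_, hρ.2.2⟩
        obtain ⟨x, hx⟩ := hρ.2.1
        simp only [mem_inter, mem_sdiff] at hx
        exact ⟨x, mem_inter.2 ⟨hx.1, mem_inter.2 ⟨hx.2.1, hx.2.2.1⟩⟩⟩
      · obtain ⟨u, hu, rfl⟩ := mem_image.1 hρ
        have huA := (mem_erase.1 hu).2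
        have huW : u ∈ R u ∩ W := by rw [(hRT u hu).2]; simp
        refine ⟨(hRT u hu).1, ⟨u, mem_inter.2 ⟨(mem_inter.1 huW).1,
          mem_inter.2 ⟨(mem_inter.1 huA).1, (mem_inter.1 huW).2⟩⟩⟩, ?_⟩
        ext x
        simp only [mem_inter, notMem_empty, iff_false, not_and]
        intro hx hxc
        have h1 : x ∈ R u ∩ W := mem_inter.2 ⟨hx, hcW hxc⟩
        rw [(hRT u hu).2] at h1
        simp only [mem_insert, mem_singleton] at h1
        rcases h1 with rfl | rfl
        · exact hQc x (mem_inter.1 huA).2 hxc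
        · exact hQc _ (hpQ u hu) hxc
    have hle := card_le_card hsub
    rw [card_union_of_disjoint hdisj, card_image_of_injOn hinjR] at hle
    have hcard : (A ∩ W).card = (A ∩ (W \ Q)).card + (A ∩ Q).card := by
      rw [← card_union_of_disjoint]
      · congr 1
        ext x
        simp only [mem_inter, mem_union, mem_sdiff]
        constructor
        · rintro ⟨ha, hb⟩
          by_cases hx : x ∈ Q
          · exact Or.inr ⟨ha, hx⟩
          · exact Or.inl ⟨ha, hb, hx⟩
        · rintro (⟨ha, hb, _⟩ | ⟨ha, hb⟩)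
          · exact ⟨ha, hb⟩
          · exact ⟨ha, hQW hb⟩
      · rw [disjoint_left]
        intro x hx hx'
        exact (mem_sdiff.1 (mem_inter.1 hx).2).2 (mem_inter.1 hx').2
    have hkey : L * (A ∩ Q).card ≤ (L + 1) * T.card := by
      by_cases hAQ : A ∩ Q = Q
      · have hTc : T.card + 1 = Q.card := by
          rw [hT, hAQ]
          exact card_erase_add_one hrQ
        rw [hAQ]
        nlinarith
      · have : T = A ∩ Q := by
          rw [hT]
          exact erase_eq_of_notMem (hrA hAQ)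
        rw [this]
        nlinarith
    rw [hcard]
    calc L * ((A ∩ (W \ Q)).card + (A ∩ Q).card)
        = L * (A ∩ (W \ Q)).card + L * (A ∩ Q).card := by ring
      _ ≤ (L + 1) * F'.card + (L + 1) * T.card := by omega
      _ = (L + 1) * (F'.card + T.card) := by ring
      _ ≤ _ := Nat.mul_le_mul_left _ hle

theorem charge {n : ℕ} {rows : Finset (Finset (Fin n))} {L : ℕ} {U A : Finset (Fin n)}
    (hA : A ⊆ U \ core rows L U) :
    L * A.card ≤ (L + 1) *
      (rows.filter fun ρ => (ρ ∩ A).Nonempty ∧ ρ ∩ core rows L U = ∅).card := by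
  have h := chg_main (rows := rows) (L := L) (U := U) (A := A) U.card U rfl (core_subset rows L U)
    (Subset.refl _) (fun x hx => (mem_sdiff.1 (hA hx)).2)
  have h2 : A ∩ U = A := inter_eq_left.2 fun x hx => (mem_sdiff.1 (hA hx)).1
  rw [h2] at h
  exact h

end Pool.Agent.H13.PZ
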