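import Pool.Agent.H13.PZ.For

/-!
# Success probability of solvers

`F` is satisfied only by the constant `true`. `c` assigns to every set `U` of variables a set `c U`,
and if exactly the variables of `U` have no value and the others are true, then no value of an
`x ∈ c U`, `x ∈ U`, can be inferred. `badCount c l ≤ D` for every list `l` without repetitions.
Let `s 0 = none`, `s (i + 1) = update (s i) (next (s i)) (some true)`, `x i = next (s i)`, and `U i`
the set of `v` with `s i v = none`. Then for `i ≤ n`: `|U i| = n - i` and
`s i = fun v => if v ∈ U i then none else some true`; for `i < n`, `x i ∈ U i` (`next_none`, `U i` is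
nonempty) and `U (i + 1) = (U i).erase (x i)`. For the list `l = [x 0, ..., x (n - 1)]` (no
repetitions) the set of the entries from the `i`-th on is `U i`. Let `G` be the set of `x i` with
`infer (s i) = none`. If `x i ∈ c (U i)` then `infer (s i) = none` (`infer_sound` and the
hypothesis), so the number of `i` with `infer (s i) ≠ none` is at most `badCount c l ≤ D`, i.e.
`n ≤ |G| + D`.
Let `y` be such that `out y` satisfies `F`; then `out y` is constantly `true`. In `run y` the number
of variables without value after `i ≤ n` steps is `n - i`, so for `i < n` the next variable has no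
value yet, and a value once given is never changed. By induction `run y i = s i` for `i ≤ n`: if
`run y i = s i`, the value given to `x i` is its final value, which is `out y (x i) = true` (the
final value exists, it is `some true` as `getD false = true`); if moreover `infer (s i) = none` then
this value is `y (x i)`. So `y v = true` for all `v ∈ G`. There are `2 ^ (n - |G|) ≤ 2 ^ D` such `y`.
-/

namespace Pool.Agent.H13.PZ

open Finset

/-- the variables without value -/
def Cnt_U {n : ℕ} (σ : ℕ → PAss n) (i : ℕ) : Finset (Fin n) := univ.filter fun v => σ i v = none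

theorem Cnt_mem_U {n : ℕ} {σ : ℕ → PAss n} {i : ℕ} {v : Fin n} : v ∈ Cnt_U σ i ↔ σ i v = none := by
  unfold Cnt_U
  rw [Finset.mem_filter]
  exact ⟨fun h => h.2, fun h => ⟨Finset.mem_univ _, h⟩⟩

section
variable {n w : ℕ} {F : CNF n} (S : Solver F w) {σ : ℕ → PAss n} {b : ℕ → Bool}
  (h0 : σ 0 = fun _ => none)
  (h1 : ∀ i, σ (i + 1) = Function.update (σ i) (S.next (σ i)) (some (b i)))

include h1 in
theorem Cnt_erase (i : ℕ) : Cnt_U σ (i + 1) = (Cnt_U σ i).erase (S.next (σ i)) := by
  ext v
  rw [Finset.mem_erase, Cnt_mem_U, Cnt_mem_U, h1, Function.update_apply]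
  by_cases hv : v = S.next (σ i)
  · rw [if_pos hv]
    simp [hv]
  · rw [if_neg hv]
    simp [hv]

include h0 h1 in
theorem Cnt_card (i : ℕ) (hi : i ≤ n) : (Cnt_U σ i).card = n - i ∧
    (i < n → S.next (σ i) ∈ Cnt_U σ i) := by
  have step : ∀ i, (Cnt_U σ i).card = n - i → (i < n → S.next (σ i) ∈ Cnt_U σ i) := by
    intro i hc hlt
    have hpos : 0 < (Cnt_U σ i).card := by omega
    obtain ⟨v, hv⟩ := Finset.card_pos.1 hpos
    rw [Cnt_mem_U] at hv ⊢
    exact S.next_none (σ i) ⟨v, hv⟩
  induction i with
  | zero =>
    have hc : (Cnt_U σ 0).card = n - 0 := by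
      have : Cnt_U σ 0 = Finset.univ := by
        ext v
        rw [Cnt_mem_U, h0]
        simp
      rw [this, Finset.card_univ, Fintype.card_fin, Nat.sub_zero]
    exact ⟨hc, step 0 hc⟩
  | succ i ih =>
    obtain ⟨i1, i2⟩ := ih (by omega)
    have hc : (Cnt_U σ (i + 1)).card = n - (i + 1) := by
      rw [Cnt_erase S h1, Finset.card_erase_of_mem (i2 (by omega)), i1]
      omega
    exact ⟨hc, step _ hc⟩

include h1 in
theorem Cnt_anti {i j : ℕ} (hij : i ≤ j) : Cnt_U σ j ⊆ Cnt_U σ i := by
  induction hij with
  | refl => exact Finset.Subset.refl _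
  | step _ ih =>
    rw [Nat.succ_eq_add_one, Cnt_erase S h1]
    exact (Finset.erase_subset _ _).trans ih

include h0 h1 in
theorem Cnt_persist {i : ℕ} {v : Fin n} {c : Bool} (hv : σ i v = some c) (j : ℕ) (hj : i + j ≤ n) :
    σ (i + j) v = some c := by
  induction j with
  | zero => exact hv
  | succ j ih =>
    have h2 := ih (by omega)
    have h3 := (Cnt_card S h0 h1 (i + j) (by omega)).2 (by omega)
    rw [Cnt_mem_U] at h3
    rw [← add_assoc, h1, Function.update_apply, if_neg, h2]
    intro h4
    rw [← h4, h2] at h3
    exact absurd h3 (by simp)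

end

/-- the list of the last variables -/
def Cnt_L {n : ℕ} (x : ℕ → Fin n) : ℕ → List (Fin n)
  | 0 => []
  | j + 1 => x (n - (j + 1)) :: Cnt_L x j

theorem success_le {n w D : ℕ} {F : CNF n} (S : Solver F w)
    (c : Finset (Fin n) → Finset (Fin n)) (hF : ∀ a, Sat F a → a = fun _ => true)
    (hD : ∀ l : List (Fin n), l.Nodup → badCount c l ≤ D)
    (hI : ∀ U : Finset (Fin n), ∀ x ∈ c U, x ∈ U → ∀ b,
      ¬ Infer F (fun v => if v ∈ U then none else some true) w x b) :
    S.success ≤ (2 : ℝ) ^ D / 2 ^ n := by
  classical
  -- the sequence
  set s : ℕ → PAss n := fun i => Nat.rec (fun _ => none)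
    (fun _ α => Function.update α (S.next α) (some true)) i with hs
  have s0 : s 0 = fun _ => none := rfl
  have s1 : ∀ i, s (i + 1) = Function.update (s i) (S.next (s i)) (some ((fun _ => true) i)) := fun i => rfl
  set x : ℕ → Fin n := fun i => S.next (s i) with hx
  have hcard := fun i hi => (Cnt_card S s0 s1 i hi).1
  have hmem := fun i hi => (Cnt_card S s0 s1 i (le_of_lt hi)).2 hi
  have hval : ∀ i v, s i v = none ∨ s i v = some true := by
    intro i
    induction i with
    | zero => intro v; exact Or.inl rfl
    | succ i ih =>
      intro v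
      rw [s1, Function.update_apply]
      by_cases hv : v = S.next (s i)
      · rw [if_pos hv]; exact Or.inr rfl
      · rw [if_neg hv]; exact ih v
  have hform : ∀ i, s i = fun v => if v ∈ Cnt_U s i then none else some true := by
    intro i
    funext v
    by_cases hv : v ∈ Cnt_U s i
    · rw [if_pos hv]
      exact Cnt_mem_U.1 hv
    · rw [if_neg hv]
      rcases hval i v with h | h
      · exact absurd (Cnt_mem_U.2 h) hv
      · exact h
  have hinj : ∀ i j, i < j → j < n → x i ≠ x j := by
    intro i j hij hj h
    have h2 := Cnt_anti S s1 (Nat.succ_le_of_lt hij) (hmem j hj)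
    rw [Nat.succ_eq_add_one, Cnt_erase S s1, Finset.mem_erase] at h2
    exact h2.1 h.symm
  -- the list
  have hL : ∀ j, j ≤ n → (Cnt_L x j).toFinset = Cnt_U s (n - j) ∧ (Cnt_L x j).Nodup := by
    intro j
    induction j with
    | zero =>
      intro _
      refine ⟨?_, List.nodup_nil⟩
      have h3 := hcard n le_rfl
      rw [Nat.sub_self, Finset.card_eq_zero] at h3
      rw [Nat.sub_zero, h3]
      rfl
    | succ j ih =>
      intro hj
      obtain ⟨i1, i2⟩ := ih (by omega)
      have e : n - j = n - (j + 1) + 1 := by omega
      have h4 := Cnt_erase S s1 (n - (j + 1))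
      rw [← e] at h4
      have h5 := hmem (n - (j + 1)) (by omega)
      constructor
      · change (x (n - (j + 1)) :: Cnt_L x j).toFinset = _
        rw [List.toFinset_cons, i1, h4]
        exact Finset.insert_erase h5
      · change (x (n - (j + 1)) :: Cnt_L x j).Nodup
        rw [List.nodup_cons]
        refine ⟨?_, i2⟩
        rw [← List.mem_toFinset, i1, h4]
        exact Finset.notMem_erase _ _
  -- the number of inferred values
  have hbad : ∀ j, j ≤ n → ((Finset.range n).filter (fun i => n - j ≤ i ∧ S.infer (s i) ≠ none)).card ≤
      badCount c (Cnt_L x j) := by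
    intro j
    induction j with
    | zero =>
      intro _
      have : (Finset.range n).filter (fun i => n - 0 ≤ i ∧ S.infer (s i) ≠ none) = ∅ := by
        rw [Finset.filter_eq_empty_iff]
        intro i hi h
        rw [Finset.mem_range] at hi
        omega
      rw [this]
      exact Nat.zero_le _
    | succ j ih =>
      intro hj
      have ih' := ih (by omega)
      change _ ≤ badCount c (Cnt_L x j) + if x (n - (j + 1)) ∈ c (x (n - (j + 1)) :: Cnt_L x j).toFinset then 0 else 1
      have hT : (x (n - (j + 1)) :: Cnt_L x j).toFinset = Cnt_U s (n - (j + 1)) := (hL (j + 1) hj).1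
      rw [hT]
      have hsub : (Finset.range n).filter (fun i => n - (j + 1) ≤ i ∧ S.infer (s i) ≠ none) ⊆
          (Finset.range n).filter (fun i => n - j ≤ i ∧ S.infer (s i) ≠ none) ∪
          (if S.infer (s (n - (j + 1))) ≠ none then {n - (j + 1)} else ∅) := by
        intro i hi
        rw [Finset.mem_filter] at hi
        rw [Finset.mem_union]
        by_cases h6 : n - j ≤ i
        · left
          rw [Finset.mem_filter]
          exact ⟨hi.1, h6, hi.2.2⟩
        · right
          have h7 : i = n - (j + 1) := by omega
          rw [← h7, if_pos hi.2.2]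
          exact Finset.mem_singleton_self _
      refine (Finset.card_le_card hsub).trans ((Finset.card_union_le _ _).trans (add_le_add ih' ?_))
      by_cases h8 : S.infer (s (n - (j + 1))) ≠ none
      · rw [if_pos h8, Finset.card_singleton]
        rw [if_neg]
        intro h9
        obtain ⟨b, hb⟩ := Option.ne_none_iff_exists'.1 h8
        have h10 := S.infer_sound _ _ hb
        rw [hform (n - (j + 1))] at h10
        refine hI (Cnt_U s (n - (j + 1))) (x (n - (j + 1))) h9 (hmem _ (by omega)) b ?_
        have h11 : S.next (fun v => if v ∈ Cnt_U s (n - (j + 1)) then none else some true) = x (n - (j + 1)) := by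
          rw [← hform]
        rw [h11] at h10
        exact h10
      · rw [if_neg h8, Finset.card_empty]
        exact Nat.zero_le _
  have hbadn := (hbad n le_rfl).trans (hD _ (hL n le_rfl).2)
  set G : Finset (Fin n) := ((Finset.range n).filter (fun i => S.infer (s i) = none)).image x with hG
  have hGcard : n ≤ G.card + D := by
    have e1 : G.card = ((Finset.range n).filter (fun i => S.infer (s i) = none)).card := by
      rw [hG]
      apply Finset.card_image_of_injOn
      intro i hi j hj hij
      rw [Finset.mem_coe, Finset.mem_filter, Finset.mem_range] at hi hj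
      by_contra hne
      rcases Nat.lt_or_gt_of_ne hne with h | h
      · exact hinj i j h hj.1 hij
      · exact hinj j i h hi.1 hij.symm
    have e2 := Finset.card_filter_add_card_filter_not (s := Finset.range n) (fun i => S.infer (s i) = none)
    rw [Finset.card_range] at e2
    have e3 : ((Finset.range n).filter (fun i => ¬ S.infer (s i) = none)).card ≤ D := by
      refine le_trans (le_of_eq ?_) hbadn
      congr 1
      apply Finset.filter_congr
      intro i _
      rw [Nat.sub_self]
      simp
    omega
  -- the successful random strings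
  have hy : ∀ y : Fin n → Bool, Sat F (S.out y) → ∀ v ∈ G, y v = true := by
    intro y hsat
    have hout := hF _ hsat
    have r0 : S.run y 0 = fun _ => none := rfl
    have r1 : ∀ i, S.run y (i + 1) = Function.update (S.run y i) (S.next (S.run y i))
      (some ((fun i => (S.infer (S.run y i)).getD (y (S.next (S.run y i)))) i)) := fun i => rfl
    have hb : ∀ i, i < n → (S.infer (S.run y i)).getD (y (S.next (S.run y i))) = true := by
      intro i hi
      have h2 : S.run y (i + 1) (S.next (S.run y i)) =
          some ((S.infer (S.run y i)).getD (y (S.next (S.run y i)))) := by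
        rw [r1, Function.update_self]
      have h3 := Cnt_persist S r0 r1 h2 (n - (i + 1)) (by omega)
      have h4 : i + 1 + (n - (i + 1)) = n := by omega
      rw [h4] at h3
      have h5 := congrFun hout (S.next (S.run y i))
      unfold Solver.out at h5
      rw [h3] at h5
      exact h5
    have hrun : ∀ i, i ≤ n → S.run y i = s i := by
      intro i
      induction i with
      | zero => intro _; rfl
      | succ i ih =>
        intro hi
        have h2 := ih (by omega)
        have h3 := hb i (by omega)
        rw [r1, s1]
        simp only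
        rw [h3, h2]
    intro v hv
    rw [hG, Finset.mem_image] at hv
    obtain ⟨i, hi, rfl⟩ := hv
    rw [Finset.mem_filter, Finset.mem_range] at hi
    have h2 := hb i hi.1
    rw [hrun i hi.1.le, hi.2] at h2
    exact h2
  have hcount : Nat.card {y : Fin n → Bool // Sat F (S.out y)} ≤ 2 ^ D := by
    have h2 : Nat.card {y : Fin n → Bool // Sat F (S.out y)} ≤ Nat.card {y : Fin n → Bool // ∀ v ∈ G, y v = true} := by
      refine Nat.card_le_card_of_injective (fun y => ⟨y.1, hy y.1 y.2⟩) ?_
      intro y y' h
      simp only [Subtype.mk.injEq] at h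
      exact Subtype.ext h
    refine h2.trans ?_
    have h3 : Nat.card {y : Fin n → Bool // ∀ v ∈ G, y v = true} ≤ Nat.card ({v : Fin n // v ∉ G} → Bool) := by
      refine Nat.card_le_card_of_injective (fun y => fun v => y.1 v.1) ?_
      intro y y' h
      apply Subtype.ext
      funext v
      by_cases hv : v ∈ G
      · rw [y.2 v hv, y'.2 v hv]
      · exact congrFun h ⟨v, hv⟩
    refine h3.trans ?_
    rw [Nat.card_fun, Nat.card_eq_fintype_card, Nat.card_eq_fintype_card, Fintype.card_bool,
      Fintype.card_subtype_compl, Fintype.card_fin, Fintype.card_coe]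
    exact Nat.pow_le_pow_right (by norm_num) (by omega)
  unfold Solver.success
  refine div_le_div_of_nonneg_right ?_ (by positivity)
  exact_mod_cast hcount

end Pool.Agent.H13.PZ
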