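import Pool.Agent.H13.PZ.PrA

/-!
# Random triples hit every large set

Let `ζ ^ 3 * M ≥ n + 2`, `0 < ζ ≤ 1`. For a set `Z` of `z ≥ ζ n` variables the number of
`h : Fin M × Fin 3 → Fin n` such that for no `b : Fin M` all `h (b, j)` lie in `Z` is
`(n ^ 3 - z ^ 3) ^ M` (curry: every `b` chooses one of the `n ^ 3 - z ^ 3` triples not in `Z ^ 3`),
a fraction of at most `(1 - ζ ^ 3) ^ M ≤ exp (- ζ ^ 3 * M) ≤ exp (- (n + 2))` of all `h`. There are
`2 ^ n` sets `Z`, and `2 ^ n * exp (- n) * exp (- 2) ≤ exp (- 2) ≤ 1 / 6` (`2 ≤ exp 1`,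
`exp 2 ≥ 6` from `Real.exp_one_gt_d9`). The first component `f` is free.
-/

namespace Pool.Agent.H13.PZ

open Finset

theorem frac_hit_card {n M : ℕ} (Z : Finset (Fin n)) :
    ((univ : Finset (Fin M × Fin 3 → Fin n)).filter
      fun h => ∀ b, ∃ j, h (b, j) ∉ Z).card = (n ^ 3 - Z.card ^ 3) ^ M := by
  classical
  have h1 : ((univ : Finset (Fin 3 → Fin n)).filter fun g => ∃ j, g j ∉ Z).card =
      n ^ 3 - Z.card ^ 3 := by
    have h2 : ((univ : Finset (Fin 3 → Fin n)).filter fun g => ∃ j, g j ∉ Z) =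
        (Fintype.piFinset fun _ : Fin 3 => Z)ᶜ := by
      ext g
      simp [Fintype.mem_piFinset]
    rw [h2, card_compl, Fintype.card_piFinset_const]
    simp
  rw [← h1]
  have h3 : (Fintype.piFinset fun _ : Fin M =>
      ((univ : Finset (Fin 3 → Fin n)).filter fun g => ∃ j, g j ∉ Z)).card =
      ((univ : Finset (Fin 3 → Fin n)).filter fun g => ∃ j, g j ∉ Z).card ^ M := by
    rw [Fintype.card_piFinset_const]
  rw [← h3]
  refine card_bij (fun h _ => Function.curry h) ?_ ?_ ?_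
  · intro h hh
    simpa [Fintype.mem_piFinset, Function.curry] using hh
  · intro a _ b _ hab
    have := congrArg Function.uncurry hab
    simpa using this
  · intro g hg
    refine ⟨Function.uncurry g, ?_, ?_⟩
    · simpa [Fintype.mem_piFinset, Function.uncurry] using hg
    · simp

theorem frac_hit_one {n M : ℕ} {ζ : ℝ} (hζ : 0 < ζ) (hn : 0 < n)
    (hM : (n : ℝ) + 2 ≤ ζ ^ 3 * M) (Z : Finset (Fin n)) (hZ : ζ * n ≤ Z.card) :
    (((n ^ 3 - Z.card ^ 3) ^ M : ℕ) : ℝ) ≤ Real.exp (-((n : ℝ) + 2)) * ((n : ℝ) ^ (M * 3)) := by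
  have hn' : (0 : ℝ) < n := by exact_mod_cast hn
  have hzn : Z.card ≤ n := by simpa using card_le_univ Z
  have hz3 : Z.card ^ 3 ≤ n ^ 3 := Nat.pow_le_pow_left hzn 3
  have h0 : (((n ^ 3 - Z.card ^ 3 : ℕ)) : ℝ) = (n : ℝ) ^ 3 - (Z.card : ℝ) ^ 3 := by
    rw [Nat.cast_sub hz3]; push_cast; ring
  have h1 : (ζ * n) ^ 3 ≤ (Z.card : ℝ) ^ 3 := pow_le_pow_left₀ (by positivity) hZ 3
  have h2 : (n : ℝ) ^ 3 - (Z.card : ℝ) ^ 3 ≤ (n : ℝ) ^ 3 * Real.exp (-(ζ ^ 3)) := by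
    have h3 : 1 - ζ ^ 3 ≤ Real.exp (-(ζ ^ 3)) := by
      have := Real.add_one_le_exp (-(ζ ^ 3))
      linarith
    have h4 : (n : ℝ) ^ 3 * (1 - ζ ^ 3) ≤ (n : ℝ) ^ 3 * Real.exp (-(ζ ^ 3)) :=
      mul_le_mul_of_nonneg_left h3 (by positivity)
    have h5 : (ζ * n) ^ 3 = (n : ℝ) ^ 3 * ζ ^ 3 := by ring
    nlinarith
  have h3 : (0 : ℝ) ≤ (n : ℝ) ^ 3 - (Z.card : ℝ) ^ 3 := by
    rw [← h0]; positivity
  calc (((n ^ 3 - Z.card ^ 3) ^ M : ℕ) : ℝ) = ((n : ℝ) ^ 3 - (Z.card : ℝ) ^ 3) ^ M := by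
        rw [Nat.cast_pow, h0]
    _ ≤ ((n : ℝ) ^ 3 * Real.exp (-(ζ ^ 3))) ^ M := pow_le_pow_left₀ h3 h2 M
    _ = Real.exp (-(ζ ^ 3 * M)) * ((n : ℝ) ^ (M * 3)) := by
        rw [mul_pow, ← Real.exp_nat_mul, ← pow_mul]
        rw [show (M : ℝ) * -(ζ ^ 3) = -(ζ ^ 3 * M) by ring, show 3 * M = M * 3 by ring]
        ring
    _ ≤ Real.exp (-((n : ℝ) + 2)) * ((n : ℝ) ^ (M * 3)) := by
        apply mul_le_mul_of_nonneg_right _ (by positivity)
        apply Real.exp_le_exp.mpr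
        linarith

theorem frac_hit {n r M : ℕ} {ζ : ℝ} (hζ : 0 < ζ) (hζ1 : ζ ≤ 1) (hn : 0 < n)
    (hM : (n : ℝ) + 2 ≤ ζ ^ 3 * M) :
    (((univ : Finset ((Fin n × Fin 3 → Fin r) × (Fin M × Fin 3 → Fin n))).filter
      fun ω => ∃ Z : Finset (Fin n), ζ * n ≤ Z.card ∧ ∀ b, ∃ j, ω.2 (b, j) ∉ Z).card : ℝ) ≤
      1 / 6 * (Fintype.card ((Fin n × Fin 3 → Fin r) × (Fin M × Fin 3 → Fin n)) : ℝ) := by
  classical
  have hn' : (0 : ℝ) < n := by exact_mod_cast hn
  -- split off the first component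
  have hsplit : ((univ : Finset ((Fin n × Fin 3 → Fin r) × (Fin M × Fin 3 → Fin n))).filter
      fun ω => ∃ Z : Finset (Fin n), ζ * n ≤ Z.card ∧ ∀ b, ∃ j, ω.2 (b, j) ∉ Z) =
      (univ : Finset (Fin n × Fin 3 → Fin r)) ×ˢ
        ((univ : Finset (Fin M × Fin 3 → Fin n)).filter
          fun h => ∃ Z : Finset (Fin n), ζ * n ≤ Z.card ∧ ∀ b, ∃ j, h (b, j) ∉ Z) := by
    ext ω
    simp
  rw [hsplit, card_product, Fintype.card_prod]
  push_cast
  have hU : (((univ : Finset (Fin M × Fin 3 → Fin n)).filter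
          fun h => ∃ Z : Finset (Fin n), ζ * n ≤ Z.card ∧ ∀ b, ∃ j, h (b, j) ∉ Z).card : ℝ) ≤
      1 / 6 * (Fintype.card (Fin M × Fin 3 → Fin n) : ℝ) := by
    have hsub : ((univ : Finset (Fin M × Fin 3 → Fin n)).filter
          fun h => ∃ Z : Finset (Fin n), ζ * n ≤ Z.card ∧ ∀ b, ∃ j, h (b, j) ∉ Z) ⊆
        ((univ : Finset (Finset (Fin n))).filter fun Z => ζ * n ≤ Z.card).biUnion fun Z =>
          (univ : Finset (Fin M × Fin 3 → Fin n)).filter fun h => ∀ b, ∃ j, h (b, j) ∉ Z := by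
      intro h hh
      simp only [mem_filter, mem_univ, true_and, mem_biUnion] at hh ⊢
      exact hh
    have h1 : (((univ : Finset (Fin M × Fin 3 → Fin n)).filter
          fun h => ∃ Z : Finset (Fin n), ζ * n ≤ Z.card ∧ ∀ b, ∃ j, h (b, j) ∉ Z).card : ℝ) ≤
        ∑ Z ∈ (univ : Finset (Finset (Fin n))).filter fun Z => ζ * n ≤ Z.card,
          Real.exp (-((n : ℝ) + 2)) * ((n : ℝ) ^ (M * 3)) := by
      refine (Nat.cast_le.mpr ((card_le_card hsub).trans card_biUnion_le)).trans ?_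
      rw [Nat.cast_sum]
      refine sum_le_sum fun Z hZ => ?_
      rw [frac_hit_card]
      exact frac_hit_one hζ hn hM Z (by simpa using hZ)
    refine h1.trans ?_
    rw [sum_const, nsmul_eq_mul]
    have h2 : ((((univ : Finset (Finset (Fin n))).filter fun Z => ζ * n ≤ Z.card).card : ℕ) : ℝ) ≤
        (2 : ℝ) ^ n := by
      have : ((univ : Finset (Finset (Fin n))).filter fun Z => ζ * n ≤ Z.card).card ≤ 2 ^ n := by
        refine (card_filter_le _ _).trans ?_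
        simp
      exact_mod_cast this
    have h3 : (Fintype.card (Fin M × Fin 3 → Fin n) : ℝ) = (n : ℝ) ^ (M * 3) := by
      simp
    rw [h3]
    have h4 : (2 : ℝ) ^ n ≤ Real.exp n := by
      have : (2 : ℝ) ≤ Real.exp 1 := by
        have := Real.exp_one_gt_d9
        linarith
      calc (2 : ℝ) ^ n ≤ (Real.exp 1) ^ n := pow_le_pow_left₀ (by norm_num) this n
        _ = Real.exp n := by rw [← Real.exp_nat_mul]; simp
    have h5 : Real.exp (-2) ≤ 1 / 6 := by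
      have h6 : (6 : ℝ) ≤ Real.exp 2 := by
        have h7 := Real.exp_one_gt_d9
        have h8 : Real.exp 2 = Real.exp 1 * Real.exp 1 := by
          rw [← Real.exp_add]; norm_num
        rw [h8]
        nlinarith
      rw [Real.exp_neg, one_div]
      exact inv_anti₀ (by norm_num) h6
    have h9 : ((((univ : Finset (Finset (Fin n))).filter fun Z => ζ * n ≤ Z.card).card : ℕ) : ℝ) *
        Real.exp (-((n : ℝ) + 2)) ≤ 1 / 6 := by
      calc ((((univ : Finset (Finset (Fin n))).filter fun Z => ζ * n ≤ Z.card).card : ℕ) : ℝ) *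
          Real.exp (-((n : ℝ) + 2)) ≤ Real.exp n * Real.exp (-((n : ℝ) + 2)) :=
            mul_le_mul_of_nonneg_right (h2.trans h4) (Real.exp_pos _).le
        _ = Real.exp (-2) := by rw [← Real.exp_add]; ring_nf
        _ ≤ 1 / 6 := h5
    calc _ = (((((univ : Finset (Finset (Fin n))).filter fun Z => ζ * n ≤ Z.card).card : ℕ) : ℝ) *
          Real.exp (-((n : ℝ) + 2))) * ((n : ℝ) ^ (M * 3)) := by ring
      _ ≤ 1 / 6 * ((n : ℝ) ^ (M * 3)) := mul_le_mul_of_nonneg_right h9 (by positivity)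
  have hA : (0 : ℝ) ≤ ((univ : Finset (Fin n × Fin 3 → Fin r)).card : ℝ) := by positivity
  have := mul_le_mul_of_nonneg_left hU hA
  calc _ ≤ _ := this
    _ = _ := by
      rw [card_univ]; ring

end Pool.Agent.H13.PZ
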