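import Mathlib

/-!
# Numerical bounds

(1) `v.choose N ≤ v ^ N / N! ≤ (v / N) ^ N * exp N` (`Nat.choose_le_pow_div`, and
`N ^ N / N! ≤ exp N` from `Real.pow_div_factorial_le_exp`).
(2) `(3 N).choose e ≤ 2 ^ (3 N) = 8 ^ N`.
(3) `N ≤ r` and `q e ≥ (q + 1) N` imply `(N / r) ^ e ≤ (N / r) ^ (N (1 + 1 / q)) =
((N / r) * (N / r) ^ (1 / q)) ^ N` (real powers, base at most `1`).
Product: at most `(8 exp 1 (v / r) (N / r) ^ (1 / q)) ^ N ≤ (8 exp 1 C δ ^ (1 / q)) ^ N ≤ (1 / 16) ^ N`.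
For `e = N`: at most `(8 exp 1 (v / r)) ^ N ≤ (8 exp 1 C) ^ N`.
-/

namespace Pool.Agent.H13.PZ

theorem choose_le_exp {v N : ℕ} (hN : 1 ≤ N) :
    (v.choose N : ℝ) ≤ ((v : ℝ) / N * Real.exp 1) ^ N := by
  have h1 : (v.choose N : ℝ) ≤ (v : ℝ) ^ N / (N.factorial : ℝ) := Nat.choose_le_pow_div N v
  have h2 : (N : ℝ) ^ N / (N.factorial : ℝ) ≤ Real.exp N :=
    Real.pow_div_factorial_le_exp (N : ℝ) (Nat.cast_nonneg N) N
  have hN0 : (0 : ℝ) < N := by exact_mod_cast hN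
  have hf : (0 : ℝ) < (N.factorial : ℝ) := by exact_mod_cast Nat.factorial_pos N
  have h3 : Real.exp 1 ^ N = Real.exp N := by
    rw [← Real.exp_nat_mul, mul_one]
  rw [mul_pow, div_pow, h3]
  refine h1.trans ?_
  have h4 : (v : ℝ) ^ N / (N.factorial : ℝ) =
      (v : ℝ) ^ N / (N : ℝ) ^ N * ((N : ℝ) ^ N / (N.factorial : ℝ)) := by
    have : (N : ℝ) ^ N ≠ 0 := (pow_pos hN0 N).ne'
    field_simp
  rw [h4]
  exact mul_le_mul_of_nonneg_left h2 (by positivity)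

theorem Num_choose (N e : ℕ) : ((3 * N).choose e : ℝ) ≤ 8 ^ N := by
  have h := Nat.choose_le_two_pow (3 * N) e
  have h2 : (2 : ℕ) ^ (3 * N) = 8 ^ N := by
    rw [pow_mul]
    norm_num
  rw [h2] at h
  exact_mod_cast h

theorem num_sparse {C δ : ℝ} {q v r N e : ℕ} (hC : 0 ≤ C) (hδ0 : 0 ≤ δ) (hδ : δ ≤ 1)
    (hq : 1 ≤ q) (hr : 0 < r) (hv : (v : ℝ) ≤ C * r) (hN : 1 ≤ N) (hNr : (N : ℝ) ≤ δ * r)
    (hCδ : 8 * Real.exp 1 * C * δ ^ ((1 : ℝ) / q) ≤ 1 / 16) (he : (q + 1) * N ≤ q * e) :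
    (v.choose N : ℝ) * (((3 * N).choose e : ℝ) * ((N : ℝ) / r) ^ e) ≤ (1 / 16) ^ N := by
  have hN0 : (0 : ℝ) < N := by exact_mod_cast hN
  have hr0 : (0 : ℝ) < r := by exact_mod_cast hr
  have hq0 : (0 : ℝ) < q := by exact_mod_cast hq
  have hx0 : 0 < (N : ℝ) / r := div_pos hN0 hr0
  have hxδ : (N : ℝ) / r ≤ δ := (div_le_iff₀ hr0).2 hNr
  have hx1 : (N : ℝ) / r ≤ 1 := hxδ.trans hδ
  have hδq : 0 ≤ δ ^ ((1 : ℝ) / q) := Real.rpow_nonneg hδ0 _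
  have h3 : ((N : ℝ) / r) ^ e ≤ ((N : ℝ) / r * δ ^ ((1 : ℝ) / q)) ^ N := by
    have a1 : ((N : ℝ) / r) ^ e ≤ ((N : ℝ) / r) ^ ((1 + 1 / (q : ℝ)) * N) := by
      rw [← Real.rpow_natCast]
      refine Real.rpow_le_rpow_of_exponent_ge hx0 hx1 ?_
      have he' : ((q : ℝ) + 1) * N ≤ q * e := by exact_mod_cast he
      have : (1 + 1 / (q : ℝ)) * N = ((q : ℝ) + 1) * N / q := by field_simp
      rw [this, div_le_iff₀ hq0]
      linarith
    have a2 : ((N : ℝ) / r) ^ ((1 + 1 / (q : ℝ)) * N) =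
        ((N : ℝ) / r * ((N : ℝ) / r) ^ ((1 : ℝ) / q)) ^ N := by
      rw [Real.rpow_mul hx0.le, Real.rpow_natCast, Real.rpow_add hx0, Real.rpow_one]
    rw [a2] at a1
    refine a1.trans ?_
    refine pow_le_pow_left₀ (by positivity) ?_ N
    exact mul_le_mul_of_nonneg_left (Real.rpow_le_rpow hx0.le hxδ (by positivity)) hx0.le
  have h1 := choose_le_exp (v := v) hN
  have h2 := Num_choose N e
  have hv0 : (0 : ℝ) ≤ v := Nat.cast_nonneg v
  calc (v.choose N : ℝ) * (((3 * N).choose e : ℝ) * ((N : ℝ) / r) ^ e)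
      ≤ ((v : ℝ) / N * Real.exp 1) ^ N * (8 ^ N * ((N : ℝ) / r * δ ^ ((1 : ℝ) / q)) ^ N) := by
        refine mul_le_mul h1 (mul_le_mul h2 h3 (by positivity) (by positivity)) (by positivity)
          (by positivity)
    _ = (8 * Real.exp 1 * ((v : ℝ) / r) * δ ^ ((1 : ℝ) / q)) ^ N := by
        rw [← mul_pow, ← mul_pow]
        congr 1
        field_simp
    _ ≤ (1 / 16) ^ N := by
        refine pow_le_pow_left₀ (by positivity) ?_ N
        refine le_trans ?_ hCδ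
        have hvr : (v : ℝ) / r ≤ C := (div_le_iff₀ hr0).2 hv
        exact mul_le_mul_of_nonneg_right (mul_le_mul_of_nonneg_left hvr (by positivity)) hδq

theorem num_bad {C : ℝ} {v r N : ℕ} (hC : 0 ≤ C) (hr : 0 < r) (hv : (v : ℝ) ≤ C * r)
    (hN : 1 ≤ N) :
    (v.choose N : ℝ) * (((3 * N).choose N : ℝ) * ((N : ℝ) / r) ^ N) ≤
      (8 * Real.exp 1 * C) ^ N := by
  have hN0 : (0 : ℝ) < N := by exact_mod_cast hN
  have hr0 : (0 : ℝ) < r := by exact_mod_cast hr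
  have h1 := choose_le_exp (v := v) hN
  have h2 := Num_choose N N
  have hv0 : (0 : ℝ) ≤ v := Nat.cast_nonneg v
  calc (v.choose N : ℝ) * (((3 * N).choose N : ℝ) * ((N : ℝ) / r) ^ N)
      ≤ ((v : ℝ) / N * Real.exp 1) ^ N * (8 ^ N * ((N : ℝ) / r) ^ N) := by
        refine mul_le_mul h1 (mul_le_mul_of_nonneg_right h2 (by positivity)) (by positivity)
          (by positivity)
    _ = (8 * Real.exp 1 * ((v : ℝ) / r)) ^ N := by
        rw [← mul_pow, ← mul_pow]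
        congr 1
        field_simp
    _ ≤ (8 * Real.exp 1 * C) ^ N := by
        refine pow_le_pow_left₀ (by positivity) ?_ N
        have hvr : (v : ℝ) / r ≤ C := (div_le_iff₀ hr0).2 hv
        exact mul_le_mul_of_nonneg_left hvr (by positivity)

end Pool.Agent.H13.PZ
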