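import Pool.Agent.H13.PZ.PrA
import Pool.Agent.H13.PZ.Num

/-!
# Few choices of slots have many small dense sets

The nonempty sets `W` of at most `g` nodes with `|W| ≤ eW f h W`: the sum over all `(f, h)` of their
number is (exchange the sums), by `card_eW_ge` with `e = |W|` and `num_bad` (`v` = number of nodes,
`v.choose N` sets of card `N`), at most `∑ N ∈ [1, g], (8 exp 1 C) ^ N * |Ω|`; so by Markov's
inequality the number exceeds `B` for at most `1 / 15` of the `(f, h)` if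
`B ≥ 15 ∑ N ∈ [1, g], (8 exp 1 C) ^ N` (use that a number `> B` is `≥ B + 1`).
-/

namespace Pool.Agent.H13.PZ

open Finset

theorem PrD_group {v : ℕ} {α : Type} [Fintype α] [DecidableEq α] (hv : Fintype.card α = v)
    (g : ℕ) (φ : ℕ → ℝ) :
    ∑ W ∈ (univ : Finset (Finset α)).filter (fun W => 1 ≤ W.card ∧ W.card ≤ g), φ W.card =
      ∑ N ∈ Icc 1 g, (v.choose N : ℝ) * φ N := by
  rw [← sum_fiberwise_of_maps_to (s := (univ : Finset (Finset α)).filter
    (fun W => 1 ≤ W.card ∧ W.card ≤ g)) (t := Icc 1 g) (g := fun W => W.card)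
    (fun W hW => mem_Icc.2 (mem_filter.1 hW).2)]
  refine sum_congr rfl fun N hN => ?_
  have h1 : ((univ : Finset (Finset α)).filter (fun W => 1 ≤ W.card ∧ W.card ≤ g)).filter
      (fun W => W.card = N) = powersetCard N univ := by
    ext W
    rw [mem_filter, mem_filter, mem_powersetCard]
    have := mem_Icc.1 hN
    constructor
    · rintro ⟨-, h⟩
      exact ⟨subset_univ _, h⟩
    · rintro ⟨-, h⟩
      exact ⟨⟨mem_univ _, by omega⟩, h⟩
  rw [h1]
  have h2 : ∑ W ∈ powersetCard N (univ : Finset α), φ W.card =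
      ∑ W ∈ powersetCard N (univ : Finset α), φ N :=
    sum_congr rfl fun W hW => by rw [(mem_powersetCard.1 hW).2]
  rw [h2, sum_const, card_powersetCard, card_univ, hv, nsmul_eq_mul]

theorem frac_bad {n r M g B : ℕ} {C : ℝ} (hr : 0 < r) (hrn : r ≤ n) (hC : 0 ≤ C)
    (hP : (Fintype.card (Node n r M) : ℝ) ≤ C * r)
    (hB : 15 * ∑ N ∈ Icc 1 g, (8 * Real.exp 1 * C) ^ N ≤ B) :
    (((univ : Finset ((Fin n × Fin 3 → Fin r) × (Fin M × Fin 3 → Fin n))).filter
      fun ω => B < ((univ : Finset (Finset (Node n r M))).filter fun W =>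
        1 ≤ W.card ∧ W.card ≤ g ∧ W.card ≤ eW ω.1 ω.2 W).card).card : ℝ) ≤
      1 / 15 * (Fintype.card ((Fin n × Fin 3 → Fin r) × (Fin M × Fin 3 → Fin n)) : ℝ) := by
  classical
  set cnt : (Fin n × Fin 3 → Fin r) × (Fin M × Fin 3 → Fin n) → ℕ := fun ω =>
    ((univ : Finset (Finset (Node n r M))).filter fun W =>
        1 ≤ W.card ∧ W.card ≤ g ∧ W.card ≤ eW ω.1 ω.2 W).card with hcnt
  set S : ℝ := ∑ N ∈ Icc 1 g, (8 * Real.exp 1 * C) ^ N with hS
  set Om : ℝ := (Fintype.card ((Fin n × Fin 3 → Fin r) × (Fin M × Fin 3 → Fin n)) : ℝ) with hOm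
  have hOm0 : 0 ≤ Om := Nat.cast_nonneg _
  set U : Finset (Finset (Node n r M)) :=
    univ.filter (fun W => 1 ≤ W.card ∧ W.card ≤ g) with hU
  have h1 : ∀ ω, (cnt ω : ℝ) = ∑ W ∈ U, if W.card ≤ eW ω.1 ω.2 W then (1 : ℝ) else 0 := by
    intro ω
    rw [sum_boole, hcnt, hU, filter_filter]
    simp only [and_assoc]
  have hsum : ∑ ω, (cnt ω : ℝ) ≤ S * Om := by
    rw [sum_congr rfl (fun ω _ => h1 ω), sum_comm]
    have h2 : ∀ W ∈ U, ∑ ω : (Fin n × Fin 3 → Fin r) × (Fin M × Fin 3 → Fin n),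
        (if W.card ≤ eW ω.1 ω.2 W then (1 : ℝ) else 0) ≤
        ((3 * W.card).choose W.card : ℝ) * ((W.card : ℝ) / r) ^ W.card * Om := by
      intro W _
      rw [sum_boole]
      exact card_eW_ge hr hrn W W.card
    refine (sum_le_sum h2).trans ?_
    rw [hU, PrD_group (v := Fintype.card (Node n r M)) rfl g
      (fun N => ((3 * N).choose N : ℝ) * ((N : ℝ) / r) ^ N * Om), hS, sum_mul]
    refine sum_le_sum fun N hN => ?_
    have h3 := num_bad hC hr hP (mem_Icc.1 hN).1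
    have h4 := mul_le_mul_of_nonneg_right h3 hOm0
    refine le_trans (le_of_eq ?_) h4
    ring
  set bad := (univ : Finset ((Fin n × Fin 3 → Fin r) × (Fin M × Fin 3 → Fin n))).filter
      (fun ω => B < cnt ω) with hbad
  have h5 : ((B : ℝ) + 1) * bad.card ≤ ∑ ω, (cnt ω : ℝ) := by
    calc ((B : ℝ) + 1) * bad.card = ∑ ω ∈ bad, ((B : ℝ) + 1) := by
          rw [sum_const, nsmul_eq_mul]
          ring
      _ ≤ ∑ ω ∈ bad, (cnt ω : ℝ) := by
          refine sum_le_sum fun ω hω => ?_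
          have := (mem_filter.1 hω).2
          exact_mod_cast this
      _ ≤ ∑ ω, (cnt ω : ℝ) := by
          refine sum_le_sum_of_subset_of_nonneg (subset_univ _) fun ω _ _ => Nat.cast_nonneg _
  have hB0 : (0 : ℝ) ≤ B := Nat.cast_nonneg _
  have h6 : S ≤ B / 15 := by linarith
  have h7 : ((B : ℝ) + 1) * bad.card ≤ B / 15 * Om :=
    (h5.trans hsum).trans (mul_le_mul_of_nonneg_right h6 hOm0)
  have h8 : ((B : ℝ) + 1) * bad.card ≤ ((B : ℝ) + 1) * (1 / 15 * Om) := by
    refine h7.trans ?_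
    nlinarith
  exact le_of_mul_le_mul_left h8 (by positivity)

end Pool.Agent.H13.PZ
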