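import Pool.Agent.H13.PZ.PrS
import Pool.Agent.H13.PZ.PrD
import Pool.Agent.H13.PZ.PrC

/-!
# Existence of the slots

Given `0 < β ≤ 1`, `q ≥ 1`, `g`. For `n` large put `r = ⌊β n⌋₊`, so `β n / 2 ≤ r ≤ β n ≤ n`, `0 < r`.
* `C₁ = 1 + 2 / β`: the set `P₁` of all colours and variables has `r + n ≤ C₁ r` elements. Choose
  `0 < δ₁ ≤ 1` with `8 exp 1 C₁ δ₁ ^ (1 / 5) ≤ 1 / 16` (`δ₁` small, `δ₁ ^ (1/5) → 0`).
* `ζ = δ₁ β / 5 ∈ (0, 1]`, `M = ⌈(n + 2) / ζ ^ 3⌉₊ ≤ C' n` for `n ≥ 2`, `C' = 3 / ζ ^ 3 + 1`.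
* `C₂ = 1 + 2 (C' + 1) / β`: all nodes, `r + M + n ≤ C₂ r`. Choose `0 < δ₂ ≤ 1` with
  `8 exp 1 C₂ δ₂ ^ (1 / q) ≤ 1 / 16`; `δ = δ₂ β / 2`, so `δ n ≤ δ₂ r`.
* `B₀ = ⌈15 ∑ N ∈ [1, g], (8 exp 1 C₂) ^ N⌉₊`, `B = g B₀`.
The events of `frac_sparse` (`P₁`, `δ₁`, `5`), `frac_sparse` (all nodes, `δ₂`, `q`), `frac_bad`
(`C₂`, `B₀`), `frac_hit` (`ζ`) have together at most `1/15 + 1/15 + 1/15 + 1/6 < 1` of all `(f, h)`;
take `(f, h)` outside all of them.
(a) Let `Z` be nonempty, `c` the number of colours of its slots, `2 c ≤ 3 |Z|`. Let `W` consist of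
these colours and the variables of `Z`: `|W| = c + |Z|`, all `3 |Z|` slots of `Z` are counted in
`eW f h W`. If `|W| ≤ δ₁ r` then `5 * eW < 6 |W|`, so `15 |Z| < 6 (c + |Z|) ≤ 15 |Z|`, a
contradiction. So `(5/2) |Z| ≥ c + |Z| > δ₁ r ≥ δ₁ β n / 2`, `|Z| ≥ ζ n`, and `frac_hit` gives `b`.
(b) outside the second event. (c) `Bad` is the set of the variables in the at most `B₀` sets `W`
with `1 ≤ |W| ≤ g`, `|W| ≤ eW f h W`; it has at most `g B₀` elements.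
-/

namespace Pool.Agent.H13.PZ

open Finset

theorem Ex_four {Ω : Type} [Fintype Ω] [Nonempty Ω] (E1 E2 E3 E4 : Finset Ω)
    (h1 : (E1.card : ℝ) ≤ 1 / 15 * (Fintype.card Ω : ℝ))
    (h2 : (E2.card : ℝ) ≤ 1 / 15 * (Fintype.card Ω : ℝ))
    (h3 : (E3.card : ℝ) ≤ 1 / 15 * (Fintype.card Ω : ℝ))
    (h4 : (E4.card : ℝ) ≤ 1 / 6 * (Fintype.card Ω : ℝ)) :
    ∃ ω, ω ∉ E1 ∧ ω ∉ E2 ∧ ω ∉ E3 ∧ ω ∉ E4 := by
  classical
  by_contra hcon
  push Not at hcon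
  have hsub : (univ : Finset Ω) ⊆ E1 ∪ (E2 ∪ (E3 ∪ E4)) := by
    intro ω _
    by_cases a1 : ω ∈ E1
    · simp [a1]
    · by_cases a2 : ω ∈ E2
      · simp [a2]
      · by_cases a3 : ω ∈ E3
        · simp [a3]
        · simp [hcon ω a1 a2 a3]
  have h5 := Finset.card_le_card hsub
  have h6 : (E1 ∪ (E2 ∪ (E3 ∪ E4))).card ≤ E1.card + (E2.card + (E3.card + E4.card)) :=
    (Finset.card_union_le _ _).trans (Nat.add_le_add_left ((Finset.card_union_le _ _).trans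
      (Nat.add_le_add_left (Finset.card_union_le _ _) _)) _)
  rw [Finset.card_univ] at h5
  have h7 : (Fintype.card Ω : ℝ) ≤ E1.card + (E2.card + (E3.card + E4.card)) := by
    exact_mod_cast h5.trans h6
  have h8 : 0 < (Fintype.card Ω : ℝ) := by exact_mod_cast Fintype.card_pos
  linarith

theorem Ex_delta (C : ℝ) (hC : 0 ≤ C) (q : ℕ) (hq : 1 ≤ q) :
    ∃ δ : ℝ, 0 < δ ∧ δ ≤ 1 ∧ 8 * Real.exp 1 * C * δ ^ ((1 : ℝ) / q) ≤ 1 / 16 := by
  have he : 1 ≤ Real.exp 1 := Real.one_le_exp zero_le_one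
  set y : ℝ := 128 * Real.exp 1 * (C + 1) with hy
  have hy1 : 1 ≤ y := by
    rw [hy]; nlinarith [mul_nonneg (sub_nonneg.2 he) hC]
  have hy0 : 0 < y := by linarith
  refine ⟨(1 / y) ^ q, by positivity, pow_le_one₀ (by positivity) ((div_le_one hy0).2 hy1), ?_⟩
  have h1 : ((1 / y) ^ q) ^ ((1 : ℝ) / q) = 1 / y := by
    rw [one_div (q : ℝ)]
    exact Real.pow_rpow_inv_natCast (by positivity) (by omega)
  rw [h1, mul_one_div, div_le_div_iff₀ hy0 (by norm_num), hy]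
  nlinarith [mul_nonneg (sub_nonneg.2 he) hC]

/-- the nodes of a set of colours and a set of variables -/
def Ex_W {n r M : ℕ} (A : Finset (Fin r)) (Z : Finset (Fin n)) : Finset (Node n r M) :=
  A.disjSum ((∅ : Finset (Fin M)).disjSum Z)

theorem Ex_W_card {n r M : ℕ} (A : Finset (Fin r)) (Z : Finset (Fin n)) :
    (Ex_W (M := M) A Z).card = A.card + Z.card := by
  simp [Ex_W, Finset.card_disjSum]

theorem Ex_W_sub {n r M : ℕ} (A : Finset (Fin r)) (Z : Finset (Fin n)) :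
    Ex_W (M := M) A Z ⊆ Ex_W univ univ := by
  intro w hw
  rcases w with a | b | v
  · simp [Ex_W]
  · simp [Ex_W] at hw
  · simp [Ex_W]

theorem Ex_eW {n r M : ℕ} (f : Fin n × Fin 3 → Fin r) (h : Fin M × Fin 3 → Fin n)
    (Z : Finset (Fin n)) :
    3 * Z.card ≤ eW f h (Ex_W (M := M) ((Z ×ˢ (univ : Finset (Fin 3))).image f) Z) := by
  have h1 : (Z ×ˢ (univ : Finset (Fin 3))) ⊆ univ.filter fun p : Fin n × Fin 3 =>
      (Sum.inr (Sum.inr p.1) : Node n r M) ∈ Ex_W ((Z ×ˢ (univ : Finset (Fin 3))).image f) Z ∧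
      (Sum.inl (f p) : Node n r M) ∈ Ex_W ((Z ×ˢ (univ : Finset (Fin 3))).image f) Z := by
    intro p hp
    have hp1 : p.1 ∈ Z := (Finset.mem_product.1 hp).1
    rw [Finset.mem_filter]
    refine ⟨Finset.mem_univ _, ?_, ?_⟩
    · simp [Ex_W, hp1]
    · simp only [Ex_W, Finset.inl_mem_disjSum]
      exact Finset.mem_image_of_mem f hp
  have h2 := Finset.card_le_card h1
  rw [Finset.card_product, Finset.card_univ, Fintype.card_fin] at h2
  unfold eW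
  omega

theorem exists_slots (β : ℝ) (hβ : 0 < β) (hβ1 : β ≤ 1) (q g : ℕ) (hq : 1 ≤ q) :
    ∃ δ : ℝ, 0 < δ ∧ ∃ B n₀ : ℕ, ∀ n ≥ n₀, ∃ (r M : ℕ) (f : Fin n × Fin 3 → Fin r)
      (h : Fin M × Fin 3 → Fin n), (r : ℝ) ≤ β * n ∧
      (∀ Z : Finset (Fin n), Z.Nonempty →
        2 * ((Z ×ˢ (univ : Finset (Fin 3))).image f).card ≤ 3 * Z.card →
        ∃ b, ∀ j, h (b, j) ∈ Z) ∧
      (∀ W : Finset (Node n r M), (W.card : ℝ) ≤ δ * n → q * eW f h W ≤ (q + 1) * W.card) ∧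
      ∃ Bad : Finset (Fin n), Bad.card ≤ B ∧ ∀ W : Finset (Node n r M), 1 ≤ W.card →
        W.card ≤ g → W.card ≤ eW f h W → ∀ v, Sum.inr (Sum.inr v) ∈ W → v ∈ Bad := by
  obtain ⟨δ₁, hδ₁, hδ₁1, hC₁δ⟩ := Ex_delta (1 + 2 / β) (by positivity) 5 (by norm_num)
  set ζ : ℝ := δ₁ * β / 5 with hζ
  have hζ0 : 0 < ζ := by positivity
  have hζ1 : ζ ≤ 1 := by
    have : δ₁ * β ≤ 1 := mul_le_one₀ hδ₁1 hβ.le hβ1
    rw [hζ]; linarith
  set C' : ℝ := 2 / ζ ^ 3 + 1 with hC'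
  have hC'0 : 0 < C' := by positivity
  obtain ⟨δ₂, hδ₂, hδ₂1, hC₂δ⟩ := Ex_delta (1 + 2 * (C' + 1) / β) (by positivity) q hq
  set B₀ : ℕ := ⌈15 * ∑ N ∈ Icc 1 g, (8 * Real.exp 1 * (1 + 2 * (C' + 1) / β)) ^ N⌉₊ with hB₀
  refine ⟨δ₂ * β / 2, by positivity, B₀ * g, max 2 ⌈2 / β⌉₊, fun n hn => ?_⟩
  have hn2 : 2 ≤ n := (le_max_left _ _).trans hn
  have hn2' : (2 : ℝ) ≤ n := by exact_mod_cast hn2
  have hnβ : 2 ≤ β * n := by
    have h1 : ⌈2 / β⌉₊ ≤ n := (le_max_right _ _).trans hn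
    have h2 : 2 / β ≤ n := Nat.ceil_le.1 h1
    rw [div_le_iff₀ hβ] at h2
    linarith
  set r : ℕ := ⌊β * n⌋₊ with hr
  have hr1 : (r : ℝ) ≤ β * n := Nat.floor_le (by positivity)
  have hr2 : β * n / 2 ≤ (r : ℝ) := by
    have := Nat.lt_floor_add_one (β * n)
    rw [← hr] at this
    linarith
  have hr0 : 0 < r := by
    have : (0 : ℝ) < r := by linarith
    exact_mod_cast this
  have hrn : r ≤ n := by
    have : (r : ℝ) ≤ n := hr1.trans (by nlinarith)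
    exact_mod_cast this
  have hnr : (n : ℝ) ≤ 2 / β * r := by
    rw [div_mul_eq_mul_div, le_div_iff₀ hβ]; linarith
  set M : ℕ := ⌈((n : ℝ) + 2) / ζ ^ 3⌉₊ with hM
  have hM1 : (n : ℝ) + 2 ≤ ζ ^ 3 * M := by
    have h1 : ((n : ℝ) + 2) / ζ ^ 3 ≤ M := Nat.le_ceil _
    rw [div_le_iff₀ (by positivity)] at h1
    linarith
  have hM2 : (M : ℝ) ≤ C' * n := by
    have h1 : (M : ℝ) < ((n : ℝ) + 2) / ζ ^ 3 + 1 := Nat.ceil_lt_add_one (by positivity)
    have h2 : ((n : ℝ) + 2) / ζ ^ 3 ≤ 2 * n / ζ ^ 3 :=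
      div_le_div_of_nonneg_right (by linarith) (by positivity)
    have h3 : C' * n = 2 * n / ζ ^ 3 + n := by rw [hC']; ring
    linarith
  have hcP : ((Ex_W (M := M) (univ : Finset (Fin r)) (univ : Finset (Fin n))).card : ℝ) ≤
      (1 + 2 / β) * r := by
    rw [Ex_W_card, Finset.card_univ, Finset.card_univ, Fintype.card_fin, Fintype.card_fin]
    push_cast
    linarith
  have hcN : (Fintype.card (Node n r M) : ℝ) ≤ (1 + 2 * (C' + 1) / β) * r := by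
    rw [Fintype.card_sum, Fintype.card_sum, Fintype.card_fin, Fintype.card_fin, Fintype.card_fin]
    push_cast
    have h1 : (C' + 1) * n ≤ (C' + 1) * (2 / β * r) := mul_le_mul_of_nonneg_left hnr (by positivity)
    have h2 : (1 + 2 * (C' + 1) / β) * r = r + (C' + 1) * (2 / β * r) := by ring
    rw [h2]
    linarith
  have hne : Nonempty ((Fin n × Fin 3 → Fin r) × (Fin M × Fin 3 → Fin n)) :=
    ⟨(fun _ => ⟨0, hr0⟩, fun _ => ⟨0, by omega⟩)⟩
  obtain ⟨ω, w1, w2, w3, w4⟩ := Ex_four _ _ _ _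
    (frac_sparse (n := n) (r := r) (M := M) (q := 5) hr0 hrn (by positivity) hδ₁.le hδ₁1
      (by norm_num) hC₁δ (Ex_W univ univ) hcP)
    (frac_sparse (n := n) (r := r) (M := M) (q := q) hr0 hrn (by positivity) hδ₂.le hδ₂1
      hq hC₂δ univ (by rw [Finset.card_univ]; exact hcN))
    (frac_bad (n := n) (r := r) (M := M) (g := g) (B := B₀) hr0 hrn (by positivity) hcN
      (Nat.le_ceil _))
    (frac_hit (n := n) (r := r) (M := M) hζ0 hζ1 (by omega) hM1)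
  simp only [Finset.mem_filter, Finset.mem_univ, true_and, not_exists, not_and, not_le,
    not_lt, Finset.subset_univ, not_forall, not_not] at w1 w2 w3 w4
  refine ⟨r, M, ω.1, ω.2, hr1, ?_, ?_, ?_⟩
  · intro Z hZ hc
    refine w4 Z ?_
    set A := (Z ×ˢ (univ : Finset (Fin 3))).image ω.1 with hA
    have hZ1 : 1 ≤ Z.card := Finset.card_pos.2 hZ
    have hWc : (Ex_W (M := M) A Z).card = A.card + Z.card := Ex_W_card A Z
    have heW : 3 * Z.card ≤ eW ω.1 ω.2 (Ex_W A Z) := Ex_eW ω.1 ω.2 Z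
    by_cases hsm : ((Ex_W (M := M) A Z).card : ℝ) ≤ δ₁ * r
    · exfalso
      have h1 := w1 (Ex_W A Z) (Ex_W_sub A Z) (by omega) hsm
      omega
    · push Not at hsm
      rw [hWc] at hsm
      push_cast at hsm
      have h1 : (2 : ℝ) * A.card ≤ 3 * Z.card := by exact_mod_cast hc
      have h2 : δ₁ * (β * n / 2) ≤ δ₁ * r := mul_le_mul_of_nonneg_left hr2 hδ₁.le
      have h3 : ζ * n = 2 / 5 * (δ₁ * (β * n / 2)) := by rw [hζ]; ring
      rw [h3]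
      linarith
  · intro W hW
    rcases Nat.eq_zero_or_pos W.card with h0 | h0
    · rw [Finset.card_eq_zero] at h0
      subst h0
      simp [eW]
    · have h1 : (W.card : ℝ) ≤ δ₂ * r := by
        refine hW.trans ?_
        have h2 : δ₂ * (β * n / 2) ≤ δ₂ * r := mul_le_mul_of_nonneg_left hr2 hδ₂.le
        calc δ₂ * β / 2 * n = δ₂ * (β * n / 2) := by ring
          _ ≤ _ := h2
      exact (w2 W h0 h1).le
  · classical
    refine ⟨((univ : Finset (Finset (Node n r M))).filter fun W =>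
        1 ≤ W.card ∧ W.card ≤ g ∧ W.card ≤ eW ω.1 ω.2 W).biUnion fun W =>
        univ.filter fun v => (Sum.inr (Sum.inr v) : Node n r M) ∈ W, ?_, ?_⟩
    · refine (Finset.card_biUnion_le_card_mul _ _ g fun W hW => ?_).trans
        (Nat.mul_le_mul_right g w3)
      rw [Finset.mem_filter] at hW
      refine le_trans ?_ hW.2.2.1
      refine Finset.card_le_card_of_injOn (fun v => (Sum.inr (Sum.inr v) : Node n r M)) ?_ ?_
      · intro v hv
        simp only [Finset.coe_filter, Finset.mem_univ, true_and, Set.mem_ofPred_eq] at hv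
        exact hv
      · intro v _ v' _ hvv
        simpa using hvv
    · intro W hW1 hWg hWe v hv
      rw [Finset.mem_biUnion]
      exact ⟨W, Finset.mem_filter.2 ⟨Finset.mem_univ _, hW1, hWg, hWe⟩,
        Finset.mem_filter.2 ⟨Finset.mem_univ _, hv⟩⟩

end Pool.Agent.H13.PZ
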