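import Pool.Agent.H13.PZ.Sys

/-!
# The formula of a system of rows and triples

`rowClause ρ v` (`v ∈ ρ`) is falsified by `a` iff `v` is false and all other elements of `ρ` are
true, i.e. iff `ρ ∩ zeros a = {v}`. `posClause t` is falsified iff `t ⊆ zeros a`. So `a` satisfies
the formula iff no row meets `zeros a` in exactly one element and no triple is contained in
`zeros a` (card of `ρ ∩ zeros a` is one iff `ρ ∩ zeros a = {v}` for some `v`, which lies in `ρ`).
Cards: a row clause has at most `1 + (ρ.card - 1) ≤ k` literals, a triple clause at most `3 ≤ k`.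
Uniqueness: `Sys.uniq` applied to `Z = zeros a` (if `zeros a` is empty then `a` is constantly true);
the constant `true` satisfies the formula because `zeros = ∅`, `(ρ ∩ ∅).card = 0 ≠ 1`, and triples
are nonempty.
-/

namespace Pool.Agent.H13.PZ

open Finset

theorem mem_zeros {n : ℕ} (a : Fin n → Bool) (v : Fin n) : v ∈ zeros a ↔ a v = false := by
  unfold zeros
  rw [Finset.mem_filter]
  exact ⟨fun h => h.2, fun h => ⟨Finset.mem_univ _, h⟩⟩

theorem rowClause_unsat {n : ℕ} {ρ : Finset (Fin n)} {v : Fin n} (hv : v ∈ ρ)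
    (a : Fin n → Bool) : ¬ ClauseSat a (rowClause ρ v) ↔ ρ ∩ zeros a = {v} := by
  unfold ClauseSat rowClause
  constructor
  · intro h
    push Not at h
    have h1 : a v = false := by
      have := h (v, true) (Finset.mem_insert_self _ _)
      simpa using this
    ext u
    rw [Finset.mem_inter, mem_zeros, Finset.mem_singleton]
    constructor
    · rintro ⟨hu, hu2⟩
      by_contra hne
      have := h (u, false) (Finset.mem_insert_of_mem (Finset.mem_image.2
        ⟨u, Finset.mem_erase.2 ⟨hne, hu⟩, rfl⟩))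
      exact this hu2
    · intro hu
      rw [hu]
      exact ⟨hv, h1⟩
  · intro h
    rintro ⟨l, hl, hl2⟩
    rw [Finset.mem_insert] at hl
    rcases hl with hl | hl
    · have h1 : v ∈ ρ ∩ zeros a := by rw [h]; exact Finset.mem_singleton_self _
      rw [Finset.mem_inter, mem_zeros] at h1
      rw [hl] at hl2
      simp only at hl2
      rw [h1.2] at hl2
      exact absurd hl2 (by simp)
    · rw [Finset.mem_image] at hl
      obtain ⟨u, hu, rfl⟩ := hl
      rw [Finset.mem_erase] at hu
      have h1 : u ∈ ρ ∩ zeros a := by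
        rw [Finset.mem_inter, mem_zeros]
        exact ⟨hu.2, hl2⟩
      rw [h, Finset.mem_singleton] at h1
      exact hu.1 h1

theorem posClause_unsat {n : ℕ} (t : Finset (Fin n)) (a : Fin n → Bool) :
    ¬ ClauseSat a (posClause t) ↔ t ⊆ zeros a := by
  unfold ClauseSat posClause
  constructor
  · intro h u hu
    push Not at h
    rw [mem_zeros]
    have := h (u, true) (Finset.mem_image.2 ⟨u, hu, rfl⟩)
    simpa using this
  · intro h
    rintro ⟨l, hl, hl2⟩
    rw [Finset.mem_image] at hl
    obtain ⟨u, hu, rfl⟩ := hl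
    have h1 := h hu
    rw [mem_zeros] at h1
    simp only at hl2
    rw [h1] at hl2
    exact absurd hl2 (by simp)

theorem mem_formula {n : ℕ} {rows trips : Finset (Finset (Fin n))} {C : Clause n} :
    C ∈ formula rows trips ↔
      (∃ ρ ∈ rows, ∃ v ∈ ρ, C = rowClause ρ v) ∨ ∃ t ∈ trips, C = posClause t := by
  unfold formula
  rw [Finset.mem_union, Finset.mem_biUnion, Finset.mem_image]
  constructor
  · rintro (⟨ρ, hρ, h⟩ | ⟨t, ht, h⟩)
    · left
      rw [Finset.mem_image] at h
      obtain ⟨v, hv, h⟩ := h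
      exact ⟨ρ, hρ, v, hv, h.symm⟩
    · right
      exact ⟨t, ht, h.symm⟩
  · rintro (⟨ρ, hρ, v, hv, h⟩ | ⟨t, ht, h⟩)
    · left
      exact ⟨ρ, hρ, Finset.mem_image.2 ⟨v, hv, h.symm⟩⟩
    · right
      exact ⟨t, ht, h.symm⟩

theorem sat_formula {n : ℕ} {rows trips : Finset (Finset (Fin n))} {a : Fin n → Bool} :
    Sat (formula rows trips) a ↔
      (∀ ρ ∈ rows, (ρ ∩ zeros a).card ≠ 1) ∧ ∀ t ∈ trips, ¬ t ⊆ zeros a := by
  unfold Sat
  constructor
  · intro h
    constructor
    · intro ρ hρ hc
      rw [Finset.card_eq_one] at hc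
      obtain ⟨v, hv⟩ := hc
      have hvρ : v ∈ ρ := by
        have : v ∈ ρ ∩ zeros a := by rw [hv]; exact Finset.mem_singleton_self _
        exact (Finset.mem_inter.1 this).1
      exact (rowClause_unsat hvρ a).2 hv (h _ (mem_formula.2 (Or.inl ⟨ρ, hρ, v, hvρ, rfl⟩)))
    · intro t ht hsub
      exact (posClause_unsat t a).2 hsub (h _ (mem_formula.2 (Or.inr ⟨t, ht, rfl⟩)))
  · rintro ⟨h1, h2⟩ C hC
    rw [mem_formula] at hC
    by_contra hcon
    rcases hC with ⟨ρ, hρ, v, hv, rfl⟩ | ⟨t, ht, rfl⟩
    · rw [rowClause_unsat hv] at hcon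
      exact h1 ρ hρ (by rw [hcon, Finset.card_singleton])
    · rw [posClause_unsat] at hcon
      exact h2 t ht hcon

theorem card_formula {n k : ℕ} {rows trips : Finset (Finset (Fin n))} (hk : 3 ≤ k)
    (h1 : ∀ ρ ∈ rows, ρ.card ≤ k) (h2 : ∀ t ∈ trips, t.card ≤ 3) :
    ∀ C ∈ formula rows trips, C.card ≤ k := by
  intro C hC
  rw [mem_formula] at hC
  rcases hC with ⟨ρ, hρ, v, hv, rfl⟩ | ⟨t, ht, rfl⟩
  · unfold rowClause
    have h3 := Finset.card_insert_le (v, true) ((ρ.erase v).image fun u => (u, false))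
    have h4 : ((ρ.erase v).image fun u => (u, false)).card ≤ (ρ.erase v).card := Finset.card_image_le
    have h5 := Finset.card_erase_of_mem hv
    have h6 := h1 ρ hρ
    have h7 : 0 < ρ.card := Finset.card_pos.2 ⟨v, hv⟩
    omega
  · unfold posClause
    exact Finset.card_image_le.trans ((h2 t ht).trans hk)

theorem uniq_formula {n k q g N₀ : ℕ} {rows trips : Finset (Finset (Fin n))}
    (h : Sys rows trips k q g N₀) :
    Sat (formula rows trips) (fun _ => true) ∧
      ∀ a, Sat (formula rows trips) a → a = fun _ => true := by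
  constructor
  · rw [sat_formula]
    have hz : zeros (fun _ : Fin n => true) = ∅ := by
      ext v
      rw [mem_zeros]
      simp
    rw [hz]
    constructor
    · intro ρ _
      rw [Finset.inter_empty]
      simp
    · intro t ht hsub
      have h1 := (h.trip_card t ht).1
      rw [Finset.subset_empty] at hsub
      rw [hsub] at h1
      exact Finset.not_nonempty_empty h1
  · intro a ha
    rw [sat_formula] at ha
    by_cases hz : (zeros a).Nonempty
    · obtain ⟨t, ht, hsub⟩ := h.uniq (zeros a) hz ha.1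
      exact absurd hsub (ha.2 t ht)
    · rw [Finset.not_nonempty_iff_eq_empty] at hz
      funext v
      have h1 : v ∉ zeros a := by rw [hz]; simp
      rw [mem_zeros] at h1
      simpa using h1

end Pool.Agent.H13.PZ
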