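import Pool.Agent.H13.PZ.Sys

/-!
# Good sets and the core

`Good` is closed under unions. Let `K`, `K'` be good, `M = K ∪ K'`.
* If `(ρ ∩ M).card = 1` then `ρ ∩ K ⊆ ρ ∩ M` has card `0` (not `1`), the same for `K'`, so
  `ρ ∩ M = (ρ ∩ K) ∪ (ρ ∩ K')` is empty, a contradiction.
* If `ρ ∩ M = {u, v}`, `u ≠ v`, and `u ∈ K`, then `ρ ∩ K ⊆ {u, v}` contains `u` and has not card
  `1`, so it is `{u, v}`. Hence if `u ∈ K` and `u`, `v` are adjacent in the pair graph of `M` then
  `v ∈ K` and they are adjacent in the pair graph of `K`. By induction on walks: everything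
  reachable from `u ∈ K` in the pair graph of `M` is reachable in the pair graph of `K`. So the
  bound `L` carries over (the same for `K'`).
By induction on finite sets of good sets the core is good; it is the largest good subset of `U`.
-/

namespace Pool.Agent.H13.PZ

open Finset

theorem pairGraph_adj {n : ℕ} {rows : Finset (Finset (Fin n))} {K : Finset (Fin n)}
    {u v : Fin n} :
    (pairGraph rows K).Adj u v ↔ u ≠ v ∧ ∃ ρ ∈ rows, ρ ∩ K = {u, v} := by
  unfold pairGraph
  rw [SimpleGraph.fromRel_adj]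
  refine and_congr_right fun _ => ⟨?_, fun h => Or.inl h⟩
  rintro (h | ⟨ρ, hρ, e⟩)
  · exact h
  · exact ⟨ρ, hρ, by rw [e, Finset.pair_comm]⟩

theorem good_empty {n : ℕ} (rows : Finset (Finset (Fin n))) (L : ℕ) : Good rows L ∅ :=
  ⟨fun ρ _ => by simp, fun v hv => absurd hv (Finset.notMem_empty v)⟩

/-- in a union of two sets without rows with one element, adjacency stays inside -/
theorem adj_inside {n : ℕ} {rows : Finset (Finset (Fin n))} {K M : Finset (Fin n)}
    (hK : ∀ ρ ∈ rows, (ρ ∩ K).card ≠ 1) (hKM : K ⊆ M) {u v : Fin n} (hu : u ∈ K)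
    (h : (pairGraph rows M).Adj u v) : v ∈ K ∧ (pairGraph rows K).Adj u v := by
  rw [pairGraph_adj] at h
  obtain ⟨hne, ρ, hρ, e⟩ := h
  have huM : u ∈ ρ ∩ M := by rw [e]; simp
  have huρ : u ∈ ρ := (Finset.mem_inter.1 huM).1
  have hsub : ρ ∩ K ⊆ {u, v} := by
    rw [← e]
    exact Finset.inter_subset_inter_left hKM
  have huK : u ∈ ρ ∩ K := Finset.mem_inter.2 ⟨huρ, hu⟩
  have hvK : v ∈ ρ ∩ K := by
    by_contra hv
    apply hK ρ hρ
    rw [Finset.card_eq_one]
    refine ⟨u, Finset.Subset.antisymm ?_ (Finset.singleton_subset_iff.2 huK)⟩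
    intro z hz
    have := hsub hz
    simp only [Finset.mem_insert, Finset.mem_singleton] at this ⊢
    rcases this with h | h
    · exact h
    · exact absurd (h ▸ hz) hv
  have e2 : ρ ∩ K = {u, v} := Finset.Subset.antisymm hsub (by
    intro z hz
    simp only [Finset.mem_insert, Finset.mem_singleton] at hz
    rcases hz with h | h
    · rw [h]; exact huK
    · rw [h]; exact hvK)
  exact ⟨(Finset.mem_inter.1 hvK).2, pairGraph_adj.2 ⟨hne, ρ, hρ, e2⟩⟩

theorem reach_inside {n : ℕ} {rows : Finset (Finset (Fin n))} {K M : Finset (Fin n)}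
    (hK : ∀ ρ ∈ rows, (ρ ∩ K).card ≠ 1) (hKM : K ⊆ M) {u v : Fin n} (hu : u ∈ K)
    (h : (pairGraph rows M).Reachable u v) : v ∈ K ∧ (pairGraph rows K).Reachable u v := by
  obtain ⟨p⟩ := h
  induction p with
  | nil => exact ⟨hu, SimpleGraph.Reachable.refl _⟩
  | cons hadj p ih =>
    obtain ⟨h1, h2⟩ := adj_inside hK hKM hu hadj
    obtain ⟨h3, h4⟩ := ih h1
    exact ⟨h3, h2.reachable.trans h4⟩

theorem good_union {n : ℕ} {rows : Finset (Finset (Fin n))} {L : ℕ} {K K' : Finset (Fin n)}
    (h : Good rows L K) (h' : Good rows L K') : Good rows L (K ∪ K') := by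
  refine ⟨?_, ?_⟩
  · intro ρ hρ h1
    rw [Finset.card_eq_one] at h1
    obtain ⟨z, hz⟩ := h1
    have key : ∀ K₁ : Finset (Fin n), K₁ ⊆ K ∪ K' → (ρ ∩ K₁).card ≠ 1 → ρ ∩ K₁ = ∅ := by
      intro K₁ hs hc
      have hs2 : ρ ∩ K₁ ⊆ {z} := by
        rw [← hz]
        exact Finset.inter_subset_inter_left hs
      rcases Finset.subset_singleton_iff.1 hs2 with h | h
      · exact h
      · exact absurd (by rw [h]; simp) hc
    have h2 := key K Finset.subset_union_left (h.ne_one ρ hρ)
    have h3 := key K' Finset.subset_union_right (h'.ne_one ρ hρ)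
    rw [Finset.inter_union_distrib_left, h2, h3] at hz
    simp at hz
  · intro v hv
    rcases Finset.mem_union.1 hv with hv | hv
    · obtain ⟨Q, hQ, hr⟩ := h.small v hv
      exact ⟨Q, hQ, fun u hu => hr u (reach_inside h.ne_one Finset.subset_union_left hv hu).2⟩
    · obtain ⟨Q, hQ, hr⟩ := h'.small v hv
      exact ⟨Q, hQ, fun u hu => hr u (reach_inside h'.ne_one Finset.subset_union_right hv hu).2⟩

theorem core_subset {n : ℕ} (rows : Finset (Finset (Fin n))) (L : ℕ) (U : Finset (Fin n)) :
    core rows L U ⊆ U := by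
  classical
  unfold core
  rw [← Finset.le_iff_subset]
  refine Finset.sup_le fun K hK => ?_
  exact Finset.mem_powerset.1 (Finset.mem_filter.1 hK).1

theorem core_good {n : ℕ} (rows : Finset (Finset (Fin n))) (L : ℕ) (U : Finset (Fin n)) :
    Good rows L (core rows L U) := by
  classical
  unfold core
  exact Finset.sup_induction (p := Good rows L) (good_empty rows L)
    (fun a ha b hb => good_union ha hb) (fun K hK => (Finset.mem_filter.1 hK).2)

theorem subset_core {n : ℕ} {rows : Finset (Finset (Fin n))} {L : ℕ} {K U : Finset (Fin n)}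
    (h : Good rows L K) (hU : K ⊆ U) : K ⊆ core rows L U := by
  classical
  unfold core
  rw [← Finset.le_iff_subset]
  exact Finset.le_sup (f := id) (Finset.mem_filter.2 ⟨Finset.mem_powerset.2 hU, h⟩)

theorem core_mono {n : ℕ} {rows : Finset (Finset (Fin n))} {L : ℕ} {U U' : Finset (Fin n)}
    (h : U ⊆ U') : core rows L U ⊆ core rows L U' :=
  subset_core (core_good rows L U) ((core_subset rows L U).trans h)

/-- If `W` contains `core U`, lies in `U` and is not `core U` then either some row meets `W` in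
exactly one element, or some component of the pair graph of `W` that meets `W` has more than `L`
elements (otherwise `W` would be good, and larger than the core). -/
theorem not_good {n : ℕ} {rows : Finset (Finset (Fin n))} {L : ℕ} {U W : Finset (Fin n)}
    (h1 : core rows L U ⊆ W) (h2 : W ⊆ U) (h3 : W ≠ core rows L U) :
    (∃ ρ ∈ rows, (ρ ∩ W).card = 1) ∨
      ∃ v ∈ W, ∃ Q : Finset (Fin n), (∀ u, u ∈ Q ↔ (pairGraph rows W).Reachable v u) ∧
        L < Q.card := by
  classical
  by_contra hcon
  push_neg at hcon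
  obtain ⟨hc1, hc2⟩ := hcon
  apply h3
  refine Finset.Subset.antisymm (subset_core ⟨fun ρ hρ => hc1 ρ hρ, fun v hv => ?_⟩ h2) h1
  refine ⟨univ.filter fun u => (pairGraph rows W).Reachable v u, ?_, fun u hu => by simp [hu]⟩
  exact hc2 v hv _ (fun u => by simp)

end Pool.Agent.H13.PZ
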