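import Mathlib

/-!
# Cutting the colour classes into groups of at most `k` slots

Order the slots linearly (for example by `3 * p.1 + p.2`, which is injective). The rank of `p` is
the number of slots `p'` before `p` with `f p' = f p`; `γ p = (f p, rank p / k)`. Slots of one
colour have different ranks, so a group has at most `k` slots (their ranks lie in
`[q k, (q + 1) k)`). If the colour `c` has `m c` slots then the ranks are less than `m c`, so at most
`(m c - 1) / k + 1 ≤ m c / k + 1` groups have the colour `c` (none if `m c = 0`), and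
`∑ c, (m c / k + 1) ≤ (∑ c, m c) / k + r = 3 n / k + r`.
-/

namespace Pool.Agent.H13.PZ

open Finset

/-- number the slots -/
def Grp_e {n : ℕ} (p : Fin n × Fin 3) : ℕ := 3 * (p.1 : ℕ) + (p.2 : ℕ)

theorem Grp_inj {n : ℕ} {p p' : Fin n × Fin 3} (h : Grp_e p = Grp_e p') : p = p' := by
  unfold Grp_e at h
  have h1 := p.2.2
  have h2 := p'.2.2
  apply Prod.ext
  · apply Fin.ext
    omega
  · apply Fin.ext
    omega

/-- the rank of a slot -/
def Grp_rk {n r : ℕ} (f : Fin n × Fin 3 → Fin r) (p : Fin n × Fin 3) : ℕ :=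
  (univ.filter fun p' => f p' = f p ∧ Grp_e p' < Grp_e p).card

theorem Grp_lt {n r : ℕ} {f : Fin n × Fin 3 → Fin r} {p p' : Fin n × Fin 3} (hf : f p = f p')
    (h : Grp_e p < Grp_e p') : Grp_rk f p < Grp_rk f p' := by
  unfold Grp_rk
  apply card_lt_card
  rw [ssubset_iff_of_subset]
  · refine ⟨p, ?_, ?_⟩
    · rw [mem_filter]
      exact ⟨mem_univ _, hf, h⟩
    · rw [mem_filter]
      intro h3
      exact lt_irrefl _ h3.2.2
  · intro x hx
    rw [mem_filter] at hx ⊢
    exact ⟨mem_univ _, hx.2.1.trans hf, hx.2.2.trans h⟩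

theorem Grp_rkinj {n r : ℕ} {f : Fin n × Fin 3 → Fin r} {p p' : Fin n × Fin 3} (hf : f p = f p')
    (h : Grp_rk f p = Grp_rk f p') : p = p' := by
  rcases lt_trichotomy (Grp_e p) (Grp_e p') with h1 | h1 | h1
  · exact absurd h (Grp_lt hf h1).ne
  · exact Grp_inj h1
  · exact absurd h (Grp_lt hf.symm h1).ne'

theorem Grp_rklt {n r : ℕ} (f : Fin n × Fin 3 → Fin r) (p : Fin n × Fin 3) :
    Grp_rk f p < (univ.filter fun p' => f p' = f p).card := by
  unfold Grp_rk
  apply card_lt_card
  rw [ssubset_iff_of_subset]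
  · refine ⟨p, ?_, ?_⟩
    · rw [mem_filter]
      exact ⟨mem_univ _, rfl⟩
    · rw [mem_filter]
      intro h3
      exact lt_irrefl _ h3.2.2
  · intro x hx
    rw [mem_filter] at hx ⊢
    exact ⟨mem_univ _, hx.2.1⟩

theorem exists_groups {n r k : ℕ} (hk : 1 ≤ k) (f : Fin n × Fin 3 → Fin r) :
    ∃ γ : Fin n × Fin 3 → Fin r × ℕ, (∀ p, (γ p).1 = f p) ∧
      (∀ c, (univ.filter fun p => γ p = c).card ≤ k) ∧
      (univ.image γ).card ≤ 3 * n / k + r := by
  refine ⟨fun p => (f p, Grp_rk f p / k), fun _ => rfl, ?_, ?_⟩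
  · rintro ⟨c, q⟩
    have h1 : ∀ p ∈ univ.filter (fun p => (f p, Grp_rk f p / k) = (c, q)),
        Grp_rk f p ∈ Ico (q * k) (q * k + k) := by
      intro p hp
      rw [mem_filter] at hp
      have h2 : Grp_rk f p / k = q := (Prod.mk.inj hp.2).2
      rw [mem_Ico, ← h2]
      have h3 := Nat.div_add_mod (Grp_rk f p) k
      have h4 := Nat.mod_lt (Grp_rk f p) hk
      have h5 : k * (Grp_rk f p / k) = Grp_rk f p / k * k := mul_comm _ _
      omega
    have h2 := card_le_card_of_injOn (Grp_rk f) h1 (fun p hp p' hp' h => by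
      rw [mem_coe, mem_filter] at hp hp'
      have h3 : f p = c := (Prod.mk.inj hp.2).1
      have h4 : f p' = c := (Prod.mk.inj hp'.2).1
      exact Grp_rkinj (h3.trans h4.symm) h)
    rw [Nat.card_Ico, Nat.add_sub_cancel_left] at h2
    exact h2
  · have hsub : univ.image (fun p => (f p, Grp_rk f p / k)) ⊆
        (univ : Finset (Fin r)).biUnion (fun c =>
          (range ((univ.filter fun p' => f p' = c).card / k + 1)).image (fun q => (c, q))) := by
      intro x hx
      rw [mem_image] at hx
      obtain ⟨p, _, rfl⟩ := hx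
      rw [mem_biUnion]
      refine ⟨f p, mem_univ _, ?_⟩
      rw [mem_image]
      refine ⟨Grp_rk f p / k, ?_, rfl⟩
      rw [mem_range]
      have := Nat.div_le_div_right (c := k) (Grp_rklt f p).le
      omega
    refine (card_le_card hsub).trans ?_
    refine card_biUnion_le.trans ?_
    have h1 : ∀ c ∈ (univ : Finset (Fin r)),
        ((range ((univ.filter fun p' => f p' = c).card / k + 1)).image
          (fun q => (c, q))).card ≤ (univ.filter fun p' => f p' = c).card / k + 1 := by
      intro c _
      refine card_image_le.trans ?_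
      rw [card_range]
    refine (sum_le_sum h1).trans ?_
    rw [sum_add_distrib, sum_const, card_univ, Fintype.card_fin, smul_eq_mul, mul_one]
    refine Nat.add_le_add_right ?_ r
    rw [Nat.le_div_iff_mul_le hk, sum_mul]
    have h2 : ∑ c : Fin r, (univ.filter fun p' => f p' = c).card = 3 * n := by
      have h3 := card_eq_sum_card_fiberwise (s := (univ : Finset (Fin n × Fin 3)))
        (t := (univ : Finset (Fin r))) (f := f) (fun x _ => mem_coe.2 (mem_univ (f x)))
      rw [← h3, card_univ, Fintype.card_prod, Fintype.card_fin, Fintype.card_fin]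
      ring
    rw [← h2]
    exact sum_le_sum fun c _ => Nat.div_mul_le_self _ _

end Pool.Agent.H13.PZ
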