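import Pool.Agent.H13.PZ.For

/-!
# Local reasoning does not infer `x`

Say that `J ⊆ I` implies `P` if every `a` in `InH K x` with `(V i ∩ zeros a).card` even for all
`i ∈ J` satisfies `P`. All `a` in `InH K x` extend `α`.
(1) Boundary: if `J ⊆ I` implies `P` and no proper subset of `J` does, then `P` depends on every
`v ∈ bdry V J`, `v ≠ x`: if `W` is a set as in `Narrow` for `P` then `v ∈ W`. Indeed let `i ∈ J` be
the only index in `J` with `v ∈ V i`. `J.erase i` does not imply `P`: there is `a` in `InH K x`,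
even on all `j ∈ J`, `j ≠ i`, with `¬ P a`. It is odd on `i`. Flip `v`: `a' = update a v (!a v)` lies
in `InH K x` (`v ∈ V i ⊆ K`, `v ≠ x`), it is even on `i` (`v ∈ V i`) and unchanged on the others.
So `P a'`. If `v ∉ W` then `P a ↔ P a'`, a contradiction. So `(bdry V J).card ≤ w + 1`.
(2) Every derived `P` is implied by some `J ⊆ I` with `|J| ≤ m`. Base: each of the at most `w ≤ m`
clauses of `G` is satisfied on `InH K x` or falsified only where one parity constraint fails
(`ParSys.cl`); take these constraints. Step: the union `J` for `P` and `Q` implies `R` and has at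
most `2 m` elements; take a minimal subset of `J` that implies `R`; it is empty or
`|J| ≤ Γ |bdry| ≤ Γ (w + 1) ≤ m` by (1) and `ParSys.bd`.
(3) If `a x = true` were derived, some `J`, `|J| ≤ m`, would imply it; take `J` minimal. `J` is not
empty (`InH K x` is not empty: true everywhere but at `x`). The property `False` is what `a x = true`
says on `InH K x`; by (1) with `P` constantly `False` (which `J` also implies minimally, and which
is narrow with `W = ∅`), `bdry V J ⊆ {x}`, against `2 ≤ |bdry|`.
-/

namespace Pool.Agent.H13.PZ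

open Finset

/-- the constraints `J` imply `P` -/
def LocImp {n : ℕ} (K : Finset (Fin n)) (x : Fin n) {ι : Type} (V : ι → Finset (Fin n))
    (J : Finset ι) (P : (Fin n → Bool) → Prop) : Prop :=
  ∀ a, InH K x a → (∀ i ∈ J, Even (V i ∩ zeros a).card) → P a

theorem Loc_zeros_true {n : ℕ} {a : Fin n → Bool} {v : Fin n} (hv : a v = true)
    {W : Finset (Fin n)} (hW : v ∈ W) :
    (W ∩ zeros (Function.update a v (!a v))).card = (W ∩ zeros a).card + 1 := by
  have h : W ∩ zeros (Function.update a v (!a v)) = insert v (W ∩ zeros a) := by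
    ext u
    rw [mem_inter, mem_zeros, mem_insert, mem_inter, mem_zeros]
    by_cases hu : u = v
    · rw [hu, Function.update_self, hv]
      simp [hW]
    · rw [Function.update_of_ne hu]
      simp [hu]
  rw [h, card_insert_of_notMem]
  rw [mem_inter, mem_zeros, hv]
  simp

theorem Loc_flip {n : ℕ} {a : Fin n → Bool} {v : Fin n} {W : Finset (Fin n)} (hW : v ∈ W)
    (ho : ¬ Even (W ∩ zeros a).card) : Even (W ∩ zeros (Function.update a v (!a v))).card := by
  cases hv : a v with
  | true =>
    rw [← hv, Loc_zeros_true hv hW, Nat.even_add_one]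
    exact ho
  | false =>
    have h1 : (Function.update a v (!a v)) v = true := by
      rw [Function.update_self, hv]
      rfl
    have h2 := Loc_zeros_true h1 hW
    have h3 : Function.update (Function.update a v (!a v)) v
        (!(Function.update a v (!a v)) v) = a := by
      rw [Function.update_self, Bool.not_not, Function.update_idem, Function.update_eq_self]
    rw [h3] at h2
    rw [h2, Nat.even_add_one, not_not, hv] at ho
    exact ho

theorem Loc_same {n : ℕ} {a : Fin n → Bool} {v : Fin n} {W : Finset (Fin n)} (hW : v ∉ W) :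
    W ∩ zeros (Function.update a v (!a v)) = W ∩ zeros a := by
  ext u
  rw [mem_inter, mem_inter, mem_zeros, mem_zeros]
  by_cases hu : u = v
  · rw [hu]
    simp [hW]
  · rw [Function.update_of_ne hu]

theorem Loc_bd {n : ℕ} {K : Finset (Fin n)} {x : Fin n} {ι : Type}
    {V : ι → Finset (Fin n)} {J : Finset ι} (hV : ∀ i ∈ J, V i ⊆ K)
    {α : PAss n} (hα : ∀ a, InH K x a → Ext α a) {P : (Fin n → Bool) → Prop} {W : Finset (Fin n)}
    (hJ : LocImp K x V J P) (hmin : ∀ J' ⊂ J, ¬ LocImp K x V J' P)
    (hP : ∀ a a', Ext α a → Ext α a' → (∀ v ∈ W, a v = a' v) → (P a ↔ P a')) :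
    bdry V J ⊆ insert x W := by
  classical
  intro v hv
  rw [mem_insert]
  by_contra hcon
  rw [not_or] at hcon
  obtain ⟨hvx, hvW⟩ := hcon
  unfold bdry at hv
  rw [mem_filter, card_eq_one] at hv
  obtain ⟨_, i, hi⟩ := hv
  have hmem : ∀ j, j ∈ J → v ∈ V j → j = i := by
    intro j hj hvj
    have h1 : j ∈ J.filter (fun i => v ∈ V i) := mem_filter.2 ⟨hj, hvj⟩
    rw [hi, mem_singleton] at h1
    exact h1
  have hiJ : i ∈ J ∧ v ∈ V i := by
    have h1 : i ∈ J.filter (fun i => v ∈ V i) := by
      rw [hi]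
      exact mem_singleton_self i
    exact mem_filter.1 h1
  have h1 := hmin (J.erase i) (erase_ssubset hiJ.1)
  unfold LocImp at h1
  push Not at h1
  obtain ⟨a, ha1, ha2, ha3⟩ := h1
  have hodd : ¬ Even (V i ∩ zeros a).card := by
    intro he
    refine ha3 (hJ a ha1 fun j hj => ?_)
    by_cases hji : j = i
    · rw [hji]
      exact he
    · exact ha2 j (mem_erase.2 ⟨hji, hj⟩)
  have ha' : InH K x (Function.update a v (!a v)) := by
    constructor
    · intro u hu
      have huv : u ≠ v := by
        rintro rfl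
        exact hu (hV i hiJ.1 hiJ.2)
      rw [Function.update_of_ne huv]
      exact ha1.1 u hu
    · rw [Function.update_of_ne (Ne.symm hvx)]
      exact ha1.2
  have hPa' : P (Function.update a v (!a v)) := by
    refine hJ _ ha' fun j hj => ?_
    by_cases hji : j = i
    · rw [hji]
      exact Loc_flip hiJ.2 hodd
    · have hvj : v ∉ V j := fun h => hji (hmem j hj h)
      rw [Loc_same hvj]
      exact ha2 j (mem_erase.2 ⟨hji, hj⟩)
  refine ha3 ((hP a _ (hα a ha1) (hα _ ha') fun u hu => ?_).2 hPa')
  have huv : u ≠ v := by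
    rintro rfl
    exact hvW hu
  rw [Function.update_of_ne huv]

theorem Loc_min {n : ℕ} {K : Finset (Fin n)} {x : Fin n} {ι : Type}
    {V : ι → Finset (Fin n)} {P : (Fin n → Bool) → Prop} (J : Finset ι) (hJ : LocImp K x V J P) :
    ∃ J' ⊆ J, LocImp K x V J' P ∧ ∀ J'' ⊂ J', ¬ LocImp K x V J'' P := by
  induction J using Finset.strongInduction with
  | H J ih =>
    by_cases h : ∃ J'' ⊂ J, LocImp K x V J'' P
    · obtain ⟨J'', h1, h2⟩ := h
      obtain ⟨J', h3, h4⟩ := ih J'' h1 h2
      exact ⟨J', h3.trans h1.subset, h4⟩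
    · push Not at h
      exact ⟨J, Subset.refl _, hJ, h⟩

theorem Loc_all {n : ℕ} {F : CNF n} {K : Finset (Fin n)} {x : Fin n} {ι : Type}
    {I : Finset ι} {V : ι → Finset (Fin n)} {m Γ w : ℕ} (h : ParSys F K x I V m Γ)
    {α : PAss n} (hα : ∀ a, InH K x a → Ext α a) (hw : w ≤ m) (hm : Γ * (w + 1) ≤ m)
    {P : (Fin n → Bool) → Prop} (hP : Local F α w P) :
    ∃ J ⊆ I, J.card ≤ m ∧ LocImp K x V J P := by
  classical
  induction hP with
  | base G P hGF hGw hN hGP =>
    have h1 : ∀ C, ∃ S : Finset ι, C ∈ G → (S ⊆ I ∧ S.card ≤ 1 ∧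
        ∀ a, InH K x a → (∀ i ∈ S, Even (V i ∩ zeros a).card) → ClauseSat a C) := by
      intro C
      by_cases hC : C ∈ G
      · rcases h.cl C (hGF hC) with h2 | ⟨i, hi, h2⟩
        · exact ⟨∅, fun _ => ⟨empty_subset _, by simp, fun a ha _ => h2 a ha⟩⟩
        · refine ⟨{i}, fun _ => ⟨singleton_subset_iff.2 hi, by simp, fun a ha hev => ?_⟩⟩
          by_contra hns
          have h3 := h2 a ha hns
          exact (Nat.not_even_iff_odd.2 h3) (hev i (mem_singleton_self i))
      · exact ⟨∅, fun h => absurd h hC⟩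
    choose S hS using h1
    refine ⟨G.biUnion S, ?_, ?_, ?_⟩
    · intro i hi
      rw [mem_biUnion] at hi
      obtain ⟨C, hC, hi⟩ := hi
      exact (hS C hC).1 hi
    · calc (G.biUnion S).card ≤ ∑ C ∈ G, (S C).card := card_biUnion_le
        _ ≤ ∑ _C ∈ G, 1 := sum_le_sum fun C hC => (hS C hC).2.1
        _ = G.card := by simp
        _ ≤ m := hGw.trans hw
    · intro a ha hev
      refine hGP a (hα a ha) fun C hC => ?_
      exact (hS C hC).2.2 a ha fun i hi => hev i (mem_biUnion.2 ⟨C, hC, hi⟩)
  | step P Q R _ _ hN hR ih1 ih2 =>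
    obtain ⟨J1, h1, h2, h3⟩ := ih1
    obtain ⟨J2, h4, h5, h6⟩ := ih2
    have h7 : LocImp K x V (J1 ∪ J2) R := by
      intro a ha hev
      refine hR a (hα a ha) (h3 a ha fun i hi => hev i (mem_union_left _ hi))
        (h6 a ha fun i hi => hev i (mem_union_right _ hi))
    obtain ⟨J, h8, h9, h10⟩ := Loc_min _ h7
    have hJI : J ⊆ I := h8.trans (union_subset h1 h4)
    refine ⟨J, hJI, ?_, h9⟩
    have hcard : J.card ≤ 2 * m + 1 := by
      have e1 := card_le_card h8
      have e2 := card_union_le J1 J2
      omega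
    rcases J.eq_empty_or_nonempty with he | hne
    · rw [he]
      simp
    · obtain ⟨W, hW1, hW2⟩ := hN
      have h11 := Loc_bd (fun i hi => h.sub i (hJI hi)) hα h9 h10 hW2
      have h12 : (bdry V J).card ≤ w + 1 := by
        have e1 := card_le_card h11
        have e2 := card_insert_le x W
        omega
      have h13 := (h.bd J hJI hne hcard).2
      calc J.card ≤ Γ * (bdry V J).card := h13
        _ ≤ Γ * (w + 1) := Nat.mul_le_mul_left _ h12
        _ ≤ m := hm

theorem not_local {n : ℕ} {F : CNF n} {K : Finset (Fin n)} {x : Fin n} {ι : Type}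
    {I : Finset ι} {V : ι → Finset (Fin n)} {m Γ w : ℕ} (h : ParSys F K x I V m Γ)
    {α : PAss n} (hα : ∀ a, InH K x a → Ext α a) (hw : w ≤ m) (hm : Γ * (w + 1) ≤ m) :
    ¬ Local F α w (fun a => a x = true) := by
  classical
  intro hL
  obtain ⟨J, h1, h2, h3⟩ := Loc_all h hα hw hm hL
  have h4 : LocImp K x V J (fun _ => False) := by
    intro a ha hev
    have h5 : a x = true := h3 a ha hev
    rw [ha.2] at h5
    exact Bool.false_ne_true h5
  obtain ⟨J', h5, h6, h7⟩ := Loc_min _ h4
  have hJI : J' ⊆ I := h5.trans h1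
  have hne : J'.Nonempty := by
    rw [nonempty_iff_ne_empty]
    rintro rfl
    refine h6 (fun v => if v = x then false else true) ⟨?_, by simp⟩ (by simp)
    intro v hv
    have hvx : v ≠ x := by
      rintro rfl
      exact hv h.hx
    simp [hvx]
  have hcard : J'.card ≤ 2 * m + 1 := by
    have := card_le_card h5
    omega
  have h8 := Loc_bd (W := ∅) (fun i hi => h.sub i (hJI hi)) hα h6 h7 (fun _ _ _ _ _ => Iff.rfl)
  have h9 := (h.bd J' hJI hne hcard).1
  have h10 := card_le_card h8
  simp at h10
  omega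

end Pool.Agent.H13.PZ
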