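import Pool.Agent.H13.PZ.Bdi
import Pool.Agent.H13.PZ.For
import Pool.Agent.H13.PZ.Gd

/-!
# The parity system on a good set

`K` good, `x ∈ K`. Index set: the rows `ρ` (tag `inl`) that meet `K`, with `V = ρ ∩ K`, and the
triples `t ⊆ K` (tag `inr`), with `V = t`.
`SpSys` (with `G = pairGraph rows K`):
* `two_le`: `ρ ∩ K` is nonempty and has not card `1`. A triple `t ⊆ K` has card `3`: otherwise
  `trip_card` gives `v ∈ t ⊆ K` with `{v} ∈ rows`, and `({v} ∩ K).card = 1`, against `K` good.
* `le_k`: `row_card`, `3 ≤ k`. `adj`: `(ρ ∩ K).card = 2` and `u ≠ v` in `ρ ∩ K` give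
  `ρ ∩ K = {u, v}`; a triple has card `3`. `small`: `Good.small`.
* `sparse`: with `S = J.toLeft`, `T = J.toRight` (`Finset.toLeft`, `Finset.toRight`):
  `∑ i ∈ J, |V i ∩ X| ≤ ∑ ρ ∈ S, |ρ ∩ X| + ∑ t ∈ T, |t ∩ X|`, the rows in `S` have card `≥ 2`; use
  `Sys.sparse`. `forest`: the same with `Sys.forest`; for `v ∈ X ⊆ K`, `{v} ∉ rows` as `K` is good.
Then `bd` is `bdry_le`. `cl`: let `C = rowClause ρ v`, `v ∈ ρ`. If `v ∉ K` every `a` in `InH K x` has
`a v = true` and satisfies `C`. If `v ∈ K` take `i = inl ρ`: `C` falsified means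
`ρ ∩ zeros a = {v}`, so `(ρ ∩ K) ∩ zeros a = {v}` has card `1`. Let `C = posClause t`. If `t ⊆ K`
take `inr t`: falsified means `t ⊆ zeros a`, so `t ∩ zeros a = t` has card `3`. Otherwise some
`v ∈ t` is not in `K`, `a v = true`, and `C` is satisfied.
-/

namespace Pool.Agent.H13.PZ

open Finset

open Classical in
theorem Par_sum {n : ℕ} {K X : Finset (Fin n)} (J : Finset (Finset (Fin n) ⊕ Finset (Fin n))) :
    ∑ i ∈ J, ((Sum.elim (fun ρ => ρ ∩ K) id i : Finset (Fin n)) ∩ X).card ≤
      ∑ ρ ∈ J.toLeft, (ρ ∩ X).card + ∑ t ∈ J.toRight, (t ∩ X).card := by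
  rw [Finset.sum_sum_eq_sum_toLeft_add_sum_toRight J]
  refine Nat.add_le_add (Finset.sum_le_sum fun ρ _ => ?_) (Finset.sum_le_sum fun t _ => le_rfl)
  exact card_le_card (inter_subset_inter_right inter_subset_left)

open Classical in
theorem parSys {n k L q N₀ m : ℕ} {rows trips : Finset (Finset (Fin n))}
    (h : Sys rows trips k q (16 * L * k) N₀) (hk : 3 ≤ k) (hL : 1 ≤ L) (hq : 28 * L * k ≤ q)
    (hm : (k + 1) * (2 * m + 1) ≤ N₀) {K : Finset (Fin n)} (hK : Good rows L K) {x : Fin n}
    (hx : x ∈ K) :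
    ParSys (formula rows trips) K x
      ((rows.filter fun ρ => (ρ ∩ K).Nonempty).disjSum (trips.filter fun t => t ⊆ K))
      (Sum.elim (fun ρ => ρ ∩ K) id) m (8 * L * k) := by
  have hrow : ∀ ρ ∈ rows, (ρ ∩ K).Nonempty → 2 ≤ (ρ ∩ K).card := by
    intro ρ hρ hne
    have h1 := hK.ne_one ρ hρ
    have h2 := hne.card_pos
    omega
  have hnoK : ∀ v ∈ K, {v} ∉ rows := by
    intro v hv hmem
    apply hK.ne_one _ hmem
    rw [singleton_inter_of_mem hv, card_singleton]
  have htrip : ∀ t ∈ trips, t ⊆ K → t.card = 3 := by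
    intro t ht htK
    rcases (h.trip_card t ht).2.2 with h3 | ⟨v, hv, hmem⟩
    · exact h3
    · exact absurd hmem (hnoK v (htK hv))
  have hI : ∀ {J : Finset (Finset (Fin n) ⊕ Finset (Fin n))},
      J ⊆ (rows.filter fun ρ => (ρ ∩ K).Nonempty).disjSum (trips.filter fun t => t ⊆ K) →
      J.toLeft ⊆ rows ∧ J.toRight ⊆ trips ∧ ∀ ρ ∈ J.toLeft, 2 ≤ ρ.card := by
    intro J hJ
    refine ⟨fun ρ hρ => ?_, fun t ht => ?_, fun ρ hρ => ?_⟩
    · have := hJ (mem_toLeft.1 hρ)
      rw [inl_mem_disjSum, mem_filter] at this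
      exact this.1
    · have := hJ (mem_toRight.1 ht)
      rw [inr_mem_disjSum, mem_filter] at this
      exact this.1
    · have := hJ (mem_toLeft.1 hρ)
      rw [inl_mem_disjSum, mem_filter] at this
      exact (hrow ρ this.1 this.2).trans (card_le_card inter_subset_left)
  have hsp : SpSys (Sum.elim (fun ρ => ρ ∩ K) id)
      ((rows.filter fun ρ => (ρ ∩ K).Nonempty).disjSum (trips.filter fun t => t ⊆ K))
      (pairGraph rows K) K k L q N₀ := by
    refine ⟨?_, ?_, ?_, ?_, hK.small, ?_, ?_⟩
    · rintro (ρ | t) hi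
      · rw [inl_mem_disjSum, mem_filter] at hi
        exact hrow ρ hi.1 hi.2
      · rw [inr_mem_disjSum, mem_filter] at hi
        change 2 ≤ t.card
        rw [htrip t hi.1 hi.2]
        norm_num
    · rintro (ρ | t) hi
      · rw [inl_mem_disjSum, mem_filter] at hi
        exact (card_le_card inter_subset_left).trans (h.row_card ρ hi.1).2
      · rw [inr_mem_disjSum, mem_filter] at hi
        exact (h.trip_card t hi.1).2.1.trans hk
    · rintro (ρ | t) hi
      · exact inter_subset_right
      · rw [inr_mem_disjSum, mem_filter] at hi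
        exact hi.2
    · rintro (ρ | t) hi hc u hu v hv huv
      · rw [inl_mem_disjSum, mem_filter] at hi
        refine pairGraph_adj.2 ⟨huv, ρ, hi.1, ?_⟩
        change (ρ ∩ K).card = 2 at hc
        change u ∈ ρ ∩ K at hu
        change v ∈ ρ ∩ K at hv
        symm
        refine eq_of_subset_of_card_le ?_ ?_
        · intro w hw
          rcases mem_insert.1 hw with rfl | hw
          · exact hu
          · rw [mem_singleton.1 hw]
            exact hv
        · rw [hc, card_pair huv]
      · rw [inr_mem_disjSum, mem_filter] at hi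
        change t.card = 2 at hc
        rw [htrip t hi.1 hi.2] at hc
        omega
    · intro J hJ X hX
      obtain ⟨h1, h2, h3⟩ := hI hJ
      have hc : J.toLeft.card + J.toRight.card = J.card := card_toLeft_add_card_toRight
      have := h.sparse J.toLeft h1 J.toRight h2 X h3 (by rw [hc]; exact hX)
      rw [hc] at this
      exact (Nat.mul_le_mul_left q (Par_sum J)).trans this
    · intro J hJ X hXK h0 hle
      obtain ⟨h1, h2, h3⟩ := hI hJ
      have hc : J.toLeft.card + J.toRight.card = J.card := card_toLeft_add_card_toRight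
      have := h.forest J.toLeft h1 J.toRight h2 X h3 (fun v hv => hnoK v (hXK hv))
        (by rw [hc]; exact h0) (by rw [hc]; exact hle)
      rw [hc] at this
      exact (Nat.add_le_add_right (Par_sum J) 1).trans this
  refine ⟨hx, hsp.sub, ?_, ?_⟩
  · intro J hJ hne hcard
    exact bdry_le hsp (by omega) hL hq J hJ hne ((Nat.mul_le_mul_left _ hcard).trans hm)
  · intro C hC
    rcases mem_formula.1 hC with ⟨ρ, hρ, v, hv, rfl⟩ | ⟨t, ht, rfl⟩
    · by_cases hvK : v ∈ K
      · right
        refine ⟨Sum.inl ρ, ?_, fun a _ hun => ?_⟩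
        · rw [inl_mem_disjSum, mem_filter]
          exact ⟨hρ, v, mem_inter.2 ⟨hv, hvK⟩⟩
        · have h1 := (rowClause_unsat hv a).1 hun
          change Odd ((ρ ∩ K) ∩ zeros a).card
          rw [inter_right_comm, h1, singleton_inter_of_mem hvK, card_singleton]
          exact odd_one
      · left
        intro a ha
        exact ⟨(v, true), mem_insert_self _ _, ha.1 v hvK⟩
    · by_cases htK : t ⊆ K
      · right
        refine ⟨Sum.inr t, ?_, fun a _ hun => ?_⟩
        · rw [inr_mem_disjSum, mem_filter]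
          exact ⟨ht, htK⟩
        · have h1 := (posClause_unsat t a).1 hun
          change Odd (t ∩ zeros a).card
          rw [inter_eq_left.2 h1, htrip t ht htK]
          decide
      · left
        intro a ha
        obtain ⟨v, hv, hvK⟩ := not_subset.1 htK
        exact ⟨(v, true), mem_image.2 ⟨v, hv, rfl⟩, ha.1 v hvK⟩

end Pool.Agent.H13.PZ
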