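import Pool.Agent.H13.PZ.Sys

/-!
# Soundness of inference
-/

namespace Pool.Agent.H13.PZ

open Finset

theorem local_sound {n : ℕ} {F : CNF n} {α : PAss n} {w : ℕ} {P : (Fin n → Bool) → Prop}
    (h : Local F α w P) (a : Fin n → Bool) (ha : Ext α a) (hF : Sat F a) : P a := by
  induction h with
  | base G P hG _ _ h => exact h a ha fun C hC => hF C (hG hC)
  | step P Q R _ _ _ h ih1 ih2 => exact h a ha ih1 ih2

theorem sos_sound {n : ℕ} {F : CNF n} {α : PAss n} {d : ℕ} {x : Fin n} {b : Bool}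
    (h : Sos F α d x b) (a : Fin n → Bool) (ha : Ext α a) (hF : Sat F a) : a x = b := by
  by_contra hne
  obtain ⟨m, q, g, _, hg, he⟩ := h
  have h1 := he a ha hne
  have h2 : ∑ C ∈ F, g C a = 0 := Finset.sum_eq_zero fun C hC => (hg C hC).2 a (hF C hC)
  have h3 : 0 ≤ ∑ j, q j a ^ 2 := Finset.sum_nonneg fun j _ => sq_nonneg _
  linarith

theorem infer_sound {n : ℕ} {F : CNF n} {α : PAss n} {w : ℕ} {x : Fin n} {b : Bool}
    (h : Infer F α w x b) (a : Fin n → Bool) (ha : Ext α a) (hF : Sat F a) : a x = b := by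
  rcases h with h | h
  · exact local_sound h a ha hF
  · exact sos_sound h a ha hF

end Pool.Agent.H13.PZ
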