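import Mathlib

/-!
# Matrices with entries 0, 1, -1 from an equivalence relation with signs are positive semidefinite

`M a a = 1`, `M` symmetric, entries in `{0, 1, -1}`, and `M a b ≠ 0`, `M b c ≠ 0` imply
`M a c = M a b * M b c`. So `M a b ≠ 0` is an equivalence relation on `P`. Choose a representative
`r a` of the class of `a` (a function with `M a (r a) ≠ 0` and `r a = r b` whenever `M a b ≠ 0`, for
example from `Quotient.out` of the setoid) and put `ε a = M a (r a)`. Then
`M a b = if r a = r b then ε a * ε b else 0` (if `r a = r b = z` then `M a b = M a z * M z b`; if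
`M a b ≠ 0` then `r a = r b`). So the sum is `∑ z, (∑ a with r a = z, c a * ε a) ^ 2 ≥ 0`.
-/

namespace Pool.Agent.H13.PZ

open Finset

open Classical in
/-- the size of a class -/
noncomputable def Psd_N {T : Type} (P : Finset T) (M : T → T → ℝ) (z : T) : ℝ :=
  ((P.filter (fun b => M z b ≠ 0)).card : ℝ)

theorem psd_of_sign {T : Type} [DecidableEq T] (P : Finset T) (M : T → T → ℝ)
    (h1 : ∀ a ∈ P, M a a = 1) (h2 : ∀ a ∈ P, ∀ b ∈ P, M a b = M b a)
    (h3 : ∀ a ∈ P, ∀ b ∈ P, M a b = 0 ∨ M a b = 1 ∨ M a b = -1)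
    (h4 : ∀ a ∈ P, ∀ b ∈ P, ∀ c ∈ P, M a b ≠ 0 → M b c ≠ 0 → M a c = M a b * M b c)
    (c : T → ℝ) : 0 ≤ ∑ a ∈ P, ∑ b ∈ P, c a * c b * M a b := by
  classical
  have hN0 : ∀ z, 0 ≤ Psd_N P M z := fun z => Nat.cast_nonneg _
  have hNp : ∀ z ∈ P, 0 < Psd_N P M z := by
    intro z hz
    unfold Psd_N
    rw [Nat.cast_pos, card_pos]
    refine ⟨z, mem_filter.2 ⟨hz, ?_⟩⟩
    rw [h1 z hz]
    exact one_ne_zero
  have hNe : ∀ a ∈ P, ∀ z ∈ P, M a z ≠ 0 → Psd_N P M z = Psd_N P M a := by
    intro a ha z hz haz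
    unfold Psd_N
    have : P.filter (fun b => M z b ≠ 0) = P.filter (fun b => M a b ≠ 0) := by
      refine filter_congr fun y hy => ⟨fun h => ?_, fun h => ?_⟩
      · rw [h4 a ha z hz y hy haz h]
        exact mul_ne_zero haz h
      · have hza : M z a ≠ 0 := by rw [h2 z hz a ha]; exact haz
        rw [h4 z hz a ha y hy hza h]
        exact mul_ne_zero hza h
    rw [this]
  have key : ∀ a ∈ P, ∀ b ∈ P, ∑ z ∈ P, (Psd_N P M z)⁻¹ * (M a z * M b z) = M a b := by
    intro a ha b hb
    by_cases hab : M a b = 0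
    · rw [hab]
      refine sum_eq_zero fun z hz => ?_
      by_cases haz : M a z = 0
      · rw [haz]
        ring
      by_cases hbz : M b z = 0
      · rw [hbz]
        ring
      exfalso
      have hzb : M z b ≠ 0 := by rw [h2 z hz b hb]; exact hbz
      have := h4 a ha z hz b hb haz hzb
      rw [hab] at this
      exact mul_ne_zero haz hzb this.symm
    · have hba : M b a ≠ 0 := by rw [h2 b hb a ha]; exact hab
      have e1 : ∀ z ∈ P, (Psd_N P M z)⁻¹ * (M a z * M b z) =
          if M a z ≠ 0 then (Psd_N P M a)⁻¹ * M a b else 0 := by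
        intro z hz
        by_cases haz : M a z = 0
        · rw [if_neg (not_not.2 haz), haz]
          ring
        · rw [if_pos haz, hNe a ha z hz haz, h4 b hb a ha z hz hba haz, h2 b hb a ha]
          have hsq : M a z * M a z = 1 := by
            rcases h3 a ha z hz with h | h | h
            · exact absurd h haz
            · rw [h]; ring
            · rw [h]; ring
          linear_combination (Psd_N P M a)⁻¹ * M a b * hsq
      rw [sum_congr rfl e1, ← sum_filter, sum_const, nsmul_eq_mul]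
      have e2 : ((P.filter (fun z => M a z ≠ 0)).card : ℝ) = Psd_N P M a := rfl
      rw [e2, ← mul_assoc, mul_inv_cancel₀ (hNp a ha).ne', one_mul]
  have main : ∑ a ∈ P, ∑ b ∈ P, c a * c b * M a b =
      ∑ z ∈ P, (Psd_N P M z)⁻¹ * (∑ a ∈ P, c a * M a z) ^ 2 := by
    have e1 : ∀ z ∈ P, (Psd_N P M z)⁻¹ * (∑ a ∈ P, c a * M a z) ^ 2 =
        ∑ a ∈ P, ∑ b ∈ P, c a * c b * ((Psd_N P M z)⁻¹ * (M a z * M b z)) := by
      intro z _
      rw [pow_two, sum_mul_sum, mul_sum]
      refine sum_congr rfl fun a _ => ?_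
      rw [mul_sum]
      refine sum_congr rfl fun b _ => ?_
      ring
    rw [sum_congr rfl e1]
    symm
    rw [sum_comm]
    refine sum_congr rfl fun a ha => ?_
    rw [sum_comm]
    refine sum_congr rfl fun b hb => ?_
    rw [← mul_sum, key a ha b hb]
  rw [main]
  exact sum_nonneg fun z _ => mul_nonneg (inv_nonneg.2 (hN0 z)) (sq_nonneg _)

end Pool.Agent.H13.PZ
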