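import Pool.Agent.H13.PZ.For

/-!
# Characters on `InH K x`
-/

namespace Pool.Agent.H13.PZ

open Finset

/-- The character of the set `T`. -/
def sg {n : ℕ} (T : Finset (Fin n)) (a : Fin n → Bool) : ℝ :=
  ∏ v ∈ T, (if a v = true then (1 : ℝ) else -1)

open Classical in
/-- The finite set of assignments in `InH K x`. -/
noncomputable def setH {n : ℕ} (K : Finset (Fin n)) (x : Fin n) : Finset (Fin n → Bool) :=
  univ.filter fun a => InH K x a

/-- `c` are the coefficients of `g`, of degree at most `d`, on `InH K x`. -/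
def Deg {n : ℕ} (K : Finset (Fin n)) (x : Fin n) (d : ℕ) (c : Finset (Fin n) → ℝ)
    (g : (Fin n → Bool) → ℝ) : Prop :=
  (∀ T, c T ≠ 0 → T ⊆ K.erase x ∧ T.card ≤ d) ∧ ∀ a, InH K x a → g a = ∑ T, c T * sg T a

theorem SosB_mem {n : ℕ} {K : Finset (Fin n)} {x : Fin n} {a : Fin n → Bool} :
    a ∈ setH K x ↔ InH K x a := by
  classical
  unfold setH
  rw [mem_filter]
  exact ⟨fun h => h.2, fun h => ⟨mem_univ _, h⟩⟩

theorem setH_nonempty {n : ℕ} (K : Finset (Fin n)) (x : Fin n) (hx : x ∈ K) :
    (setH K x).Nonempty := by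
  refine ⟨fun v => decide (v ≠ x), ?_⟩
  rw [SosB_mem]
  refine ⟨fun v hv => ?_, by simp⟩
  have : v ≠ x := fun h => hv (h ▸ hx)
  simpa using this

theorem SosB_univ {n : ℕ} (T : Finset (Fin n)) (a : Fin n → Bool) :
    sg T a = ∏ v, if v ∈ T then (if a v = true then (1 : ℝ) else -1) else 1 := by
  unfold sg
  rw [Finset.prod_ite_mem, univ_inter]

theorem sg_mul {n : ℕ} (T T' : Finset (Fin n)) (a : Fin n → Bool) :
    sg T a * sg T' a = sg (symmDiff T T') a := by
  rw [SosB_univ, SosB_univ, SosB_univ, ← prod_mul_distrib]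
  refine prod_congr rfl fun v _ => ?_
  by_cases h1 : v ∈ T <;> by_cases h2 : v ∈ T' <;> by_cases h3 : a v = true <;>
    simp [Finset.mem_symmDiff, h1, h2, h3]

theorem SosB_empty {n : ℕ} (a : Fin n → Bool) : sg ∅ a = 1 := by
  unfold sg
  rw [prod_empty]

theorem sg_sq {n : ℕ} (T : Finset (Fin n)) (a : Fin n → Bool) : sg T a = 1 ∨ sg T a = -1 := by
  have h := sg_mul T T a
  rw [symmDiff_self, Finset.bot_eq_empty, SosB_empty] at h
  exact mul_self_eq_one_iff.1 h

/-- an odd number of false variables in `T` means sign `-1` -/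
theorem sg_odd {n : ℕ} (T : Finset (Fin n)) (a : Fin n → Bool)
    (h : Odd (T ∩ zeros a).card) : sg T a = -1 := by
  have e : T ∩ zeros a = T.filter fun v => ¬ a v = true := by
    ext v
    unfold zeros
    simp [mem_inter, mem_filter]
  unfold sg
  rw [prod_ite, prod_const_one, one_mul, prod_const, ← e]
  exact h.neg_one_pow

theorem SosB_flip {n : ℕ} {T : Finset (Fin n)} {v : Fin n} (hv : v ∈ T) (a : Fin n → Bool) :
    sg T (Function.update a v (!a v)) = - sg T a := by
  unfold sg
  rw [← mul_prod_erase T _ hv, ← mul_prod_erase T _ hv]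
  have h1 : ∏ w ∈ T.erase v, (if Function.update a v (!a v) w = true then (1 : ℝ) else -1) =
      ∏ w ∈ T.erase v, (if a w = true then (1 : ℝ) else -1) := by
    refine prod_congr rfl fun w hw => ?_
    rw [Function.update_of_ne (ne_of_mem_erase hw)]
  rw [h1, Function.update_self]
  cases a v <;> simp

theorem SosB_flipH {n : ℕ} {K : Finset (Fin n)} {x v : Fin n} (hv : v ∈ K.erase x)
    {a : Fin n → Bool} (ha : InH K x a) : InH K x (Function.update a v (!a v)) := by
  rw [mem_erase] at hv
  refine ⟨fun w hw => ?_, ?_⟩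
  · have : w ≠ v := fun h => hw (h ▸ hv.2)
    rw [Function.update_of_ne this]
    exact ha.1 w hw
  · rw [Function.update_of_ne (Ne.symm hv.1)]
    exact ha.2

theorem sum_sg {n : ℕ} {K : Finset (Fin n)} {x : Fin n} (hx : x ∈ K) {T : Finset (Fin n)}
    (hT : T ⊆ K.erase x) :
    ∑ a ∈ setH K x, sg T a = if T = ∅ then ((setH K x).card : ℝ) else 0 := by
  split_ifs with h
  · subst h
    simp_rw [SosB_empty]
    rw [sum_const, nsmul_eq_mul, mul_one]
  · obtain ⟨v, hv⟩ := Finset.nonempty_iff_ne_empty.2 h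
    refine Finset.sum_involution (fun a _ => Function.update a v (!a v)) ?_ ?_ ?_ ?_
    · intro a _
      rw [SosB_flip hv, add_neg_cancel]
    · intro a _ _ he
      have h2 := congrFun he v
      rw [Function.update_self] at h2
      cases hav : a v <;> rw [hav] at h2 <;> simp at h2
    · intro a ha
      rw [SosB_mem] at ha ⊢
      exact SosB_flipH (hT hv) ha
    · intro a _
      simp

theorem sg_restrict {n : ℕ} {K : Finset (Fin n)} {x : Fin n} (hx : x ∈ K)
    (T : Finset (Fin n)) {a : Fin n → Bool} (ha : InH K x a) :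
    sg T a = (if x ∈ T then -1 else 1) * sg ((T ∩ K).erase x) a := by
  have h1 : sg T a = sg (T ∩ K) a := by
    unfold sg
    symm
    refine prod_subset inter_subset_left fun v hv hv' => ?_
    have h2 : v ∉ K := fun h => hv' (mem_inter.2 ⟨hv, h⟩)
    rw [ha.1 v h2]
    simp
  rw [h1]
  by_cases h : x ∈ T
  · rw [if_pos h]
    unfold sg
    rw [← mul_prod_erase (T ∩ K) _ (mem_inter.2 ⟨h, hx⟩), ha.2]
    simp
  · rw [if_neg h, one_mul, erase_eq_of_notMem]
    exact fun h' => h (mem_inter.1 h').1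

theorem SosB_coef {n : ℕ} {K : Finset (Fin n)} {x : Fin n} (hx : x ∈ K) {d : ℕ}
    {c : Finset (Fin n) → ℝ} {g : (Fin n → Bool) → ℝ} (h : Deg K x d c g) {T₀ : Finset (Fin n)}
    (hT : T₀ ⊆ K.erase x) :
    ∑ a ∈ setH K x, g a * sg T₀ a = c T₀ * ((setH K x).card : ℝ) := by
  have h1 : ∑ a ∈ setH K x, g a * sg T₀ a =
      ∑ T, c T * ∑ a ∈ setH K x, sg (symmDiff T T₀) a := by
    have h2 : ∀ a ∈ setH K x, g a * sg T₀ a = ∑ T, c T * sg (symmDiff T T₀) a := by
      intro a ha
      rw [h.2 a (SosB_mem.1 ha), sum_mul]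
      refine sum_congr rfl fun T _ => ?_
      rw [mul_assoc, sg_mul]
    rw [sum_congr rfl h2, sum_comm]
    refine sum_congr rfl fun T _ => ?_
    rw [mul_sum]
  rw [h1]
  rw [Finset.sum_eq_single T₀]
  · rw [symmDiff_self, Finset.bot_eq_empty, sum_sg hx (empty_subset _), if_pos rfl]
  · intro T _ hne
    by_cases hc : c T = 0
    · rw [hc, zero_mul]
    · have h3 := (h.1 T hc).1
      have h4 : symmDiff T T₀ ⊆ K.erase x := by
        intro v hv
        rw [Finset.mem_symmDiff] at hv
        rcases hv with hv | hv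
        · exact h3 hv.1
        · exact hT hv.1
      have h5 : symmDiff T T₀ ≠ ∅ := by
        intro h6
        have h7 : symmDiff T T₀ = ⊥ := h6
        exact hne (symmDiff_eq_bot.1 h7)
      rw [sum_sg hx h4, if_neg h5, mul_zero]
  · intro h3
    exact absurd (mem_univ _) h3

theorem deg_unique {n : ℕ} {K : Finset (Fin n)} {x : Fin n} (hx : x ∈ K) {d d' : ℕ}
    {c c' : Finset (Fin n) → ℝ} {g : (Fin n → Bool) → ℝ} (h : Deg K x d c g)
    (h' : Deg K x d' c' g) : c = c' := by
  funext T
  by_cases hT : T ⊆ K.erase x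
  · have h1 := SosB_coef hx h hT
    have h2 := SosB_coef hx h' hT
    have h3 : ((setH K x).card : ℝ) ≠ 0 := by
      have := (setH_nonempty K x hx).card_pos
      positivity
    exact mul_right_cancel₀ h3 (h1.symm.trans h2)
  · have h1 : c T = 0 := by
      by_contra hc
      exact hT (h.1 T hc).1
    have h2 : c' T = 0 := by
      by_contra hc
      exact hT (h'.1 T hc).1
    rw [h1, h2]

theorem SosB_mono {n : ℕ} (T : Finset (Fin n)) (a : Fin n → Bool) :
    ∏ v ∈ T, (if a v = true then (1 : ℝ) else 0) =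
      ∑ T' ∈ T.powerset, (1 / 2 : ℝ) ^ T.card * sg T' a := by
  have h1 : ∀ v ∈ T, (if a v = true then (1 : ℝ) else 0) =
      (1 / 2) * (1 + if a v = true then (1 : ℝ) else -1) := by
    intro v _
    split_ifs <;> norm_num
  rw [prod_congr rfl h1, prod_mul_distrib, prod_const, prod_one_add, mul_sum]
  rfl

theorem deg_of_degLE {n : ℕ} {K : Finset (Fin n)} {x : Fin n} (hx : x ∈ K) {d : ℕ}
    {g : (Fin n → Bool) → ℝ} (h : DegLE d g) : ∃ c, Deg K x d c g := by
  classical
  obtain ⟨c, hc, hg⟩ := h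
  refine ⟨fun U => ∑ T, ∑ T' ∈ T.powerset, if (T' ∩ K).erase x = U then
    c T * (1 / 2 : ℝ) ^ T.card * (if x ∈ T' then -1 else 1) else 0, ?_, ?_⟩
  · intro U hU
    obtain ⟨T, _, hT⟩ := exists_ne_zero_of_sum_ne_zero hU
    obtain ⟨T', hT', hne⟩ := exists_ne_zero_of_sum_ne_zero hT
    rw [mem_powerset] at hT'
    by_cases he : (T' ∩ K).erase x = U
    · rw [if_pos he] at hne
      have h1 : c T ≠ 0 := by
        intro h0
        rw [h0] at hne
        simp at hne
      have h2 : T.card ≤ d := by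
        by_contra h3
        push Not at h3
        exact h1 (hc T h3)
      rw [← he]
      refine ⟨erase_subset_erase x inter_subset_right, ?_⟩
      refine le_trans (card_le_card (erase_subset _ _)) ?_
      exact (card_le_card (inter_subset_left.trans hT')).trans h2
    · rw [if_neg he] at hne
      exact absurd rfl hne
  · intro a ha
    rw [hg a]
    have h1 : ∀ T : Finset (Fin n), c T * ∏ v ∈ T, (if a v = true then (1 : ℝ) else 0) =
        ∑ T' ∈ T.powerset, c T * (1 / 2 : ℝ) ^ T.card * (if x ∈ T' then -1 else 1) *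
          sg ((T' ∩ K).erase x) a := by
      intro T
      rw [SosB_mono, mul_sum]
      refine sum_congr rfl fun T' _ => ?_
      rw [sg_restrict hx T' ha]
      ring
    rw [sum_congr rfl fun T _ => h1 T]
    have h2 : ∀ U : Finset (Fin n), (∑ T, ∑ T' ∈ T.powerset, if (T' ∩ K).erase x = U then
        c T * (1 / 2 : ℝ) ^ T.card * (if x ∈ T' then -1 else 1) else 0) * sg U a =
        ∑ T, ∑ T' ∈ T.powerset, if (T' ∩ K).erase x = U then
          c T * (1 / 2 : ℝ) ^ T.card * (if x ∈ T' then -1 else 1) * sg ((T' ∩ K).erase x) a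
          else 0 := by
      intro U
      rw [sum_mul]
      refine sum_congr rfl fun T _ => ?_
      rw [sum_mul]
      refine sum_congr rfl fun T' _ => ?_
      by_cases h3 : (T' ∩ K).erase x = U
      · rw [if_pos h3, if_pos h3, h3]
      · rw [if_neg h3, if_neg h3, zero_mul]
    rw [sum_congr rfl fun U _ => h2 U, sum_comm]
    refine sum_congr rfl fun T _ => ?_
    rw [sum_comm]
    refine sum_congr rfl fun T' _ => ?_
    rw [Finset.sum_ite_eq, if_pos (mem_univ _)]

end Pool.Agent.H13.PZ
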