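import Pool.Agent.H13.PZ.SosA
import Pool.Agent.H13.PZ.SosB
import Pool.Agent.H13.PZ.Psd

/-!
# Sums of squares do not infer `x`

`W = 2 d`, `Γ (W + 1) ≤ m`. Let `e T` be the `s` with `Rel I V m x T s` if there is one (it is
unique, `rel_unique`), and `0` otherwise. Define `E g = ∑ T, c T * e T` for a function `g` with
coefficients `c` on `InH K x` (unique, `deg_unique`; degree at most `W`). Facts:
* `E` is additive (coefficients of a finite sum are the sums of the coefficients);
* `E (-1) = -1`: coefficients `c ∅ = -1`, `e ∅ = 1` (`rel_empty`).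
* `E (q ^ 2) ≥ 0` if `q` has degree at most `d`, coefficients `c`: on `InH K x`
  `q ^ 2 = ∑ T, ∑ T', c T * c T' * sg (T ∆ T')`, so the coefficient of `q ^ 2` at `U` is
  `∑ T, T' with T ∆ T' = U, c T * c T'` and `E (q ^ 2) = ∑ T, ∑ T', c T * c T' * e (T ∆ T')`, where only
  `T`, `T' ⊆ K.erase x` of card at most `d` count. Use `psd_of_sign` with `M T T' = e (T ∆ T')` on
  these sets: `M T T = e ∅ = 1`; entries `0, 1, -1` by `rel_sign`; if `M T T' ≠ 0` and
  `M T' T'' ≠ 0` then `rel_mul` (the set `T ∆ T''` has card at most `2 d = W`) gives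
  `Rel (T ∆ T'') (M T T' * M T' T'')`, because `(T ∆ T') ∆ (T' ∆ T'') = T ∆ T''`.
* `E g = 0` if `g` has degree at most `W` and vanishes wherever the clause `C ∈ F` is satisfied. If
  `C` is satisfied on all of `InH K x` then `g = 0` there and `c = 0`. Otherwise let `i ∈ I` be as in
  `ParSys.cl`, `T₁ = (V i).erase x`, `σ = if x ∈ V i then -1 else 1`. For `a` in `InH K x`:
  if `g a ≠ 0` then `C` is falsified, `(V i ∩ zeros a).card` is odd, `sg (V i) a = -1`
  (`sg_odd`), i.e. `σ * sg T₁ a = -1` (`sg_restrict`, `V i ⊆ K`). So `g a = - σ * sg T₁ a * g a` for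
  all `a` in `InH K x`, and by uniqueness of coefficients `c T = - σ * c (T ∆ T₁)` for all `T`
  (apply `deg_unique` with the coefficients `T ↦ - σ * c (T ∆ T₁)`, of degree at most `W + |T₁|`).
  Moreover `e (T ∆ T₁) = σ * e T` if `|T| ≤ W` and `|T ∆ T₁| ≤ W`: `rel_mul` with `rel_single`
  in both directions (`(T ∆ T₁) ∆ T₁ = T`, `σ * σ = 1`). So
  `E g = ∑ T, c T * e T = - σ * ∑ T, c (T ∆ T₁) * e T = - σ * ∑ T', c T' * e (T' ∆ T₁)`, and for
  `c T' ≠ 0` also `c (T' ∆ T₁) ≠ 0`, so both sets have card at most `W` and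
  `E g = - σ * σ * ∑ T', c T' * e T' = - E g`.
Conclusion: `α` and `x ≠ true` hold for all `a` in `InH K x`, so there
`-1 = ∑ j, q j ^ 2 + ∑ C ∈ F, g C`. Apply `E`: `-1 = ∑ j, E (q j ^ 2) + 0 ≥ 0`, a contradiction.
(`1 ≤ m`: otherwise `Γ = 0`, and `ParSys.bd` for `J = {i}` is impossible, so `I = ∅` and the last
fact is only needed when `C` is satisfied on all of `InH K x`.)
-/

namespace Pool.Agent.H13.PZ

open Finset

open Classical in
/-- the pseudo-expectation of the character of `T` -/
noncomputable def SosC_e {n : ℕ} {ι : Type} (I : Finset ι) (V : ι → Finset (Fin n)) (m : ℕ)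
    (x : Fin n) (T : Finset (Fin n)) : ℝ :=
  if hT : ∃ s, Rel I V m x T s then hT.choose else 0

theorem SosC_e_eq {n : ℕ} {F : CNF n} {K : Finset (Fin n)} {x : Fin n} {ι : Type}
    {I : Finset ι} {V : ι → Finset (Fin n)} {m Γ : ℕ} (h : ParSys F K x I V m Γ)
    {T : Finset (Fin n)} {s : ℝ} (hT : Rel I V m x T s) : SosC_e I V m x T = s := by
  have h1 : ∃ s, Rel I V m x T s := ⟨s, hT⟩
  unfold SosC_e
  rw [dif_pos h1]
  exact rel_unique h h1.choose_spec hT

theorem SosC_e_rel {n : ℕ} {ι : Type} {I : Finset ι} {V : ι → Finset (Fin n)} {m : ℕ}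
    {x : Fin n} {T : Finset (Fin n)} (hT : SosC_e I V m x T ≠ 0) :
    Rel I V m x T (SosC_e I V m x T) := by
  by_cases h1 : ∃ s, Rel I V m x T s
  · have h2 : SosC_e I V m x T = h1.choose := by
      unfold SosC_e
      rw [dif_pos h1]
    rw [h2]
    exact h1.choose_spec
  · exfalso
    apply hT
    unfold SosC_e
    rw [dif_neg h1]

theorem SosC_card_symm {n : ℕ} (T T' : Finset (Fin n)) :
    (symmDiff T T').card ≤ T.card + T'.card := by
  have h1 : symmDiff T T' ⊆ T ∪ T' := symmDiff_le_sup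
  exact (card_le_card h1).trans (card_union_le _ _)

theorem SosC_cancel {n : ℕ} (T T' : Finset (Fin n)) : symmDiff (symmDiff T T') T' = T :=
  symmDiff_symmDiff_cancel_right T' T

theorem SosC_reindex {n : ℕ} (T₁ : Finset (Fin n)) (f : Finset (Fin n) → ℝ) :
    ∑ T, f (symmDiff T T₁) = ∑ T, f T := by
  refine Fintype.sum_bijective (fun T => symmDiff T T₁) ?_ _ _ (fun T => rfl)
  refine Function.bijective_iff_has_inverse.2 ⟨fun T => symmDiff T T₁, ?_, ?_⟩
  · intro T
    exact SosC_cancel T T₁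
  · intro T
    exact SosC_cancel T T₁

/-- coefficients of the square -/
noncomputable def SosC_sq {n : ℕ} (c : Finset (Fin n) → ℝ) (U : Finset (Fin n)) : ℝ :=
  ∑ T, ∑ T', if symmDiff T T' = U then c T * c T' else 0

theorem SosC_sum_sq {n : ℕ} (c : Finset (Fin n) → ℝ) (f : Finset (Fin n) → ℝ) :
    ∑ U, SosC_sq c U * f U = ∑ T, ∑ T', c T * c T' * f (symmDiff T T') := by
  unfold SosC_sq
  have h1 : ∀ U : Finset (Fin n), (∑ T, ∑ T', if symmDiff T T' = U then c T * c T' else 0) * f U =
      ∑ T, ∑ T', if symmDiff T T' = U then c T * c T' * f (symmDiff T T') else 0 := by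
    intro U
    rw [sum_mul]
    refine sum_congr rfl (fun T _ => ?_)
    rw [sum_mul]
    refine sum_congr rfl (fun T' _ => ?_)
    by_cases h : symmDiff T T' = U
    · rw [if_pos h, if_pos h, h]
    · rw [if_neg h, if_neg h, zero_mul]
  simp only [h1]
  rw [sum_comm]
  refine sum_congr rfl (fun T _ => ?_)
  rw [sum_comm]
  refine sum_congr rfl (fun T' _ => ?_)
  rw [sum_ite_eq]
  simp

theorem SosC_deg_sq {n : ℕ} {K : Finset (Fin n)} {x : Fin n} {d : ℕ}
    {c : Finset (Fin n) → ℝ} {g : (Fin n → Bool) → ℝ} (h : Deg K x d c g) :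
    Deg K x (2 * d) (SosC_sq c) (fun a => g a ^ 2) := by
  refine ⟨fun U hU => ?_, fun a ha => ?_⟩
  · unfold SosC_sq at hU
    obtain ⟨T, -, hT⟩ := exists_ne_zero_of_sum_ne_zero hU
    obtain ⟨T', -, hT'⟩ := exists_ne_zero_of_sum_ne_zero hT
    have h1 : symmDiff T T' = U := by
      by_contra h2
      rw [if_neg h2] at hT'
      exact hT' rfl
    rw [if_pos h1] at hT'
    have h2 := h.1 T (left_ne_zero_of_mul hT')
    have h3 := h.1 T' (right_ne_zero_of_mul hT')
    rw [← h1]
    refine ⟨?_, ?_⟩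
    · have h4 : symmDiff T T' ⊆ T ∪ T' := symmDiff_le_sup
      exact h4.trans (union_subset h2.1 h3.1)
    · have := SosC_card_symm T T'
      omega
  · simp only
    rw [SosC_sum_sq c (fun U => sg U a), h.2 a ha, pow_two, sum_mul_sum]
    refine sum_congr rfl (fun T _ => sum_congr rfl (fun T' _ => ?_))
    rw [← sg_mul]
    ring

theorem SosC_sq_nonneg {n : ℕ} {F : CNF n} {K : Finset (Fin n)} {x : Fin n} {ι : Type}
    {I : Finset ι} {V : ι → Finset (Fin n)} {m Γ d : ℕ} (h : ParSys F K x I V m Γ)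
    (hm : Γ * (2 * d + 1) ≤ m) {c : Finset (Fin n) → ℝ} {g : (Fin n → Bool) → ℝ}
    (hc : Deg K x d c g) : 0 ≤ ∑ U, SosC_sq c U * SosC_e I V m x U := by
  rw [SosC_sum_sq]
  have hsub : ∀ T : Finset (Fin n), T ∉ (univ.filter fun T : Finset (Fin n) => T.card ≤ d) →
      c T = 0 := by
    intro T hT
    by_contra h1
    exact hT (mem_filter.2 ⟨mem_univ _, (hc.1 T h1).2⟩)
  have h1 : ∑ T, ∑ T', c T * c T' * SosC_e I V m x (symmDiff T T') =
      ∑ T ∈ (univ.filter fun T : Finset (Fin n) => T.card ≤ d),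
        ∑ T' ∈ (univ.filter fun T : Finset (Fin n) => T.card ≤ d),
          c T * c T' * SosC_e I V m x (symmDiff T T') := by
    symm
    refine (sum_subset (subset_univ _) (fun T _ hT => ?_)).trans
      (sum_congr rfl (fun T _ => sum_subset (subset_univ _) (fun T' _ hT' => ?_)))
    · refine sum_eq_zero (fun T' _ => ?_)
      rw [hsub T hT]; ring
    · rw [hsub T' hT']; ring
  rw [h1]
  refine psd_of_sign _ (fun T T' => SosC_e I V m x (symmDiff T T')) ?_ ?_ ?_ ?_ c
  · intro T _
    rw [symmDiff_self]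
    exact SosC_e_eq h (rel_empty I V m x)
  · intro T _ T' _
    simp only [symmDiff_comm T T']
  · intro T _ T' _
    by_cases h2 : SosC_e I V m x (symmDiff T T') = 0
    · exact Or.inl h2
    · exact Or.inr (rel_sign (SosC_e_rel h2))
  · intro T hT T' _ T'' hT'' h2 h3
    have h4 := rel_mul h hm (SosC_e_rel h2) (SosC_e_rel h3) (by
      rw [symmDiff_assoc, symmDiff_symmDiff_cancel_left]
      have h5 := SosC_card_symm T T''
      have h6 := (mem_filter.1 hT).2
      have h7 := (mem_filter.1 hT'').2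
      omega)
    rw [symmDiff_assoc, symmDiff_symmDiff_cancel_left] at h4
    exact SosC_e_eq h h4

theorem SosC_clause {n : ℕ} {F : CNF n} {K : Finset (Fin n)} {x : Fin n} {ι : Type}
    {I : Finset ι} {V : ι → Finset (Fin n)} {m Γ d : ℕ} (h : ParSys F K x I V m Γ)
    (hm : Γ * (2 * d + 1) ≤ m) {C : Clause n} (hC : C ∈ F) {c : Finset (Fin n) → ℝ}
    {g : (Fin n → Bool) → ℝ} (hc : Deg K x (2 * d) c g)
    (hg : ∀ a, ClauseSat a C → g a = 0) : ∑ T, c T * SosC_e I V m x T = 0 := by
  rcases h.cl C hC with h1 | ⟨i, hi, h1⟩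
  · have h2 : Deg K x 0 (fun _ => 0) g := by
      refine ⟨fun T hT => absurd rfl hT, fun a ha => ?_⟩
      rw [hg a (h1 a ha)]
      simp
    have h3 := deg_unique h.hx hc h2
    rw [h3]
    simp
  · have hi1 : 1 ≤ m := by
      have h2 := h.bd {i} (singleton_subset_iff.2 hi) (singleton_nonempty i) (by simp)
      have h3 := h2.2
      rw [card_singleton] at h3
      have h4 : 1 ≤ Γ := by
        by_contra h5
        have h6 : Γ = 0 := by omega
        rw [h6, zero_mul] at h3
        omega
      calc 1 ≤ Γ * (2 * d + 1) := Nat.mul_pos h4 (by omega)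
        _ ≤ m := hm
    set T₁ := (V i).erase x with hT₁
    set σ : ℝ := if x ∈ V i then -1 else 1 with hσ
    have hσ2 : σ * σ = 1 := by
      rw [hσ]; split_ifs <;> norm_num
    have hrel : Rel I V m x T₁ σ := rel_single V x hi hi1
    have hVK : V i ∩ K = V i := inter_eq_left.2 (h.sub i hi)
    have hkey : ∀ a, InH K x a → g a = -σ * sg T₁ a * g a := by
      intro a ha
      by_cases h2 : ClauseSat a C
      · rw [hg a h2]; ring
      · have h3 := sg_odd (V i) a (h1 a ha h2)
        rw [sg_restrict h.hx (V i) ha, hVK] at h3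
        have h4 : σ * sg T₁ a = -1 := h3
        have h5 : -σ * sg T₁ a * g a = -(σ * sg T₁ a) * g a := by ring
        rw [h5, h4]; ring
    have hT₁K : T₁ ⊆ K.erase x := erase_subset_erase x (h.sub i hi)
    have hdeg : Deg K x (2 * d + T₁.card) (fun T => -σ * c (symmDiff T T₁)) g := by
      refine ⟨fun T hT => ?_, fun a ha => ?_⟩
      · have h2 := hc.1 _ (right_ne_zero_of_mul hT)
        have h3 : T = symmDiff (symmDiff T T₁) T₁ := (SosC_cancel T T₁).symm
        refine ⟨?_, ?_⟩
        · rw [h3]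
          have h4 : symmDiff (symmDiff T T₁) T₁ ⊆ symmDiff T T₁ ∪ T₁ := symmDiff_le_sup
          exact h4.trans (union_subset h2.1 hT₁K)
        · rw [h3]
          exact (SosC_card_symm _ _).trans (Nat.add_le_add_right h2.2 _)
      · rw [hkey a ha, hc.2 a ha, mul_sum,
          ← SosC_reindex T₁ (fun T => -σ * sg T₁ a * (c T * sg T a))]
        refine sum_congr rfl (fun T _ => ?_)
        rw [← sg_mul]
        have h2 : sg T₁ a * sg T₁ a = 1 := by
          rcases sg_sq T₁ a with h | h <;> rw [h] <;> norm_num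
        calc -σ * sg T₁ a * (c (symmDiff T T₁) * (sg T a * sg T₁ a))
            = -σ * c (symmDiff T T₁) * sg T a * (sg T₁ a * sg T₁ a) := by ring
          _ = -σ * c (symmDiff T T₁) * sg T a := by rw [h2, mul_one]
    have huniq := deg_unique h.hx hc hdeg
    have hcT : ∀ T, c T = -σ * c (symmDiff T T₁) := fun T => congrFun huniq T
    have he : ∀ T, c T ≠ 0 → SosC_e I V m x (symmDiff T T₁) = σ * SosC_e I V m x T := by
      intro T hT
      have h2 : T.card ≤ 2 * d := (hc.1 T hT).2
      have h3 : c (symmDiff T T₁) ≠ 0 := by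
        rw [hcT T] at hT
        exact right_ne_zero_of_mul hT
      have h4 : (symmDiff T T₁).card ≤ 2 * d := (hc.1 _ h3).2
      by_cases h5 : SosC_e I V m x T = 0
      · rw [h5, mul_zero]
        by_contra h6
        have h7 := rel_mul h hm (SosC_e_rel h6) hrel (by rw [SosC_cancel]; exact h2)
        rw [SosC_cancel] at h7
        have h8 := SosC_e_eq h h7
        rw [h5] at h8
        have h9 : σ ≠ 0 := by
          intro h10
          rw [h10] at hσ2
          norm_num at hσ2
        exact (mul_ne_zero h6 h9) h8.symm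
      · have h7 := rel_mul h hm (SosC_e_rel h5) hrel h4
        rw [SosC_e_eq h h7]
        ring
    have hE : ∑ T, c T * SosC_e I V m x T = -∑ T, c T * SosC_e I V m x T := by
      calc ∑ T, c T * SosC_e I V m x T
          = ∑ T, c (symmDiff T T₁) * SosC_e I V m x (symmDiff T T₁) :=
            (SosC_reindex T₁ (fun T => c T * SosC_e I V m x T)).symm
        _ = ∑ T, -(c T * SosC_e I V m x T) := by
            refine sum_congr rfl (fun T _ => ?_)
            by_cases h2 : c T = 0
            · have h3 : c (symmDiff T T₁) = 0 := by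
                have h4 := hcT (symmDiff T T₁)
                rw [SosC_cancel, h2, mul_zero] at h4
                exact h4
              rw [h2, h3]; ring
            · have h3 : c (symmDiff T T₁) = -σ * c T := by
                have h4 := hcT (symmDiff T T₁)
                rw [SosC_cancel] at h4
                exact h4
              rw [he T h2, h3]
              calc -σ * c T * (σ * SosC_e I V m x T)
                  = -(σ * σ) * (c T * SosC_e I V m x T) := by ring
                _ = -(c T * SosC_e I V m x T) := by rw [hσ2]; ring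
        _ = -∑ T, c T * SosC_e I V m x T := by rw [sum_neg_distrib]
    linarith

theorem not_sos {n : ℕ} {F : CNF n} {K : Finset (Fin n)} {x : Fin n} {ι : Type}
    {I : Finset ι} {V : ι → Finset (Fin n)} {m Γ d : ℕ} (h : ParSys F K x I V m Γ)
    {α : PAss n} (hα : ∀ a, InH K x a → Ext α a) (hm : Γ * (2 * d + 1) ≤ m) :
    ¬ Sos F α d x true := by
  rintro ⟨M, q, g, hq, hg, heq⟩
  choose cq hcq using fun j => deg_of_degLE h.hx (hq j)
  have hg' : ∀ C : Clause n, ∃ c : Finset (Fin n) → ℝ, C ∈ F → Deg K x (2 * d) c (g C) := by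
    intro C
    by_cases hC : C ∈ F
    · obtain ⟨c, hc⟩ := deg_of_degLE h.hx (hg C hC).1
      exact ⟨c, fun _ => hc⟩
    · exact ⟨fun _ => 0, fun h1 => absurd h1 hC⟩
  choose cg hcg using hg'
  have hR : Deg K x (2 * d) (fun T => ∑ j, SosC_sq (cq j) T + ∑ C ∈ F, cg C T)
      (fun _ => (-1 : ℝ)) := by
    refine ⟨fun T hT => ?_, fun a ha => ?_⟩
    · by_cases h1 : ∑ j, SosC_sq (cq j) T = 0
      · have h2 : ∑ C ∈ F, cg C T ≠ 0 := by
          intro h3
          apply hT
          simp only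
          rw [h1, h3, add_zero]
        obtain ⟨C, hC, h3⟩ := exists_ne_zero_of_sum_ne_zero h2
        exact (hcg C hC).1 T h3
      · obtain ⟨j, -, h3⟩ := exists_ne_zero_of_sum_ne_zero h1
        exact (SosC_deg_sq (hcq j)).1 T h3
    · have h1 := heq a (hα a ha) (by rw [ha.2]; simp)
      rw [h1]
      have h2 : ∀ j, q j a ^ 2 = ∑ T, SosC_sq (cq j) T * sg T a :=
        fun j => (SosC_deg_sq (hcq j)).2 a ha
      have h3 : ∀ C ∈ F, g C a = ∑ T, cg C T * sg T a := fun C hC => (hcg C hC).2 a ha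
      rw [sum_congr rfl (fun j _ => h2 j), sum_congr rfl h3, sum_comm, sum_comm (s := F),
        ← sum_add_distrib]
      refine sum_congr rfl (fun T _ => ?_)
      rw [add_mul, sum_mul, sum_mul]
  have hL : Deg K x 0 (fun T => if T = ∅ then (-1 : ℝ) else 0) (fun _ => (-1 : ℝ)) := by
    refine ⟨fun T hT => ?_, fun a _ => ?_⟩
    · by_cases h1 : T = ∅
      · rw [h1]; simp
      · exact absurd (if_neg h1) hT
    · simp only [ite_mul, zero_mul]
      rw [sum_ite_eq']
      simp [sg]
  have huniq := deg_unique h.hx hL hR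
  have h1 : ∑ T, (if T = ∅ then (-1 : ℝ) else 0) * SosC_e I V m x T =
      ∑ T, (∑ j, SosC_sq (cq j) T + ∑ C ∈ F, cg C T) * SosC_e I V m x T := by
    refine sum_congr rfl (fun T _ => ?_)
    have h2 : (if T = ∅ then (-1 : ℝ) else 0) = ∑ j, SosC_sq (cq j) T + ∑ C ∈ F, cg C T :=
      congrFun huniq T
    rw [h2]
  have h2 : ∑ T, (if T = ∅ then (-1 : ℝ) else 0) * SosC_e I V m x T = -1 := by
    simp only [ite_mul, zero_mul]
    rw [sum_ite_eq']
    simp only [mem_univ, if_true]
    rw [SosC_e_eq h (rel_empty I V m x)]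
    norm_num
  have h3 : ∑ T, (∑ j, SosC_sq (cq j) T + ∑ C ∈ F, cg C T) * SosC_e I V m x T =
      ∑ j, ∑ T, SosC_sq (cq j) T * SosC_e I V m x T +
        ∑ C ∈ F, ∑ T, cg C T * SosC_e I V m x T := by
    rw [sum_comm (s := (univ : Finset (Fin M))), sum_comm (s := F), ← sum_add_distrib]
    refine sum_congr rfl (fun T _ => ?_)
    rw [add_mul, sum_mul, sum_mul]
  have h4 : 0 ≤ ∑ j, ∑ T, SosC_sq (cq j) T * SosC_e I V m x T :=
    sum_nonneg (fun j _ => SosC_sq_nonneg h hm (hcq j))
  have h5 : ∑ C ∈ F, ∑ T, cg C T * SosC_e I V m x T = 0 :=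
    sum_eq_zero (fun C hC => SosC_clause h hm hC (hcg C hC) (hg C hC).2)
  rw [h2, h3, h5] at h1
  linarith

end Pool.Agent.H13.PZ
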