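import Pool.Agent.H13.PZ.Chg

/-!
# For every order, few variables are outside the core when they are added

Claim, by induction on the list `l` (without repetitions, `U = l.toFinset`, `c = core rows L`):
`L * badCount c l ≤ (L + 1) * #{ρ ∈ rows | ρ meets c U} + L * |U \ c U|`.
Step from `l` to `x :: l`, `U' = insert x U`.
* `x ∉ c U'`: then `c U' ⊆ U` so `c U' = c U` (`core_mono`, `subset_core`, `core_good`); the first
  term stays, the second grows by `L` (`U' \ c U = insert x (U \ c U)`), `badCount` grows by one.
* `x ∈ c U'`: `badCount` stays. Put `A = c U' ∩ (U \ c U)`. Then `U \ c U` is the disjoint union of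
  `A` and `U' \ c U'` (`c U ⊆ c U'`, and `x ∈ c U'`). By `charge` for `U` and `A`,
  `L |A| ≤ (L + 1) #{ρ | ρ meets A, ρ ∩ c U = ∅}`, and these rows meet `c U'` but not `c U`, so they
  are counted in the first term for `U'` and not in the one for `U`.
Finally `L |U \ c U| ≤ (L + 1) #{ρ | ρ ∩ c U = ∅}` by `charge` with `A = U \ c U`.
-/

namespace Pool.Agent.H13.PZ

open Finset

/-- the inductive bound -/
theorem badCount_aux {n : ℕ} (rows : Finset (Finset (Fin n))) (L : ℕ) (l : List (Fin n))
    (hl : l.Nodup) : L * badCount (core rows L) l ≤
      (L + 1) * (rows.filter fun ρ => (ρ ∩ core rows L l.toFinset).Nonempty).card +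
        L * (l.toFinset \ core rows L l.toFinset).card := by
  classical
  induction l with
  | nil => simp [badCount]
  | cons x l ih =>
    have hx : x ∉ l := (List.nodup_cons.1 hl).1
    have ih' := ih (List.nodup_cons.1 hl).2
    have hxU : x ∉ l.toFinset := by simpa using hx
    set U := l.toFinset with hU
    have hcons : (x :: l).toFinset = insert x U := by simp [hU]
    have hmono : core rows L U ⊆ core rows L (insert x U) := core_mono (Finset.subset_insert x U)
    rw [badCount, hcons]
    by_cases hc : x ∈ core rows L (insert x U)
    · rw [if_pos hc, Nat.add_zero]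
      set A := core rows L (insert x U) ∩ (U \ core rows L U) with hA
      have hAs : A ⊆ U \ core rows L U := Finset.inter_subset_right
      have hch := charge (rows := rows) (L := L) hAs
      have hcard : (U \ core rows L U).card =
          A.card + (insert x U \ core rows L (insert x U)).card := by
        rw [← Finset.card_union_of_disjoint]
        · congr 1
          ext z
          simp only [hA, Finset.mem_union, Finset.mem_inter, Finset.mem_sdiff, Finset.mem_insert]
          constructor
          · rintro ⟨h1, h2⟩
            by_cases h3 : z ∈ core rows L (insert x U)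
            · exact Or.inl ⟨h3, h1, h2⟩
            · exact Or.inr ⟨Or.inr h1, h3⟩
          · rintro (⟨_, h1, h2⟩ | ⟨h1, h2⟩)
            · exact ⟨h1, h2⟩
            · rcases h1 with h1 | h1
              · exact absurd (h1 ▸ hc) h2
              · exact ⟨h1, fun h3 => h2 (hmono h3)⟩
        · rw [Finset.disjoint_left]
          intro z hz hz2
          exact (Finset.mem_sdiff.1 hz2).2 (Finset.mem_inter.1 hz).1
      have hrows : (rows.filter fun ρ => (ρ ∩ core rows L U).Nonempty).card +
          (rows.filter fun ρ => (ρ ∩ A).Nonempty ∧ ρ ∩ core rows L U = ∅).card ≤
          (rows.filter fun ρ => (ρ ∩ core rows L (insert x U)).Nonempty).card := by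
        rw [← Finset.card_union_of_disjoint]
        · refine Finset.card_le_card ?_
          intro ρ hρ
          rcases Finset.mem_union.1 hρ with hρ | hρ
          · obtain ⟨h1, h2⟩ := Finset.mem_filter.1 hρ
            exact Finset.mem_filter.2 ⟨h1, h2.mono (Finset.inter_subset_inter_left hmono)⟩
          · obtain ⟨h1, h2, _⟩ := Finset.mem_filter.1 hρ
            exact Finset.mem_filter.2 ⟨h1, h2.mono
              (Finset.inter_subset_inter_left Finset.inter_subset_left)⟩
        · rw [Finset.disjoint_left]
          intro ρ h1 h2
          have h3 := (Finset.mem_filter.1 h1).2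
          have h4 := (Finset.mem_filter.1 h2).2.2
          rw [h4] at h3
          exact Finset.not_nonempty_empty h3
      have e1 := Nat.mul_le_mul_left (L + 1) hrows
      have e2 : L * (U \ core rows L U).card =
          L * A.card + L * (insert x U \ core rows L (insert x U)).card := by
        rw [hcard]; ring
      rw [Nat.mul_add] at e1
      omega
    · rw [if_neg hc]
      have hsub : core rows L (insert x U) ⊆ U := by
        intro z hz
        have := core_subset rows L (insert x U) hz
        rcases Finset.mem_insert.1 this with h | h
        · exact absurd (h ▸ hz) hc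
        · exact h
      have heq : core rows L (insert x U) = core rows L U :=
        Finset.Subset.antisymm (subset_core (core_good rows L _) hsub) hmono
      rw [heq]
      have hxc : x ∉ core rows L U := fun h => hxU (core_subset rows L U h)
      have hcard : (insert x U \ core rows L U).card = (U \ core rows L U).card + 1 := by
        rw [Finset.insert_sdiff_of_notMem _ hxc, Finset.card_insert_of_notMem]
        exact fun h => hxU (Finset.mem_sdiff.1 h).1
      rw [hcard]
      have e1 : L * (badCount (core rows L) l + 1) = L * badCount (core rows L) l + L := by ring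
      have e2 : L * ((U \ core rows L U).card + 1) = L * (U \ core rows L U).card + L := by ring
      omega

theorem badCount_le {n : ℕ} (rows : Finset (Finset (Fin n))) (L : ℕ) (l : List (Fin n))
    (hl : l.Nodup) : L * badCount (core rows L) l ≤ (L + 1) * rows.card := by
  classical
  have h1 := badCount_aux rows L l hl
  set U := l.toFinset with hU
  have h2 := charge (rows := rows) (L := L) (U := U) (A := U \ core rows L U) (Finset.Subset.refl _)
  have h3 : (rows.filter fun ρ => (ρ ∩ core rows L U).Nonempty).card +
      (rows.filter fun ρ => (ρ ∩ (U \ core rows L U)).Nonempty ∧ ρ ∩ core rows L U = ∅).card ≤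
      rows.card := by
    rw [← Finset.card_union_of_disjoint]
    · refine Finset.card_le_card ?_
      intro ρ hρ
      rcases Finset.mem_union.1 hρ with hρ | hρ
      · exact (Finset.mem_filter.1 hρ).1
      · exact (Finset.mem_filter.1 hρ).1
    · rw [Finset.disjoint_left]
      intro ρ h1 h2
      have h3 := (Finset.mem_filter.1 h1).2
      have h4 := (Finset.mem_filter.1 h2).2.2
      rw [h4] at h3
      exact Finset.not_nonempty_empty h3
  have h4 := Nat.mul_le_mul_left (L + 1) h3
  rw [Nat.mul_add] at h4
  omega

end Pool.Agent.H13.PZ
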