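import Pool.Agent.H13.PZ.SysEx
import Pool.Agent.H13.PZ.Tel
import Pool.Agent.H13.PZ.Par
import Pool.Agent.H13.PZ.Loc
import Pool.Agent.H13.PZ.SosC
import Pool.Agent.H13.PZ.Cnt
import Pool.Agent.H13.PZ.Snd

/-!
# Super strong exponential time hypothesis for solvers of PPSZ type
-/

namespace Pool.Agent.H13.PZ

open Finset

theorem not_infer {n k L q N₀ w : ℕ} {rows trips : Finset (Finset (Fin n))}
    (h : Sys rows trips k q (16 * L * k) N₀) (hk : 3 ≤ k) (hL : 1 ≤ L) (hq : 28 * L * k ≤ q)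
    (hm : (k + 1) * (2 * (8 * L * k * (2 * w + 1)) + 1) ≤ N₀) (U : Finset (Fin n))
    (x : Fin n) (hx : x ∈ core rows L U) (b : Bool) :
    ¬ Infer (formula rows trips) (fun v => if v ∈ U then none else some true) w x b := by
  classical
  have hG := core_good rows L U
  have hsub := core_subset rows L U
  have hP := parSys h hk hL hq hm hG hx
  have hΓ : 1 ≤ 8 * L * k := by nlinarith
  cases b with
  | false =>
    intro hI
    have h1 := (uniq_formula h).1
    have h2 := infer_sound hI (fun _ => true) ?_ h1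
    · exact absurd h2 (by decide)
    · intro v b hv
      by_cases hvU : v ∈ U
      · simp [hvU] at hv
      · simp only [hvU, if_false, Option.some.injEq] at hv
        exact hv
  | true =>
    have hα : ∀ a, InH (core rows L U) x a →
        Ext (fun v => if v ∈ U then none else some true) a := by
      intro a ha v b hv
      by_cases hvU : v ∈ U
      · simp [hvU] at hv
      · simp only [hvU, if_false, Option.some.injEq] at hv
        rw [← hv]
        exact ha.1 v fun hvc => hvU (hsub hvc)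
    rintro (hI | hI)
    · exact not_local hP hα (by nlinarith) (by nlinarith) hI
    · exact not_sos hP hα (le_refl _) hI

theorem main (k : ℕ) (hk : 3 ≤ k) (ε : ℝ) (hε : 0 < ε) :
    ∃ δ : ℝ, 0 < δ ∧ ∃ n₀ : ℕ, ∀ n ≥ n₀, ∃ F : CNF n, (∀ C ∈ F, C.card ≤ k) ∧
      (∃! a, Sat F a) ∧
      ∀ S : Solver F ⌊δ * n⌋₊, S.success ≤ (2 : ℝ) ^ (-(1 - (3 + ε) / k) * (n : ℝ)) := by
  set L : ℕ := ⌈8 / ε⌉₊ + 8 with hLdef
  have hL : 1 ≤ L := by omega
  have hL8 : (8 : ℝ) ≤ L := by
    have : 8 ≤ L := by omega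
    exact_mod_cast this
  have hLε : 8 / ε ≤ (L : ℝ) := by
    have := Nat.le_ceil (8 / ε)
    rw [hLdef]; push_cast; linarith
  have hkpos : (0 : ℝ) < k := by
    have : 0 < k := by omega
    exact_mod_cast this
  have hLk : 1 ≤ L * k := Nat.mul_pos (by omega) (by omega)
  obtain ⟨δ, hδ, n₀, h⟩ := exists_sys k (28 * L * k) (16 * L * k) (by omega) (by nlinarith)
    (by nlinarith) (ε / (8 * k)) (by positivity)
  set Γ : ℕ := 8 * L * k with hΓ
  have hΓ1 : (1 : ℝ) ≤ Γ := by
    have : 1 ≤ Γ := by rw [hΓ]; nlinarith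
    exact_mod_cast this
  refine ⟨δ / (8 * (k + 1) * Γ), by positivity,
    max n₀ ⌈2 * ((k + 1) * (2 * Γ + 1) + 1) / δ⌉₊, fun n hn => ?_⟩
  obtain ⟨rows, trips, hS, hR⟩ := h n (le_trans (le_max_left _ _) hn)
  have hn2 : 2 * ((k + 1) * (2 * Γ + 1) + 1) / δ ≤ (n : ℝ) := by
    refine le_trans (Nat.le_ceil _) ?_
    exact_mod_cast le_trans (le_max_right _ _) hn
  rw [div_le_iff₀ hδ] at hn2
  set w : ℕ := ⌊δ / (8 * (k + 1) * Γ) * n⌋₊ with hw
  have hwle : (w : ℝ) ≤ δ / (8 * (k + 1) * Γ) * n := Nat.floor_le (by positivity)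
  have hm : (k + 1) * (2 * (8 * L * k * (2 * w + 1)) + 1) ≤ ⌊δ * n⌋₊ := by
    refine Nat.le_floor ?_
    push_cast
    have e1 : (8 : ℝ) * L * k = Γ := by rw [hΓ]; push_cast; ring
    rw [e1]
    have e2 : (w : ℝ) * (8 * (k + 1) * Γ) ≤ δ * n := by
      have h8 : (0 : ℝ) < 8 * (k + 1) * Γ := by positivity
      have := mul_le_mul_of_nonneg_right hwle h8.le
      have e3 : δ / (8 * (k + 1) * Γ) * n * (8 * (k + 1) * Γ) = δ * n := by
        field_simp
      rw [e3] at this
      exact this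
    nlinarith
  have hcount : ∀ l : List (Fin n), l.Nodup →
      badCount (core rows L) l ≤ (L + 1) * rows.card / L := by
    intro l hl
    rw [Nat.le_div_iff_mul_le (by omega), mul_comm]
    exact badCount_le rows L l hl
  have huq := uniq_formula hS
  refine ⟨formula rows trips, card_formula hk (fun ρ hρ => (hS.row_card ρ hρ).2)
    (fun t ht => (hS.trip_card t ht).2.1), ⟨fun _ => true, huq.1, huq.2⟩, fun S => ?_⟩
  have h1 := success_le S (core rows L) huq.2 hcount
    (fun U x hx _ b => not_infer hS hk hL (le_refl _) hm U x hx b)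
  refine h1.trans ?_
  have hD : (((L + 1) * rows.card / L : ℕ) : ℝ) ≤ (3 + ε) / k * n := by
    refine le_trans Nat.cast_div_le ?_
    push_cast
    have hLpos : (0 : ℝ) < L := by linarith
    rw [div_le_iff₀ hLpos]
    have e1 : (rows.card : ℝ) ≤ (3 + ε / 8) / k * n := by
      refine hR.trans (le_of_eq ?_)
      field_simp
    have e2 : ((L : ℝ) + 1) * (3 + ε / 8) ≤ (3 + ε) * L := by
      rw [div_le_iff₀ hε] at hLε
      nlinarith
    have e3 : ((L : ℝ) + 1) * rows.card ≤ (L + 1) * ((3 + ε / 8) / k * n) :=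
      mul_le_mul_of_nonneg_left e1 (by positivity)
    refine e3.trans ?_
    have e4 : (0 : ℝ) ≤ n / k := by positivity
    have e5 := mul_le_mul_of_nonneg_right e2 e4
    calc ((L : ℝ) + 1) * ((3 + ε / 8) / k * n) = (L + 1) * (3 + ε / 8) * (n / k) := by ring
      _ ≤ (3 + ε) * L * (n / k) := e5
      _ = (3 + ε) / k * n * L := by ring
  have e1 : (2 : ℝ) ^ ((L + 1) * rows.card / L) / 2 ^ n =
      (2 : ℝ) ^ ((((L + 1) * rows.card / L : ℕ) : ℝ) - n) := by
    rw [Real.rpow_sub (by norm_num), Real.rpow_natCast, Real.rpow_natCast]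
  rw [e1]
  refine Real.rpow_le_rpow_of_exponent_le (by norm_num) ?_
  have e2 : -(1 - (3 + ε) / k) * (n : ℝ) = (3 + ε) / k * n - n := by ring
  rw [e2]
  linarith

end Pool.Agent.H13.PZ
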