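import Pool.Agent.H13.PZ.Sys

/-!
# The system of rows and triples made from slots

`rows`: for every group `c` in the image of `γ` the set of variables with a slot in `c`, and `{v}`
for `v ∈ Bad`. `trips`: for every `b` the set `{h (b, j)}`. `δ n` is replaced by `N₀`.
* `row_card`: a group in the image is nonempty and has at most `k` slots. `trip_card`: at most
  three elements, nonempty. If it has less than three, `h (b, j) = h (b, j') = v` with `j ≠ j'`;
  `W = {b, v}` (tags) has two elements and `eW ≥ 2`, so `v ∈ Bad` (`2 ≤ g`) and `{v} ∈ rows`.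
* `uniq`: let `Z` be nonempty with `(ρ ∩ Z).card ≠ 1` for all rows. Every group that contains a slot
  of a variable of `Z` gives a row that meets `Z`, so at least two variables of `Z`, so at least two
  slots of `Z`; as `Z` has `3 |Z|` slots there are at most `(3/2) |Z|` such groups, and at most as
  many colours (different colours have different groups, `(γ p).1 = f p`). So `hu` applies.
* `sparse`: let `S ⊆ rows` with all cards at least `2`, `T ⊆ trips`, `X`. A row in `S` is not `{v}`,
  so it comes from a group `c_ρ` (choose one); different rows have different groups. Let `W` consist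
  of the colours of these groups, of one index `b_t` for every `t ∈ T`, and of `X`. Then
  `|W| ≤ |S| + |T| + |X|`. `∑ ρ ∈ S, |ρ ∩ X| + ∑ t ∈ T, |t ∩ X| ≤ eW f h W`: for `v ∈ ρ ∩ X` choose a
  slot `(v, j)` in the group `c_ρ`, its colour is in `W`; different pairs `(ρ, v)` give different
  slots. For `v ∈ t ∩ X` choose `j` with `h (b_t, j) = v`; again different pairs give different slots.
  Now use `hs`.
* `forest`: the same `W`. If `∑ ... ≥ |S| + |T| + |X| ≥ |W|` then `|W| ≤ eW f h W` and `|W| ≤ g`. If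
  `|W| ≥ 1` every `v ∈ X` is in `Bad`, so `{v} ∈ rows`, so `X = ∅` by hypothesis and the sum is `0`,
  a contradiction to `0 < |S| + |T| + |X|`. If `W = ∅` then `X = ∅` and again the sum is `0`.
* number of rows: at most the number of groups plus `|Bad|`.
-/

namespace Pool.Agent.H13.PZ

open Finset

/-- The variables with a slot in the group `c`. -/
def Mk_grp {n r : ℕ} (γ : Fin n × Fin 3 → Fin r × ℕ) (c : Fin r × ℕ) : Finset (Fin n) :=
  univ.filter fun v => ∃ j, γ (v, j) = c

/-- The values of the slots of `b`. -/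
def Mk_tr {n M : ℕ} (h : Fin M × Fin 3 → Fin n) (b : Fin M) : Finset (Fin n) :=
  univ.image fun j : Fin 3 => h (b, j)

/-- The node set of `S`, `T`, `X`. -/
def Mk_W {n r M : ℕ} (S T : Finset (Finset (Fin n))) (cρ : {ρ // ρ ∈ S} → Fin r × ℕ)
    (bt : {t // t ∈ T} → Fin M) (X : Finset (Fin n)) : Finset (Node n r M) :=
  (S.attach.image fun ρ => Sum.inl (cρ ρ).1) ∪
    ((T.attach.image fun t => Sum.inr (Sum.inl (bt t))) ∪
    (X.image fun v => Sum.inr (Sum.inr v)))

theorem Mk_W_card {n r M : ℕ} (S T : Finset (Finset (Fin n))) (cρ : {ρ // ρ ∈ S} → Fin r × ℕ)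
    (bt : {t // t ∈ T} → Fin M) (X : Finset (Fin n)) :
    (Mk_W S T cρ bt X).card ≤ S.card + T.card + X.card := by
  unfold Mk_W
  have h1 := card_union_le (S.attach.image fun ρ => (Sum.inl (cρ ρ).1 : Node n r M))
    ((T.attach.image fun t => Sum.inr (Sum.inl (bt t))) ∪ (X.image fun v => Sum.inr (Sum.inr v)))
  have h2 := card_union_le (T.attach.image fun t => (Sum.inr (Sum.inl (bt t)) : Node n r M))
    (X.image fun v => Sum.inr (Sum.inr v))
  have h3 : (S.attach.image fun ρ => (Sum.inl (cρ ρ).1 : Node n r M)).card ≤ S.card :=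
    card_image_le.trans card_attach.le
  have h4 : (T.attach.image fun t => (Sum.inr (Sum.inl (bt t)) : Node n r M)).card ≤ T.card :=
    card_image_le.trans card_attach.le
  have h5 : (X.image fun v => (Sum.inr (Sum.inr v) : Node n r M)).card ≤ X.card := card_image_le
  omega

theorem Mk_key {n r M : ℕ} (f : Fin n × Fin 3 → Fin r) (h : Fin M × Fin 3 → Fin n)
    (γ : Fin n × Fin 3 → Fin r × ℕ) (hγf : ∀ p, (γ p).1 = f p)
    (S T : Finset (Finset (Fin n))) (cρ : {ρ // ρ ∈ S} → Fin r × ℕ)
    (bt : {t // t ∈ T} → Fin M) (X : Finset (Fin n))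
    (hc : ∀ ρ, Mk_grp γ (cρ ρ) = ρ.1) (ht : ∀ t, Mk_tr h (bt t) = t.1) :
    ∑ ρ ∈ S, (ρ ∩ X).card + ∑ t ∈ T, (t ∩ X).card ≤ eW f h (Mk_W S T cρ bt X) := by
  rw [← sum_attach S, ← sum_attach T]
  unfold eW
  apply Nat.add_le_add
  · have h1 : ∀ ρ : {ρ // ρ ∈ S}, ∀ v ∈ ρ.1 ∩ X, ∃ j, γ (v, j) = cρ ρ := by
      intro ρ v hv
      have h2 : v ∈ Mk_grp γ (cρ ρ) := by
        rw [hc ρ]
        exact (mem_inter.1 hv).1
      simpa [Mk_grp] using h2
    choose! j hj using h1
    rw [← card_sigma]
    apply card_le_card_of_injOn (fun p : (_ : {ρ // ρ ∈ S}) × Fin n => (p.2, j p.1 p.2))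
    · rintro ⟨ρ, v⟩ hp
      have hp' := mem_sigma.1 (mem_coe.1 hp)
      simp only at hp'
      have h3 := hj ρ v hp'.2
      simp only [coe_filter, mem_univ, true_and, Set.mem_ofPred_eq]
      constructor
      · unfold Mk_W
        apply mem_union_right
        apply mem_union_right
        exact mem_image.2 ⟨v, (mem_inter.1 hp'.2).2, rfl⟩
      · unfold Mk_W
        apply mem_union_left
        refine mem_image.2 ⟨ρ, mem_attach _ _, ?_⟩
        rw [← h3, hγf]
    · rintro ⟨ρ, v⟩ hp ⟨ρ', v'⟩ hp' he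
      have hp1 := mem_sigma.1 (mem_coe.1 hp)
      have hp2 := mem_sigma.1 (mem_coe.1 hp')
      simp only at hp1 hp2
      have hv : v = v' := congrArg Prod.fst he
      have hj' : j ρ v = j ρ' v' := congrArg Prod.snd he
      subst hv
      have h3 := hj ρ v hp1.2
      have h4 := hj ρ' v hp2.2
      rw [hj', h4] at h3
      have h5 : ρ = ρ' := by
        apply Subtype.ext
        rw [← hc ρ, ← hc ρ', h3]
      subst h5
      rfl
  · have h1 : ∀ t : {t // t ∈ T}, ∀ v ∈ t.1 ∩ X, ∃ j, h (bt t, j) = v := by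
      intro t v hv
      have h2 : v ∈ Mk_tr h (bt t) := by
        rw [ht t]
        exact (mem_inter.1 hv).1
      simpa [Mk_tr] using h2
    choose! j hj using h1
    rw [← card_sigma]
    apply card_le_card_of_injOn (fun p : (_ : {t // t ∈ T}) × Fin n => (bt p.1, j p.1 p.2))
    · rintro ⟨t, v⟩ hp
      have hp' := mem_sigma.1 (mem_coe.1 hp)
      simp only at hp'
      have h3 := hj t v hp'.2
      simp only [coe_filter, mem_univ, true_and, Set.mem_ofPred_eq]
      constructor
      · unfold Mk_W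
        apply mem_union_right
        apply mem_union_left
        exact mem_image.2 ⟨t, mem_attach _ _, rfl⟩
      · rw [h3]
        unfold Mk_W
        apply mem_union_right
        apply mem_union_right
        exact mem_image.2 ⟨v, (mem_inter.1 hp'.2).2, rfl⟩
    · rintro ⟨t, v⟩ hp ⟨t', v'⟩ hp' he
      have hp1 := mem_sigma.1 (mem_coe.1 hp)
      have hp2 := mem_sigma.1 (mem_coe.1 hp')
      simp only at hp1 hp2
      have hv : bt t = bt t' := congrArg Prod.fst he
      have hj' : j t v = j t' v' := congrArg Prod.snd he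
      have h3 := hj t v hp1.2
      have h4 := hj t' v' hp2.2
      have h5 : t = t' := by
        apply Subtype.ext
        rw [← ht t, ← ht t', hv]
      subst h5
      rw [hj', h4] at h3
      subst h3
      rfl

theorem Mk_uniq {n r : ℕ} (f : Fin n × Fin 3 → Fin r)
    (γ : Fin n × Fin 3 → Fin r × ℕ) (hγf : ∀ p, (γ p).1 = f p) (Z : Finset (Fin n))
    (hZ : ∀ c ∈ univ.image γ, (Mk_grp γ c ∩ Z).card ≠ 1) :
    2 * ((Z ×ˢ (univ : Finset (Fin 3))).image f).card ≤ 3 * Z.card := by
  have h1 : ((Z ×ˢ (univ : Finset (Fin 3))).image f).card ≤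
      ((Z ×ˢ (univ : Finset (Fin 3))).image γ).card := by
    have h2 : (Z ×ˢ (univ : Finset (Fin 3))).image f =
        ((Z ×ˢ (univ : Finset (Fin 3))).image γ).image Prod.fst := by
      rw [image_image]
      apply image_congr
      intro p _
      simp [hγf]
    rw [h2]
    exact card_image_le
  have h3 : ∀ c ∈ (Z ×ˢ (univ : Finset (Fin 3))).image γ,
      2 ≤ ((Z ×ˢ (univ : Finset (Fin 3))).filter fun p => γ p = c).card := by
    intro c hc
    obtain ⟨p, hp, hpc⟩ := mem_image.1 hc
    have hp1 : p.1 ∈ Z := (mem_product.1 hp).1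
    have h4 := hZ c (mem_image.2 ⟨p, mem_univ _, hpc⟩)
    have h5 : p.1 ∈ Mk_grp γ c ∩ Z := by
      rw [mem_inter]
      refine ⟨?_, hp1⟩
      simp only [Mk_grp, mem_filter, mem_univ, true_and]
      exact ⟨p.2, hpc⟩
    have h6 : 1 < (Mk_grp γ c ∩ Z).card := by
      have := card_pos.2 ⟨_, h5⟩
      omega
    obtain ⟨u, hu, v, hv, huv⟩ := one_lt_card.1 h6
    obtain ⟨hu1, hu2⟩ := mem_inter.1 hu
    obtain ⟨hv1, hv2⟩ := mem_inter.1 hv
    simp only [Mk_grp, mem_filter, mem_univ, true_and] at hu1 hv1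
    obtain ⟨i, hi⟩ := hu1
    obtain ⟨j, hj⟩ := hv1
    apply one_lt_card.2
    refine ⟨(u, i), ?_, (v, j), ?_, ?_⟩
    · simp [hu2, hi]
    · simp [hv2, hj]
    · intro he
      exact huv (congrArg Prod.fst he)
  have h4 : (Z ×ˢ (univ : Finset (Fin 3))).card = ∑ c ∈ (Z ×ˢ (univ : Finset (Fin 3))).image γ,
      ((Z ×ˢ (univ : Finset (Fin 3))).filter fun p => γ p = c).card :=
    card_eq_sum_card_image γ _
  have h5 := sum_le_sum h3
  rw [← h4, sum_const, card_product, card_univ, Fintype.card_fin, smul_eq_mul] at h5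
  omega

theorem exists_sys_of_slots {n r M k q g N₀ : ℕ} (hg : 2 ≤ g)
    (f : Fin n × Fin 3 → Fin r) (h : Fin M × Fin 3 → Fin n) (γ : Fin n × Fin 3 → Fin r × ℕ)
    (Bad : Finset (Fin n)) (hk : 1 ≤ k) (hγf : ∀ p, (γ p).1 = f p)
    (hγk : ∀ c, (univ.filter fun p => γ p = c).card ≤ k)
    (hu : ∀ Z : Finset (Fin n), Z.Nonempty →
      2 * ((Z ×ˢ (univ : Finset (Fin 3))).image f).card ≤ 3 * Z.card → ∃ b, ∀ j, h (b, j) ∈ Z)
    (hs : ∀ W : Finset (Node n r M), W.card ≤ N₀ → q * eW f h W ≤ (q + 1) * W.card)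
    (hb : ∀ W : Finset (Node n r M), 1 ≤ W.card → W.card ≤ g → W.card ≤ eW f h W →
      ∀ v, Sum.inr (Sum.inr v) ∈ W → v ∈ Bad) :
    ∃ rows trips : Finset (Finset (Fin n)), Sys rows trips k q g N₀ ∧
      rows.card ≤ (univ.image γ).card + Bad.card := by
  set R : Finset (Finset (Fin n)) :=
    (univ.image γ).image (Mk_grp γ) ∪ Bad.image fun v => ({v} : Finset (Fin n)) with hR
  have hbad : ∀ v ∈ Bad, ({v} : Finset (Fin n)) ∈ R := by
    intro v hv
    apply mem_union_right
    exact mem_image.2 ⟨v, hv, rfl⟩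
  have hrow : ∀ ρ ∈ R, 2 ≤ ρ.card → ∃ c, Mk_grp γ c = ρ := by
    intro ρ hρ h2
    rcases mem_union.1 hρ with h3 | h3
    · obtain ⟨c, _, hc⟩ := mem_image.1 h3
      exact ⟨c, hc⟩
    · obtain ⟨v, _, hv⟩ := mem_image.1 h3
      rw [← hv, card_singleton] at h2
      omega
  have htrip : ∀ t ∈ univ.image (Mk_tr h), ∃ b, Mk_tr h b = t := by
    intro t ht
    obtain ⟨b, _, hb⟩ := mem_image.1 ht
    exact ⟨b, hb⟩
  have hW : ∀ S ⊆ R, ∀ T ⊆ univ.image (Mk_tr h), ∀ X : Finset (Fin n), (∀ ρ ∈ S, 2 ≤ ρ.card) →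
      ∃ W : Finset (Node n r M), W.card ≤ S.card + T.card + X.card ∧
        ∑ ρ ∈ S, (ρ ∩ X).card + ∑ t ∈ T, (t ∩ X).card ≤ eW f h W ∧
        ∀ v ∈ X, Sum.inr (Sum.inr v) ∈ W := by
    intro S hS T hT X h2
    have h3 : ∀ ρ : {ρ // ρ ∈ S}, ∃ c, Mk_grp γ c = ρ.1 := fun ρ =>
      hrow ρ.1 (hS ρ.2) (h2 ρ.1 ρ.2)
    have h4 : ∀ t : {t // t ∈ T}, ∃ b, Mk_tr h b = t.1 := fun t => htrip t.1 (hT t.2)
    choose cρ hc using h3
    choose bt ht using h4
    refine ⟨Mk_W S T cρ bt X, Mk_W_card S T cρ bt X, Mk_key f h γ hγf S T cρ bt X hc ht, ?_⟩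
    intro v hv
    unfold Mk_W
    apply mem_union_right
    apply mem_union_right
    exact mem_image.2 ⟨v, hv, rfl⟩
  refine ⟨R, univ.image (Mk_tr h), ⟨?_, ?_, ?_, ?_, ?_⟩, ?_⟩
  · intro ρ hρ
    rcases mem_union.1 hρ with h3 | h3
    · obtain ⟨c, hc, hcρ⟩ := mem_image.1 h3
      obtain ⟨p, _, hp⟩ := mem_image.1 hc
      rw [← hcρ]
      refine ⟨⟨p.1, ?_⟩, ?_⟩
      · simp only [Mk_grp, mem_filter, mem_univ, true_and]
        exact ⟨p.2, hp⟩
      · refine le_trans ?_ (hγk c)
        have h5 : Mk_grp γ c ⊆ (univ.filter fun p => γ p = c).image Prod.fst := by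
          intro v hv
          simp only [Mk_grp, mem_filter, mem_univ, true_and] at hv
          obtain ⟨j, hj⟩ := hv
          exact mem_image.2 ⟨(v, j), by simp [hj], rfl⟩
        exact (card_le_card h5).trans card_image_le
    · obtain ⟨v, _, hv⟩ := mem_image.1 h3
      rw [← hv]
      exact ⟨singleton_nonempty _, by rw [card_singleton]; exact hk⟩
  · intro t ht
    obtain ⟨b, _, hbt⟩ := mem_image.1 ht
    have h3 : t.card ≤ 3 := by
      rw [← hbt]
      refine card_image_le.trans ?_
      simp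
    refine ⟨?_, h3, ?_⟩
    · rw [← hbt]
      exact ⟨h (b, 0), mem_image.2 ⟨0, mem_univ _, rfl⟩⟩
    · by_cases h4 : t.card = 3
      · exact Or.inl h4
      · right
        have h5 : ¬ Function.Injective fun j : Fin 3 => h (b, j) := by
          intro h6
          apply h4
          rw [← hbt]
          unfold Mk_tr
          rw [card_image_of_injective _ h6]
          simp
        unfold Function.Injective at h5
        push Not at h5
        obtain ⟨i, j, hij, hne⟩ := h5
        refine ⟨h (b, i), ?_, ?_⟩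
        · rw [← hbt]
          exact mem_image.2 ⟨i, mem_univ _, rfl⟩
        · apply hbad
          have hcard : ({Sum.inr (Sum.inl b), Sum.inr (Sum.inr (h (b, i)))} :
              Finset (Node n r M)).card = 2 := by
            rw [card_pair]
            simp
          refine hb {Sum.inr (Sum.inl b), Sum.inr (Sum.inr (h (b, i)))} (by rw [hcard]; norm_num)
            (by rw [hcard]; exact hg) ?_ (h (b, i)) (by simp)
          rw [hcard]
          unfold eW
          refine le_trans ?_ (Nat.le_add_left _ _)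
          apply one_lt_card.2
          refine ⟨(b, i), ?_, (b, j), ?_, ?_⟩
          · simp
          · simp only [mem_filter, mem_univ, true_and]
            constructor
            · simp
            · have h7 : h (b, j) = h (b, i) := hij.symm
              rw [h7]
              simp
          · intro he
            exact hne (congrArg Prod.snd he)
  · intro Z hZ h1
    obtain ⟨b, hb1⟩ := hu Z hZ (Mk_uniq f γ hγf Z (fun c hc => h1 _ (mem_union_left _
      (mem_image.2 ⟨c, hc, rfl⟩))))
    refine ⟨Mk_tr h b, mem_image.2 ⟨b, mem_univ _, rfl⟩, ?_⟩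
    intro v hv
    obtain ⟨j, _, hj⟩ := mem_image.1 hv
    rw [← hj]
    exact hb1 j
  · intro S hS T hT X h2 hN
    obtain ⟨W, hW1, hW2, _⟩ := hW S hS T hT X h2
    calc q * (∑ ρ ∈ S, (ρ ∩ X).card + ∑ t ∈ T, (t ∩ X).card) ≤ q * eW f h W :=
          Nat.mul_le_mul_left _ hW2
      _ ≤ (q + 1) * W.card := hs W (hW1.trans hN)
      _ ≤ _ := Nat.mul_le_mul_left _ hW1
  · intro S hS T hT X h2 hX h0 hg'
    obtain ⟨W, hW1, hW2, hW3⟩ := hW S hS T hT X h2
    by_contra hcon
    push Not at hcon
    have hX0 : X = ∅ := by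
      by_contra hne
      obtain ⟨v, hv⟩ := nonempty_iff_ne_empty.2 hne
      have h3 := hW3 v hv
      exact hX v hv (hbad v (hb W (card_pos.2 ⟨_, h3⟩) (hW1.trans hg') (by omega) v h3))
    subst hX0
    simp only [inter_empty, card_empty, sum_const_zero, Nat.add_zero] at hcon h0
    omega
  · refine (card_union_le _ _).trans ?_
    exact Nat.add_le_add card_image_le card_image_le

end Pool.Agent.H13.PZ
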