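import Pool.Agent.H13.PZ.Sys

/-!
# Counting slots: a fixed set of nodes

`Ω = (Fin n × Fin 3 → Fin r) × (Fin M × Fin 3 → Fin n)`, `0 < r ≤ n`. For a set `W` of nodes let `O₁`
be the set of `p : Fin n × Fin 3` with `inr (inr p.1) ∈ W` and `O₂` the set of `p : Fin M × Fin 3`
with `inr (inl p.1) ∈ W`; `|O₁| + |O₂| ≤ 3 |W|` (every node in `W` owns at most three of them).
(1) `card_maps`: the number of `f : α → β` with `f p ∈ B` for all `p ∈ E` is
`|B| ^ |E| * |β| ^ (|α| - |E|)` (`Fintype.card_pi` / `Fintype.piFinset`).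
(2) For `E₁ ⊆ O₁`, `E₂ ⊆ O₂` with `|E₁| + |E₂| = e`: the number of `(f, h) ∈ Ω` with
`inl (f p) ∈ W` for `p ∈ E₁` and `inr (inr (h p)) ∈ W` for `p ∈ E₂` is at most
`(|W| / r) ^ e * |Ω|`, because at most `|W|` colours and at most `|W|` variables are in `W` and
`|W| / n ≤ |W| / r`.
(3) If `e ≤ eW f h W` then the slots counted in `eW` contain a pair `(E₁, E₂)` as in (2), i.e. a
subset of card `e` of `O₁.disjSum O₂` (`Finset.powersetCard`; there are
`(|O₁| + |O₂|).choose e ≤ (3 |W|).choose e` of them). Union bound.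
-/

namespace Pool.Agent.H13.PZ

open Finset

theorem card_maps {α β : Type} [Fintype α] [DecidableEq α] [Fintype β] [DecidableEq β]
    (E : Finset α) (B : Finset β) :
    (univ.filter fun f : α → β => ∀ p ∈ E, f p ∈ B).card =
      B.card ^ E.card * Fintype.card β ^ (Fintype.card α - E.card) := by
  have h1 : (univ.filter fun f : α → β => ∀ p ∈ E, f p ∈ B) =
      Fintype.piFinset (fun p => if p ∈ E then B else univ) := by
    ext f
    rw [mem_filter, Fintype.mem_piFinset]
    constructor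
    · rintro ⟨-, h⟩ p
      split_ifs with hp
      · exact h p hp
      · exact mem_univ _
    · intro h
      refine ⟨mem_univ _, fun p hp => ?_⟩
      have := h p
      rwa [if_pos hp] at this
  rw [h1, Fintype.card_piFinset]
  have h2 : ∀ p : α, (if p ∈ E then B else (univ : Finset β)).card =
      if p ∈ E then B.card else Fintype.card β := by
    intro p
    split_ifs
    · rfl
    · exact card_univ
  rw [prod_congr rfl (fun p _ => h2 p), prod_ite, prod_const, prod_const]
  have h3 : (univ.filter fun p : α => p ∈ E) = E := by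
    ext p
    simp
  have h4 : (univ.filter fun p : α => p ∉ E) = Eᶜ := by
    ext p
    simp
  rw [h3, h4, card_compl]

/-- The number of maps in the second step, as a real number. -/
theorem PrA_maps {α β : Type} [Fintype α] [DecidableEq α] [Fintype β] [DecidableEq β]
    (E : Finset α) (B : Finset β) (hβ : 0 < Fintype.card β) {y : ℝ}
    (hy : (B.card : ℝ) / Fintype.card β ≤ y) :
    ((univ.filter fun f : α → β => ∀ p ∈ E, f p ∈ B).card : ℝ) ≤
      y ^ E.card * (Fintype.card β : ℝ) ^ Fintype.card α := by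
  rw [card_maps]
  push_cast
  have hb : (0 : ℝ) < Fintype.card β := by exact_mod_cast hβ
  have hle : E.card ≤ Fintype.card α := card_le_univ E
  have h1 : (B.card : ℝ) ^ E.card * (Fintype.card β : ℝ) ^ (Fintype.card α - E.card) =
      ((B.card : ℝ) / Fintype.card β) ^ E.card * (Fintype.card β : ℝ) ^ Fintype.card α := by
    rw [div_pow]
    have h2 : (Fintype.card β : ℝ) ^ Fintype.card α =
        (Fintype.card β : ℝ) ^ E.card * (Fintype.card β : ℝ) ^ (Fintype.card α - E.card) := by
      rw [← pow_add]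
      congr 1
      omega
    rw [h2]
    field_simp
  rw [h1]
  exact mul_le_mul_of_nonneg_right (pow_le_pow_left₀ (by positivity) hy _) (by positivity)

theorem PrA_two {n r M : ℕ} (hr : 0 < r) (hrn : r ≤ n) (W : Finset (Node n r M))
    (E : Finset ((Fin n × Fin 3) ⊕ (Fin M × Fin 3))) :
    (((univ : Finset ((Fin n × Fin 3 → Fin r) × (Fin M × Fin 3 → Fin n))).filter
      fun ω => (∀ p ∈ E.toLeft, (Sum.inl (ω.1 p) : Node n r M) ∈ W) ∧
        (∀ p ∈ E.toRight, (Sum.inr (Sum.inr (ω.2 p)) : Node n r M) ∈ W)).card : ℝ) ≤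
      ((W.card : ℝ) / r) ^ E.card *
        (Fintype.card ((Fin n × Fin 3 → Fin r) × (Fin M × Fin 3 → Fin n)) : ℝ) := by
  classical
  set B₁ : Finset (Fin r) := univ.filter fun c => (Sum.inl c : Node n r M) ∈ W with hB₁
  set B₂ : Finset (Fin n) := univ.filter fun v => (Sum.inr (Sum.inr v) : Node n r M) ∈ W with hB₂
  have hc1 : B₁.card ≤ W.card := by
    refine card_le_card_of_injOn (fun c => (Sum.inl c : Node n r M)) (fun c hc => ?_)
      (fun a _ b _ h => Sum.inl_injective h)
    exact (mem_filter.1 hc).2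
  have hc2 : B₂.card ≤ W.card := by
    refine card_le_card_of_injOn (fun c => (Sum.inr (Sum.inr c) : Node n r M)) (fun c hc => ?_)
      (fun a _ b _ h => Sum.inr_injective (Sum.inr_injective h))
    exact (mem_filter.1 hc).2
  have hset : ((univ : Finset ((Fin n × Fin 3 → Fin r) × (Fin M × Fin 3 → Fin n))).filter
      fun ω => (∀ p ∈ E.toLeft, (Sum.inl (ω.1 p) : Node n r M) ∈ W) ∧
        (∀ p ∈ E.toRight, (Sum.inr (Sum.inr (ω.2 p)) : Node n r M) ∈ W)) =
      (univ.filter fun f : Fin n × Fin 3 → Fin r => ∀ p ∈ E.toLeft, f p ∈ B₁) ×ˢ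
      (univ.filter fun f : Fin M × Fin 3 → Fin n => ∀ p ∈ E.toRight, f p ∈ B₂) := by
    ext ω
    rw [mem_product, mem_filter, mem_filter, mem_filter, hB₁, hB₂]
    simp only [mem_univ, true_and, mem_filter]
  rw [hset, card_product]
  push_cast
  have hr0 : (0 : ℝ) < r := by exact_mod_cast hr
  have hn0 : 0 < n := lt_of_lt_of_le hr hrn
  have hy1 : (B₁.card : ℝ) / Fintype.card (Fin r) ≤ (W.card : ℝ) / r := by
    rw [Fintype.card_fin]
    have : (B₁.card : ℝ) ≤ W.card := by exact_mod_cast hc1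
    gcongr
  have hy2 : (B₂.card : ℝ) / Fintype.card (Fin n) ≤ (W.card : ℝ) / r := by
    rw [Fintype.card_fin]
    have h1 : (B₂.card : ℝ) ≤ W.card := by exact_mod_cast hc2
    have h2 : (r : ℝ) ≤ n := by exact_mod_cast hrn
    gcongr
  have h1 := PrA_maps E.toLeft B₁ (by rw [Fintype.card_fin]; exact hr) hy1
  have h2 := PrA_maps E.toRight B₂ (by rw [Fintype.card_fin]; exact hn0) hy2
  have h3 := mul_le_mul h1 h2 (Nat.cast_nonneg _) (by positivity)
  refine h3.trans (le_of_eq ?_)
  have hcd : (Fintype.card ((Fin n × Fin 3 → Fin r) × (Fin M × Fin 3 → Fin n)) : ℝ) =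
      (Fintype.card (Fin r) : ℝ) ^ Fintype.card (Fin n × Fin 3) *
        (Fintype.card (Fin n) : ℝ) ^ Fintype.card (Fin M × Fin 3) := by
    rw [Fintype.card_prod (Fin n × Fin 3 → Fin r), Fintype.card_fun, Fintype.card_fun]
    push_cast
    ring
  rw [hcd, ← card_toLeft_add_card_toRight (u := E), pow_add]
  ring

theorem card_eW_ge {n r M : ℕ} (hr : 0 < r) (hrn : r ≤ n) (W : Finset (Node n r M)) (e : ℕ) :
    (((univ : Finset ((Fin n × Fin 3 → Fin r) × (Fin M × Fin 3 → Fin n))).filter
      fun ω => e ≤ eW ω.1 ω.2 W).card : ℝ) ≤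
      ((3 * W.card).choose e : ℝ) * ((W.card : ℝ) / r) ^ e *
        (Fintype.card ((Fin n × Fin 3 → Fin r) × (Fin M × Fin 3 → Fin n)) : ℝ) := by
  classical
  set own : (Fin n × Fin 3) ⊕ (Fin M × Fin 3) → Node n r M := fun s =>
    Sum.elim (fun p => Sum.inr (Sum.inr p.1)) (fun p => Sum.inr (Sum.inl p.1)) s with hown
  set O : Finset ((Fin n × Fin 3) ⊕ (Fin M × Fin 3)) := univ.filter fun s => own s ∈ W with hO
  have hOc : O.card ≤ 3 * W.card := by
    have h1 : O.card ≤ (W ×ˢ (univ : Finset (Fin 3))).card := by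
      refine card_le_card_of_injOn
        (fun s => (own s, Sum.elim (fun p => p.2) (fun p => p.2) s)) (fun s hs => ?_) ?_
      · have h := (mem_filter.1 hs).2
        exact mem_coe.2 (mem_product.2 ⟨h, mem_univ _⟩)
      · rintro (⟨a, a'⟩ | ⟨a, a'⟩) _ (⟨b, b'⟩ | ⟨b, b'⟩) _ h
        all_goals
          rw [hown] at h
          simp only [Sum.elim_inl, Sum.elim_inr, Prod.mk.injEq, Sum.inr.injEq, Sum.inl.injEq,
            reduceCtorEq, false_and] at h
        · obtain ⟨rfl, rfl⟩ := h
          rfl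
        · obtain ⟨rfl, rfl⟩ := h
          rfl
    rw [card_product, card_univ, Fintype.card_fin] at h1
    omega
  set T : Finset ((Fin n × Fin 3) ⊕ (Fin M × Fin 3)) →
      Finset ((Fin n × Fin 3 → Fin r) × (Fin M × Fin 3 → Fin n)) := fun E =>
    (univ : Finset ((Fin n × Fin 3 → Fin r) × (Fin M × Fin 3 → Fin n))).filter
      fun ω => (∀ p ∈ E.toLeft, (Sum.inl (ω.1 p) : Node n r M) ∈ W) ∧
        (∀ p ∈ E.toRight, (Sum.inr (Sum.inr (ω.2 p)) : Node n r M) ∈ W) with hT
  have hsub : ((univ : Finset ((Fin n × Fin 3 → Fin r) × (Fin M × Fin 3 → Fin n))).filter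
      fun ω => e ≤ eW ω.1 ω.2 W) ⊆ (powersetCard e O).biUnion T := by
    intro ω hω
    have he := (mem_filter.1 hω).2
    set S : Finset ((Fin n × Fin 3) ⊕ (Fin M × Fin 3)) := O.filter fun s =>
      (Sum.elim (fun p => (Sum.inl (ω.1 p) : Node n r M))
        (fun p => (Sum.inr (Sum.inr (ω.2 p)) : Node n r M)) s) ∈ W with hS
    have hl : S.toLeft = (univ.filter fun p : Fin n × Fin 3 =>
        Sum.inr (Sum.inr p.1) ∈ W ∧ Sum.inl (ω.1 p) ∈ W) := by
      ext p
      rw [mem_toLeft, hS, mem_filter, hO, mem_filter, mem_filter, hown]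
      simp only [mem_univ, true_and, Sum.elim_inl]
    have hr' : S.toRight = (univ.filter fun p : Fin M × Fin 3 =>
        Sum.inr (Sum.inl p.1) ∈ W ∧ Sum.inr (Sum.inr (ω.2 p)) ∈ W) := by
      ext p
      rw [mem_toRight, hS, mem_filter, hO, mem_filter, mem_filter, hown]
      simp only [mem_univ, true_and, Sum.elim_inr]
    have hSc : S.card = eW ω.1 ω.2 W := by
      rw [← card_toLeft_add_card_toRight (u := S), hl, hr']
      rfl
    obtain ⟨E, hE1, hE2⟩ := exists_subset_card_eq (s := S) (n := e) (by rw [hSc]; exact he)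
    rw [mem_biUnion]
    refine ⟨E, mem_powersetCard.2 ⟨hE1.trans (filter_subset _ _), hE2⟩, ?_⟩
    rw [hT]
    simp only [mem_filter, mem_univ, true_and]
    constructor
    · intro p hp
      have h1 := hE1 (mem_toLeft.1 hp)
      have h2 := (mem_filter.1 h1).2
      simpa only [Sum.elim_inl] using h2
    · intro p hp
      have h1 := hE1 (mem_toRight.1 hp)
      have h2 := (mem_filter.1 h1).2
      simpa only [Sum.elim_inr] using h2
  have h1 : (((univ : Finset ((Fin n × Fin 3 → Fin r) × (Fin M × Fin 3 → Fin n))).filter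
      fun ω => e ≤ eW ω.1 ω.2 W).card : ℝ) ≤ ∑ E ∈ powersetCard e O, ((T E).card : ℝ) := by
    exact_mod_cast (card_le_card hsub).trans card_biUnion_le
  refine h1.trans ?_
  have h2 : ∀ E ∈ powersetCard e O, ((T E).card : ℝ) ≤ ((W.card : ℝ) / r) ^ e *
        (Fintype.card ((Fin n × Fin 3 → Fin r) × (Fin M × Fin 3 → Fin n)) : ℝ) := by
    intro E hE
    have h3 := PrA_two hr hrn W E
    rw [(mem_powersetCard.1 hE).2] at h3
    exact h3
  refine (sum_le_sum h2).trans ?_
  rw [sum_const, card_powersetCard, nsmul_eq_mul, ← mul_assoc]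
  refine mul_le_mul_of_nonneg_right (mul_le_mul_of_nonneg_right ?_ (by positivity))
    (Nat.cast_nonneg _)
  exact_mod_cast Nat.choose_le_choose e hOc

end Pool.Agent.H13.PZ
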