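import Pool.Agent.H13.PZ.PrA
import Pool.Agent.H13.PZ.Num

/-!
# Few choices of slots are dense somewhere

`P` is a set of nodes with `|P| ≤ C r`. If some nonempty `W ⊆ P` with `|W| ≤ δ r` has
`(q + 1) |W| ≤ q * eW f h W`, let `N = |W|` and `e_N` the least natural number with
`(q + 1) N ≤ q * e_N`; then `e_N ≤ eW f h W`. Union bound over `N` with `1 ≤ N ≤ δ r` (so `N ≤ r`) and
`W ∈ P.powersetCard N` (`|P|.choose N` sets), `card_eW_ge` for `e = e_N` and `num_sparse`: at most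
`∑ N ≥ 1, (1 / 16) ^ N = 1 / 15` of all `(f, h)`.
-/

namespace Pool.Agent.H13.PZ

open Finset

theorem PrS_geo (R : ℕ) : ∑ N ∈ Icc 1 R, ((1 : ℝ) / 16) ^ N ≤ 1 / 15 - 1 / 15 * (1 / 16) ^ R := by
  induction R with
  | zero => simp
  | succ R ih =>
    rw [Finset.sum_Icc_succ_top (by omega)]
    have h : ((1 : ℝ) / 16) ^ (R + 1) = 1 / 16 * (1 / 16) ^ R := by ring
    rw [h]
    linarith

open Classical in
theorem frac_sparse {n r M q : ℕ} {C δ : ℝ} (hr : 0 < r) (hrn : r ≤ n) (hC : 0 ≤ C)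
    (hδ0 : 0 ≤ δ) (hδ : δ ≤ 1) (hq : 1 ≤ q)
    (hCδ : 8 * Real.exp 1 * C * δ ^ ((1 : ℝ) / q) ≤ 1 / 16)
    (P : Finset (Node n r M)) (hP : (P.card : ℝ) ≤ C * r) :
    (((univ : Finset ((Fin n × Fin 3 → Fin r) × (Fin M × Fin 3 → Fin n))).filter
      fun ω => ∃ W ⊆ P, 1 ≤ W.card ∧ (W.card : ℝ) ≤ δ * r ∧
        (q + 1) * W.card ≤ q * eW ω.1 ω.2 W).card : ℝ) ≤
      1 / 15 * (Fintype.card ((Fin n × Fin 3 → Fin r) × (Fin M × Fin 3 → Fin n)) : ℝ) := by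
  have hex : ∀ N : ℕ, ∃ e : ℕ, (q + 1) * N ≤ q * e := fun N =>
    ⟨(q + 1) * N, Nat.le_mul_of_pos_left _ hq⟩
  set eN : ℕ → ℕ := fun N => Nat.find (hex N) with heN
  have he1 : ∀ N, (q + 1) * N ≤ q * eN N := fun N => Nat.find_spec (hex N)
  have he2 : ∀ N e, (q + 1) * N ≤ q * e → eN N ≤ e := fun N e h => Nat.find_min' (hex N) h
  set Ωc : ℝ := (Fintype.card ((Fin n × Fin 3 → Fin r) × (Fin M × Fin 3 → Fin n)) : ℝ) with hΩ
  have hΩ0 : 0 ≤ Ωc := Nat.cast_nonneg _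
  set Ns : Finset ℕ := (Icc 1 r).filter (fun N => (N : ℝ) ≤ δ * r) with hNs
  set bad : ℕ → Finset (Node n r M) → Finset ((Fin n × Fin 3 → Fin r) × (Fin M × Fin 3 → Fin n)) :=
    fun N W => univ.filter (fun ω => eN N ≤ eW ω.1 ω.2 W) with hbad
  have hsub : ((univ : Finset ((Fin n × Fin 3 → Fin r) × (Fin M × Fin 3 → Fin n))).filter
      fun ω => ∃ W ⊆ P, 1 ≤ W.card ∧ (W.card : ℝ) ≤ δ * r ∧
        (q + 1) * W.card ≤ q * eW ω.1 ω.2 W) ⊆
      Ns.biUnion (fun N => (P.powersetCard N).biUnion (fun W => bad N W)) := by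
    intro ω hω
    obtain ⟨W, hW, h1, h2, h3⟩ := (Finset.mem_filter.mp hω).2
    rw [Finset.mem_biUnion]
    refine ⟨W.card, ?_, ?_⟩
    · rw [hNs, Finset.mem_filter, Finset.mem_Icc]
      refine ⟨⟨h1, ?_⟩, h2⟩
      have hr0 : (0 : ℝ) ≤ r := Nat.cast_nonneg r
      have h4 : (W.card : ℝ) ≤ r := by nlinarith
      exact_mod_cast h4
    · rw [Finset.mem_biUnion]
      refine ⟨W, Finset.mem_powersetCard.mpr ⟨hW, rfl⟩, ?_⟩
      exact Finset.mem_filter.mpr ⟨Finset.mem_univ _, he2 _ _ h3⟩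
  have hc1 := Finset.card_le_card hsub
  have hc2 : (Ns.biUnion (fun N => (P.powersetCard N).biUnion (fun W => bad N W))).card ≤
      ∑ N ∈ Ns, ∑ W ∈ P.powersetCard N, (bad N W).card :=
    Finset.card_biUnion_le.trans (Finset.sum_le_sum fun N _ => Finset.card_biUnion_le)
  have hc3 : ((∑ N ∈ Ns, ∑ W ∈ P.powersetCard N, (bad N W).card : ℕ) : ℝ) ≤
      ∑ N ∈ Ns, (1 / 16 : ℝ) ^ N * Ωc := by
    push_cast
    apply Finset.sum_le_sum
    intro N hN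
    rw [hNs, Finset.mem_filter, Finset.mem_Icc] at hN
    have h1 : ∀ W ∈ P.powersetCard N, ((bad N W).card : ℝ) ≤
        ((3 * N).choose (eN N) : ℝ) * ((N : ℝ) / r) ^ (eN N) * Ωc := by
      intro W hW
      have h2 := card_eW_ge (M := M) hr hrn W (eN N)
      rw [(Finset.mem_powersetCard.mp hW).2] at h2
      have e1 : bad N W = ((univ : Finset ((Fin n × Fin 3 → Fin r) × (Fin M × Fin 3 → Fin n))).filter
          fun ω => eN N ≤ eW ω.1 ω.2 W) := rfl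
      rw [e1]
      convert h2 using 2
    refine (Finset.sum_le_sum h1).trans ?_
    rw [Finset.sum_const, Finset.card_powersetCard, nsmul_eq_mul]
    have h3 := num_sparse (v := P.card) hC hδ0 hδ hq hr hP hN.1.1 hN.2 hCδ (he1 N)
    calc (P.card.choose N : ℝ) * (((3 * N).choose (eN N) : ℝ) * ((N : ℝ) / r) ^ (eN N) * Ωc)
        = (P.card.choose N : ℝ) * (((3 * N).choose (eN N) : ℝ) * ((N : ℝ) / r) ^ (eN N)) * Ωc := by
          ring
      _ ≤ (1 / 16 : ℝ) ^ N * Ωc := mul_le_mul_of_nonneg_right h3 hΩ0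
  have hc4 : ∑ N ∈ Ns, (1 / 16 : ℝ) ^ N * Ωc ≤ 1 / 15 * Ωc := by
    rw [← Finset.sum_mul]
    apply mul_le_mul_of_nonneg_right _ hΩ0
    have h1 : ∑ N ∈ Ns, (1 / 16 : ℝ) ^ N ≤ ∑ N ∈ Icc 1 r, (1 / 16 : ℝ) ^ N :=
      Finset.sum_le_sum_of_subset_of_nonneg (Finset.filter_subset _ _) (fun _ _ _ => by positivity)
    have h2 := PrS_geo r
    have h3 : (0 : ℝ) ≤ 1 / 15 * (1 / 16) ^ r := by positivity
    linarith
  have hc5 : (((univ : Finset ((Fin n × Fin 3 → Fin r) × (Fin M × Fin 3 → Fin n))).filter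
      fun ω => ∃ W ⊆ P, 1 ≤ W.card ∧ (W.card : ℝ) ≤ δ * r ∧
        (q + 1) * W.card ≤ q * eW ω.1 ω.2 W).card : ℝ) ≤
      ((∑ N ∈ Ns, ∑ W ∈ P.powersetCard N, (bad N W).card : ℕ) : ℝ) := by
    exact_mod_cast hc1.trans hc2
  exact hc5.trans (hc3.trans hc4)

end Pool.Agent.H13.PZ
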