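import Pool.Agent.H13.PZ.Sys

/-!
# Parity constraints implied by few constraints

`supp V J`: the points in an odd number of the `V i`, `i ∈ J`. `supp V (J ∆ J') =
supp V J ∆ supp V J'` (`∆` is `symmDiff`; the number of `i ∈ J ∆ J'` with `v ∈ V i` has the parity of
the sum of the numbers for `J` and `J'`), `bdry V J ⊆ supp V J`.
`Rel T s`: some `J ⊆ I` with at most `m` elements has `(supp V J).erase x = T`, and `s` is `-1` if
`x ∈ supp V J`, and `1` otherwise. Let `Γ * (W + 1) ≤ m`.
* `rel_unique`: if `J`, `J'` belong to the same `T` then `supp V (J ∆ J') ⊆ {x}`, so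
  `bdry V (J ∆ J')` has at most one element; `J ∆ J' ⊆ I` has at most `2 m` elements, so by
  `ParSys.bd` it is empty, `J = J'`, and `s = s'`.
* `rel_mul`: `J ∆ J'` has at most `2 m` elements, and `(supp V (J ∆ J')).erase x = T ∆ T'`,
  `bdry V (J ∆ J') ⊆ supp` has at most `W + 1` elements; by `bd` `|J ∆ J'| ≤ Γ (W + 1) ≤ m` (or it is
  empty). The sign: `x ∈ supp V J ∆ supp V J'` iff exactly one of the memberships holds.
* `rel_empty`: `J = ∅`. `rel_single`: `J = {i}`, `supp V {i} = V i`, `1 ≤ m`.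
-/

namespace Pool.Agent.H13.PZ

open Finset

/-- The points that lie in an odd number of the sets `V i`, `i ∈ J`. -/
def supp {n : ℕ} {ι : Type} (V : ι → Finset (Fin n)) (J : Finset ι) : Finset (Fin n) :=
  univ.filter fun v => Odd (J.filter fun i => v ∈ V i).card

/-- The parity constraint on `T` with sign `s` follows from at most `m` constraints. -/
def Rel {n : ℕ} {ι : Type} (I : Finset ι) (V : ι → Finset (Fin n)) (m : ℕ) (x : Fin n)
    (T : Finset (Fin n)) (s : ℝ) : Prop :=
  ∃ J ⊆ I, J.card ≤ m ∧ (supp V J).erase x = T ∧ s = if x ∈ supp V J then -1 else 1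

theorem SosA_sub {ι : Type} [DecidableEq ι] {I J J' : Finset ι} (hJ : J ⊆ I) (hJ' : J' ⊆ I) :
    symmDiff J J' ⊆ I := by
  intro i hi
  rw [Finset.mem_symmDiff] at hi
  rcases hi with hi | hi
  · exact hJ hi.1
  · exact hJ' hi.1

theorem SosA_card {ι : Type} [DecidableEq ι] (J J' : Finset ι) :
    (symmDiff J J').card ≤ J.card + J'.card := by
  have h1 : symmDiff J J' ⊆ J ∪ J' := by
    intro i hi
    rw [Finset.mem_symmDiff] at hi
    rw [Finset.mem_union]
    rcases hi with hi | hi
    · exact Or.inl hi.1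
    · exact Or.inr hi.1
  exact (Finset.card_le_card h1).trans (Finset.card_union_le _ _)

theorem supp_symmDiff {n : ℕ} {ι : Type} [DecidableEq ι] (V : ι → Finset (Fin n))
    (J J' : Finset ι) : supp V (symmDiff J J') = symmDiff (supp V J) (supp V J') := by
  have hcard : ∀ A B : Finset ι, (symmDiff A B).card + 2 * (A ∩ B).card = A.card + B.card := by
    intro A B
    have h1 : (symmDiff A B).card = (A \ B).card + (B \ A).card := by
      rw [symmDiff_def, Finset.sup_eq_union]
      exact Finset.card_union_of_disjoint (disjoint_sdiff_sdiff)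
    have h2 := Finset.card_sdiff_add_card_inter A B
    have h3 := Finset.card_sdiff_add_card_inter B A
    rw [Finset.inter_comm B A] at h3
    omega
  ext v
  have hf : (symmDiff J J').filter (fun i => v ∈ V i) =
      symmDiff (J.filter fun i => v ∈ V i) (J'.filter fun i => v ∈ V i) := by
    ext i
    simp only [Finset.mem_filter, Finset.mem_symmDiff]
    tauto
  have hc := hcard (J.filter fun i => v ∈ V i) (J'.filter fun i => v ∈ V i)
  rw [Finset.mem_symmDiff]
  unfold supp
  simp only [Finset.mem_filter, Finset.mem_univ, true_and]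
  rw [hf]
  simp only [Nat.odd_iff]
  omega

theorem bdry_subset_supp {n : ℕ} {ι : Type} (V : ι → Finset (Fin n)) (J : Finset ι) :
    bdry V J ⊆ supp V J := by
  intro v hv
  unfold bdry at hv
  unfold supp
  rw [Finset.mem_filter] at hv ⊢
  refine ⟨hv.1, ?_⟩
  rw [hv.2]
  exact odd_one

theorem rel_sign {n : ℕ} {ι : Type} {I : Finset ι} {V : ι → Finset (Fin n)} {m : ℕ}
    {x : Fin n} {T : Finset (Fin n)} {s : ℝ} (h : Rel I V m x T s) : s = 1 ∨ s = -1 := by
  obtain ⟨J, _, _, _, hs⟩ := h
  rw [hs]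
  split_ifs
  · exact Or.inr rfl
  · exact Or.inl rfl

theorem rel_unique {n : ℕ} {F : CNF n} {K : Finset (Fin n)} {x : Fin n} {ι : Type}
    {I : Finset ι} {V : ι → Finset (Fin n)} {m Γ : ℕ} (h : ParSys F K x I V m Γ)
    {T : Finset (Fin n)} {s s' : ℝ} (h1 : Rel I V m x T s) (h2 : Rel I V m x T s') : s = s' := by
  classical
  obtain ⟨J, hJ, hJm, hJT, hs⟩ := h1
  obtain ⟨J', hJ', hJm', hJT', hs'⟩ := h2
  have hD : symmDiff J J' = ∅ := by
    by_contra hne
    have hne' : (symmDiff J J').Nonempty := Finset.nonempty_iff_ne_empty.2 hne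
    obtain ⟨b1, _⟩ := h.bd _ (SosA_sub hJ hJ') hne' (by have := SosA_card J J'; omega)
    have hsub : bdry V (symmDiff J J') ⊆ {x} := by
      refine (bdry_subset_supp V _).trans ?_
      rw [supp_symmDiff]
      intro v hv
      rw [Finset.mem_singleton]
      by_contra hvx
      have e1 : v ∈ supp V J ↔ v ∈ T := by
        rw [← hJT, Finset.mem_erase]
        exact ⟨fun q => ⟨hvx, q⟩, fun q => q.2⟩
      have e2 : v ∈ supp V J' ↔ v ∈ T := by
        rw [← hJT', Finset.mem_erase]
        exact ⟨fun q => ⟨hvx, q⟩, fun q => q.2⟩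
      rw [Finset.mem_symmDiff, e1, e2] at hv
      tauto
    have := Finset.card_le_card hsub
    rw [Finset.card_singleton] at this
    omega
  have hJJ : J = J' := symmDiff_eq_bot.1 (hD.trans Finset.bot_eq_empty.symm)
  subst hJJ
  rw [hs, hs']

theorem rel_mul {n : ℕ} {F : CNF n} {K : Finset (Fin n)} {x : Fin n} {ι : Type}
    {I : Finset ι} {V : ι → Finset (Fin n)} {m Γ W : ℕ} (h : ParSys F K x I V m Γ)
    (hW : Γ * (W + 1) ≤ m) {T T' : Finset (Fin n)} {s s' : ℝ}
    (h1 : Rel I V m x T s) (h2 : Rel I V m x T' s') (h3 : (symmDiff T T').card ≤ W) :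
    Rel I V m x (symmDiff T T') (s * s') := by
  classical
  obtain ⟨J, hJ, hJm, hJT, hs⟩ := h1
  obtain ⟨J', hJ', hJm', hJT', hs'⟩ := h2
  have hsd : (supp V (symmDiff J J')).erase x = symmDiff T T' := by
    rw [supp_symmDiff, ← hJT, ← hJT']
    ext v
    simp only [Finset.mem_erase, Finset.mem_symmDiff]
    tauto
  refine ⟨symmDiff J J', SosA_sub hJ hJ', ?_, hsd, ?_⟩
  · rcases Finset.eq_empty_or_nonempty (symmDiff J J') with h0 | h0
    · rw [h0, Finset.card_empty]
      exact Nat.zero_le _
    · obtain ⟨_, b2⟩ := h.bd _ (SosA_sub hJ hJ') h0 (by have := SosA_card J J'; omega)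
      have hb : (bdry V (symmDiff J J')).card ≤ W + 1 := by
        have e1 : bdry V (symmDiff J J') ⊆ insert x (symmDiff T T') := by
          refine (bdry_subset_supp V _).trans ?_
          rw [← hsd]
          intro v hv
          rw [Finset.mem_insert, Finset.mem_erase]
          by_cases hvx : v = x
          · exact Or.inl hvx
          · exact Or.inr ⟨hvx, hv⟩
        have e2 := Finset.card_le_card e1
        have e3 := Finset.card_insert_le x (symmDiff T T')
        omega
      calc (symmDiff J J').card ≤ Γ * (bdry V (symmDiff J J')).card := b2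
        _ ≤ Γ * (W + 1) := Nat.mul_le_mul_left _ hb
        _ ≤ m := hW
  · rw [hs, hs', supp_symmDiff]
    by_cases a1 : x ∈ supp V J <;> by_cases a2 : x ∈ supp V J' <;>
      simp [Finset.mem_symmDiff, a1, a2]

theorem rel_empty {n : ℕ} {ι : Type} (I : Finset ι) (V : ι → Finset (Fin n)) (m : ℕ)
    (x : Fin n) : Rel I V m x ∅ 1 := by
  have h0 : supp V (∅ : Finset ι) = ∅ := by
    unfold supp
    ext v
    simp
  refine ⟨∅, Finset.empty_subset _, by simp, ?_, ?_⟩
  · rw [h0]
    rfl
  · rw [h0]
    simp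

theorem rel_single {n : ℕ} {ι : Type} {I : Finset ι} (V : ι → Finset (Fin n)) {m : ℕ}
    (x : Fin n) {i : ι} (hi : i ∈ I) (hm : 1 ≤ m) :
    Rel I V m x ((V i).erase x) (if x ∈ V i then -1 else 1) := by
  have h0 : supp V {i} = V i := by
    unfold supp
    ext v
    rw [Finset.mem_filter, Finset.filter_singleton]
    by_cases hv : v ∈ V i
    · simp [hv]
    · simp [hv]
  refine ⟨{i}, Finset.singleton_subset_iff.2 hi, by rw [Finset.card_singleton]; exact hm, ?_, ?_⟩
  · rw [h0]
  · rw [h0]

end Pool.Agent.H13.PZ
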