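import Pool.Agent.H13.PZ.Sys

/-!
# Sparse systems of sets (definition)
-/

namespace Pool.Agent.H13.PZ

open Finset

/-- A sparse system of sets `V i`, `i ∈ I`, in `K`. -/
structure SpSys {n : ℕ} {ι : Type} (V : ι → Finset (Fin n)) (I : Finset ι)
    (G : SimpleGraph (Fin n)) (K : Finset (Fin n)) (k L q N₀ : ℕ) : Prop where
  two_le : ∀ i ∈ I, 2 ≤ (V i).card
  le_k : ∀ i ∈ I, (V i).card ≤ k
  sub : ∀ i ∈ I, V i ⊆ K
  adj : ∀ i ∈ I, (V i).card = 2 → ∀ u ∈ V i, ∀ v ∈ V i, u ≠ v → G.Adj u v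
  small : ∀ v ∈ K, ∃ Q : Finset (Fin n), Q.card ≤ L ∧ ∀ u, G.Reachable v u → u ∈ Q
  sparse : ∀ J ⊆ I, ∀ X : Finset (Fin n), J.card + X.card ≤ N₀ →
    q * ∑ i ∈ J, (V i ∩ X).card ≤ (q + 1) * (J.card + X.card)
  forest : ∀ J ⊆ I, ∀ X ⊆ K, 0 < J.card + X.card → J.card + X.card ≤ 16 * L * k →
    ∑ i ∈ J, (V i ∩ X).card + 1 ≤ J.card + X.card

end Pool.Agent.H13.PZ
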