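import Pool.Agent.H13.PZ.Defs

/-!
# The formula of a system of rows and triples; good sets; boundary
-/

namespace Pool.Agent.H13.PZ

open Finset

/-- The clause of the row `ρ` for `v`: if `v` is false then another variable of `ρ` is false. -/
def rowClause {n : ℕ} (ρ : Finset (Fin n)) (v : Fin n) : Clause n :=
  insert (v, true) ((ρ.erase v).image fun u => (u, false))

/-- The variables of `t` are not all false. -/
def posClause {n : ℕ} (t : Finset (Fin n)) : Clause n := t.image fun v => (v, true)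

/-- In no row exactly one variable is false, in no triple all variables are false. -/
def formula {n : ℕ} (rows trips : Finset (Finset (Fin n))) : CNF n :=
  (rows.biUnion fun ρ => ρ.image fun v => rowClause ρ v) ∪ trips.image posClause

/-- The set of false variables. -/
def zeros {n : ℕ} (a : Fin n → Bool) : Finset (Fin n) := univ.filter fun v => a v = false

/-- `u` and `v` are adjacent if they are the only elements of `K` in some row. -/
def pairGraph {n : ℕ} (rows : Finset (Finset (Fin n))) (K : Finset (Fin n)) :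
    SimpleGraph (Fin n) :=
  SimpleGraph.fromRel fun u v => ∃ ρ ∈ rows, ρ ∩ K = {u, v}

/-- No row has exactly one element in `K`, and the components of the pair graph that meet `K` have
at most `L` elements. -/
structure Good {n : ℕ} (rows : Finset (Finset (Fin n))) (L : ℕ) (K : Finset (Fin n)) : Prop where
  ne_one : ∀ ρ ∈ rows, (ρ ∩ K).card ≠ 1
  small : ∀ v ∈ K, ∃ Q : Finset (Fin n), Q.card ≤ L ∧
    ∀ u, (pairGraph rows K).Reachable v u → u ∈ Q

open Classical in
/-- The union of the good subsets of `U`. -/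
noncomputable def core {n : ℕ} (rows : Finset (Finset (Fin n))) (L : ℕ) (U : Finset (Fin n)) :
    Finset (Fin n) :=
  (U.powerset.filter (Good rows L)).sup id

/-- The number of entries `x` of the list that do not belong to `c U`, where `U` is the set of `x`
and the entries after it. -/
def badCount {n : ℕ} (c : Finset (Fin n) → Finset (Fin n)) : List (Fin n) → ℕ
  | [] => 0
  | x :: l => badCount c l + if x ∈ c (x :: l).toFinset then 0 else 1

/-- The points that lie in exactly one of the sets `V i`, `i ∈ J`. -/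
def bdry {n : ℕ} {ι : Type} (V : ι → Finset (Fin n)) (J : Finset ι) : Finset (Fin n) :=
  univ.filter fun v => (J.filter fun i => v ∈ V i).card = 1

/-- The assignments that are true outside `K` and false at `x`. -/
def InH {n : ℕ} (K : Finset (Fin n)) (x : Fin n) (a : Fin n → Bool) : Prop :=
  (∀ v, v ∉ K → a v = true) ∧ a x = false

/-- A system of parity constraints (an even number of false variables in `V i`) that implies the
formula `F` on `InH K x` and whose small subsystems have large boundary. -/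
structure ParSys {n : ℕ} (F : CNF n) (K : Finset (Fin n)) (x : Fin n) {ι : Type} (I : Finset ι)
    (V : ι → Finset (Fin n)) (m Γ : ℕ) : Prop where
  hx : x ∈ K
  sub : ∀ i ∈ I, V i ⊆ K
  bd : ∀ J ⊆ I, J.Nonempty → J.card ≤ 2 * m + 1 →
    2 ≤ (bdry V J).card ∧ J.card ≤ Γ * (bdry V J).card
  cl : ∀ C ∈ F, (∀ a, InH K x a → ClauseSat a C) ∨
    ∃ i ∈ I, ∀ a, InH K x a → ¬ ClauseSat a C → Odd (V i ∩ zeros a).card

/-- The sparsity and uniqueness properties of a system of rows and triples. -/
structure Sys {n : ℕ} (rows trips : Finset (Finset (Fin n))) (k q g N₀ : ℕ) : Prop where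
  row_card : ∀ ρ ∈ rows, ρ.Nonempty ∧ ρ.card ≤ k
  trip_card : ∀ t ∈ trips, t.Nonempty ∧ t.card ≤ 3 ∧ (t.card = 3 ∨ ∃ v ∈ t, {v} ∈ rows)
  uniq : ∀ Z : Finset (Fin n), Z.Nonempty → (∀ ρ ∈ rows, (ρ ∩ Z).card ≠ 1) → ∃ t ∈ trips, t ⊆ Z
  sparse : ∀ S ⊆ rows, ∀ T ⊆ trips, ∀ X : Finset (Fin n), (∀ ρ ∈ S, 2 ≤ ρ.card) →
    S.card + T.card + X.card ≤ N₀ →
    q * (∑ ρ ∈ S, (ρ ∩ X).card + ∑ t ∈ T, (t ∩ X).card) ≤ (q + 1) * (S.card + T.card + X.card)
  forest : ∀ S ⊆ rows, ∀ T ⊆ trips, ∀ X : Finset (Fin n), (∀ ρ ∈ S, 2 ≤ ρ.card) →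
    (∀ v ∈ X, {v} ∉ rows) → 0 < S.card + T.card + X.card → S.card + T.card + X.card ≤ g →
    (∑ ρ ∈ S, (ρ ∩ X).card + ∑ t ∈ T, (t ∩ X).card) + 1 ≤ S.card + T.card + X.card

/-- The nodes: colours, indices of triples, variables. -/
abbrev Node (n r M : ℕ) := Fin r ⊕ (Fin M ⊕ Fin n)

/-- The number of slots whose owner and whose value both belong to `W`. -/
def eW {n r M : ℕ} (f : Fin n × Fin 3 → Fin r) (h : Fin M × Fin 3 → Fin n)
    (W : Finset (Node n r M)) : ℕ :=
  (univ.filter fun p : Fin n × Fin 3 => Sum.inr (Sum.inr p.1) ∈ W ∧ Sum.inl (f p) ∈ W).card +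
  (univ.filter fun p : Fin M × Fin 3 =>
    Sum.inr (Sum.inl p.1) ∈ W ∧ Sum.inr (Sum.inr (h p)) ∈ W).card

end Pool.Agent.H13.PZ
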