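import Pool.Agent.H13.PZ.Ex
import Pool.Agent.H13.PZ.Grp
import Pool.Agent.H13.PZ.Mk

/-!
# Existence of sparse systems with few rows
-/

namespace Pool.Agent.H13.PZ

open Finset

theorem exists_sys (k q g : ℕ) (hk : 1 ≤ k) (hq : 1 ≤ q) (hg : 2 ≤ g) (τ : ℝ) (hτ : 0 < τ) :
    ∃ δ : ℝ, 0 < δ ∧ ∃ n₀ : ℕ, ∀ n ≥ n₀, ∃ rows trips : Finset (Finset (Fin n)),
      Sys rows trips k q g ⌊δ * n⌋₊ ∧ (rows.card : ℝ) ≤ 3 * n / k + τ * n := by
  obtain ⟨δ, hδ, B, n₀, h⟩ := exists_slots (min 1 (τ / 2)) (by positivity) (min_le_left _ _) q g hq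
  refine ⟨δ, hδ, max n₀ ⌈2 * B / τ⌉₊, fun n hn => ?_⟩
  obtain ⟨r, M, f, hh, hr, hu, hs, Bad, hB, hb⟩ := h n (le_trans (le_max_left _ _) hn)
  obtain ⟨γ, h1, h2, h3⟩ := exists_groups hk f
  obtain ⟨rows, trips, hS, hc⟩ := exists_sys_of_slots (k := k) (q := q) (g := g)
    (N₀ := ⌊δ * n⌋₊) hg f hh γ Bad hk h1 h2 hu
    (fun W hW => hs W (le_trans (by exact_mod_cast hW) (Nat.floor_le (by positivity)))) hb
  refine ⟨rows, trips, hS, ?_⟩
  have e1 : (rows.card : ℝ) ≤ ((3 * n / k : ℕ) : ℝ) + r + Bad.card := by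
    have : rows.card ≤ 3 * n / k + r + Bad.card := by omega
    exact_mod_cast this
  have e2 : ((3 * n / k : ℕ) : ℝ) ≤ 3 * n / k := by
    refine le_trans Nat.cast_div_le ?_
    push_cast
    exact le_refl _
  have e3 : (r : ℝ) ≤ τ / 2 * n :=
    le_trans hr (mul_le_mul_of_nonneg_right (min_le_right _ _) (by positivity))
  have e4 : (Bad.card : ℝ) ≤ τ / 2 * n := by
    have : (⌈2 * B / τ⌉₊ : ℝ) ≤ n := by exact_mod_cast le_trans (le_max_right _ _) hn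
    have h5 : 2 * B / τ ≤ (n : ℝ) := le_trans (Nat.le_ceil _) this
    have h6 : (Bad.card : ℝ) ≤ B := by exact_mod_cast hB
    rw [div_le_iff₀ hτ] at h5
    nlinarith
  nlinarith

end Pool.Agent.H13.PZ
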